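import Pool.Agent.Lib.MP_e95c01_co.N4.Dom76

/-!
# Graphs in which every edge is covered by a fragment of at most two vertices
-/

namespace Pool.Agent.Lib.MP_e95c01_co.N

open Finset

variable {V : Type} [Fintype V] [DecidableEq V]

namespace CG

omit [Fintype V] in
theorem nodup76 {s : Finset V} {l : List V} (hl : l.Nodup) (h : ∀ x ∈ l, x ∈ s) :
    l.length ≤ s.card := by
  rw [← List.toFinset_card_of_nodup hl]
  apply card_le_card
  intro x hx
  exact h x (List.mem_toFinset.1 hx)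

theorem three76 {G : CG V} (hl : G.l univ ≤ 2) {a b c : V} (ha : G.Low a) (hb : G.Low b)
    (hc : G.Low c) (hab : a ≠ b) (hac : a ≠ c) (hbc : b ≠ c) : False := by
  have h1 : ([a, b, c] : List V).Nodup := by simp [hab, hac, hbc]
  have h2 := nodup76 (s := univ.filter fun v => G.Low v) h1 (by
    intro x hx
    simp only [List.mem_cons, List.not_mem_nil, or_false] at hx
    rw [mem_filter]
    refine ⟨mem_univ _, ?_⟩
    rcases hx with rfl | rfl | rfl
    · exact ha
    · exact hb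
    · exact hc)
  unfold l at hl
  simp only [List.length_cons, List.length_nil] at h2
  omega

/-- a vertex that is neither low nor adjacent to a twin pair sees two lows -/
theorem two_lows76 {G : CG V} (hs : G.Sat76) (hS : ∀ x y, y ∈ G.nb x → G.SCov x y) {x : V}
    (hx : ¬ G.Low x) (hnt : ∀ p p', G.Tw76 p p' → x ∈ G.nb p → x ≠ p' → False) :
    ∃ b b', b ≠ b' ∧ G.Low b ∧ G.Low b' ∧ b ∈ G.nb x ∧ b' ∈ G.nb x := by
  have key : ∀ z ∈ G.nb x, ∃ b, b ≠ z ∧ G.Low b ∧ b ∈ G.nb x := by
    intro z hz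
    rcases clsx76 hs hx (hS x z hz) with h1 | h1 | h1 | h1
    · obtain ⟨w, h2, h3, h4⟩ := h1
      exact ⟨w, (nb_ne76 h4).symm, h2, G.sym _ _ h3⟩
    · obtain ⟨p, p', h2, h3, -, h4, -⟩ := h1
      exact (hnt p p' h2 h3 h4).elim
    · obtain ⟨a, b, h2, h3, -, -, h4⟩ := h1
      exact ⟨b, h2.tb.symm, h3, G.sym _ _ h4⟩
    · obtain ⟨b, b', h2, -, -, h3, -, -, -, h4, -⟩ := h1
      exact ⟨b, h4.symm, h2, G.sym _ _ h3⟩
  have h1 : (G.nb x).Nonempty := by
    rw [← Finset.card_pos]
    have := G.deg x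
    omega
  obtain ⟨z, hz⟩ := h1
  obtain ⟨b, -, h2, h3⟩ := key z hz
  obtain ⟨b', h4, h5, h6⟩ := key b h3
  exact ⟨b, b', h4.symm, h2, h5, h3, h6⟩

section

variable {G : CG V}

theorem tw_mem76 {u v w w' : V} (h9 : 9 ≤ Fintype.card V) (h : G.Tw76 u v) (h' : G.Tw76 w w')
    (hw : w ∈ G.nb u) (hwv : w ≠ v) : w' ∈ G.nb u ∧ w' ≠ v ∧ w' ≠ u := by
  have h1 : w' ≠ u := by
    rintro rfl
    exact hwv (mate76 h9 h h'.symm).symm
  have h2 : w' ≠ v := by
    rintro rfl
    exact nb_ne76 hw (mate76 h9 h.symm h'.symm).symm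
  exact ⟨G.sym _ _ ((h'.iff (nb_ne76 hw).symm h1.symm).1 (G.sym _ _ hw)), h2, h1⟩

/-- every twin vertex sees two lows -/
theorem tw_two76 (h10 : 10 ≤ Fintype.card V) (hs : G.Sat76)
    (hS : ∀ x y, y ∈ G.nb x → G.SCov x y) {u v : V} (h : G.Tw76 u v) :
    ∃ b b', b ≠ b' ∧ G.Low b ∧ G.Low b' ∧ b ∈ G.nb u ∧ b' ∈ G.nb u := by
  by_contra hcon
  push Not at hcon
  have h9 : 9 ≤ Fintype.card V := by omega
  have huniq : ∀ b b', G.Low b → G.Low b' → b ∈ G.nb u → b' ∈ G.nb u → b = b' := by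
    intro b b' h1 h2 h3 h4
    by_contra hne
    exact hcon b b' hne h1 h2 h3 h4
  have hScard : ((G.nb u).erase v).card = 6 := by
    rw [card_erase_of_mem h.adj, h.deg]
  -- domination
  have hdom : ∀ s ∈ G.nb u, s ≠ v →
      (∃ w, G.Low w ∧ w ∈ G.nb u ∧ s ∈ G.nb w) ∨
      (∃ w w', G.Tw76 w w' ∧ w ∈ G.nb u ∧ w' ∈ G.nb u ∧ w ≠ v ∧ w' ≠ v ∧ s ∈ G.nb w ∧
        s ≠ w' ∧ s ∈ G.nb w') := by
    intro s hsu hsv
    rcases dom76 h9 hs h hsv (hS u s hsu) with h1 | h1 | h1
    · exact Or.inl h1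
    · obtain ⟨w, w', h2, h3, h4, h5, h6, h7, h8⟩ := h1
      exact Or.inr ⟨w, w', h2, h3, h4, h5, h6, h7, h8, (h2.iff (nb_ne76 h7) h8).1 h7⟩
    · obtain ⟨h2, a, b, h3, h4, h5, h6, h7, h8⟩ := h1
      exact absurd (huniq s b h2 h7 hsu h4) h8.tb
  -- three vertices in the common neighbourhood of a twin vertex
  have hc2 : ∀ w w', G.Tw76 w w' → w ∈ G.nb u → w ≠ v → ∀ a b c : V,
      a ∈ G.nb w → a ∈ G.nb u → a ≠ v → a ≠ w' → b ∈ G.nb w → b ∈ G.nb u → b ≠ v → b ≠ w' →
      c ∈ G.nb w → c ∈ G.nb u → c ≠ v → c ≠ w' → a ≠ b → a ≠ c → b ≠ c → False := by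
    intro w w' hw hwu hwv a b c a1 a2 a3 a4 b1 b2 b3 b4 c1 c2 c3 c4 hab hac hbc
    have h1 : ([a, b, c] : List V).Nodup := by simp [hab, hac, hbc]
    have h2 := nodup76 (s := ((G.nb w ∩ G.nb u).erase v).erase w') h1 (by
      intro x hx
      simp only [List.mem_cons, List.not_mem_nil, or_false] at hx
      rw [mem_erase, mem_erase, mem_inter]
      rcases hx with rfl | rfl | rfl
      · exact ⟨a4, a3, a1, a2⟩
      · exact ⟨b4, b3, b1, b2⟩
      · exact ⟨c4, c3, c1, c2⟩)
    have h3 := c2_76 h10 h hw hwu hwv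
    simp only [List.length_cons, List.length_nil] at h2
    omega
  by_cases ht : ∃ l, G.Low l ∧ l ∈ G.nb u
  · obtain ⟨l, hl, hlu⟩ := ht
    have hlv : l ≠ v := h.ne_low' hl
    rcases hdom l hlu hlv with h1 | h1
    · obtain ⟨w, h2, h3, h4⟩ := h1
      rw [huniq w l h2 hl h3 hlu] at h4
      exact G.irr _ h4
    obtain ⟨w1, w1', t1, a1, a2, a3, a4, a5, a6, a7⟩ := h1
    have hCl := c3_76 h9 h hl hlu
    have hCw := c2_76 h10 h t1 a1 a3
    have hex : ∃ s ∈ (G.nb u).erase v, s ∉ (G.nb l ∩ G.nb u).erase v ∪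
        ((G.nb w1 ∩ G.nb u).erase v).erase w1' := by
      by_contra hcon'
      push Not at hcon'
      have h5 := (card_le_card hcon').trans (card_union_le _ _)
      omega
    obtain ⟨s, hsS, hs'⟩ := hex
    rw [mem_erase] at hsS
    rw [mem_union, not_or, mem_erase, mem_inter, mem_erase, mem_erase, mem_inter] at hs'
    have hsl : s ∉ G.nb l := fun h1 => hs'.1 ⟨hsS.1, h1, hsS.2⟩
    have hsw1 : s ≠ w1 := by
      rintro rfl
      exact hsl (G.sym _ _ a5)
    have hsw1' : s ≠ w1' := by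
      rintro rfl
      exact hsl (G.sym _ _ a7)
    have hsnw : s ∉ G.nb w1 := fun h1 => hs'.2 ⟨hsw1', hsS.1, h1, hsS.2⟩
    rcases hdom s hsS.2 hsS.1 with h1 | h1
    · obtain ⟨w, h2, h3, h4⟩ := h1
      rw [huniq w l h2 hl h3 hlu] at h4
      exact hsl h4
    obtain ⟨w2, w2', t2, b1, b2, b3, b4, b5, b6, b7⟩ := h1
    have n1 : w2 ≠ w1 := by
      rintro rfl
      exact hsnw b5
    have n2 : w2 ≠ w1' := by
      rintro rfl
      exact hsnw ((t1.iff hsw1 hsw1').2 b5)
    have n3 : w2' ≠ w1 := by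
      rintro rfl
      exact hsnw b7
    have n4 : w2' ≠ w1' := by
      rintro rfl
      exact hsnw ((t1.iff hsw1 hsw1').2 b7)
    have lw1 : l ≠ w1 := t1.ne_low hl
    have lw1' : l ≠ w1' := t1.ne_low' hl
    have lw2 : l ≠ w2 := t2.ne_low hl
    have lw2' : l ≠ w2' := t2.ne_low' hl
    rcases hdom w2 b1 b3 with h1 | h1
    · obtain ⟨w, h2, h3, h4⟩ := h1
      rw [huniq w l h2 hl h3 hlu] at h4
      have h5 : w2' ∈ G.nb l := G.sym _ _ ((t2.iff lw2 lw2').1 (G.sym _ _ h4))
      have h6 : ([w1, w1', w2, w2'] : List V).Nodup := by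
        simp [t1.ne, n1.symm, n3.symm, n2.symm, n4.symm, t2.ne]
      have h7 := nodup76 (s := (G.nb l ∩ G.nb u).erase v) h6 (by
        intro x hx
        simp only [List.mem_cons, List.not_mem_nil, or_false] at hx
        rw [mem_erase, mem_inter]
        rcases hx with rfl | rfl | rfl | rfl
        · exact ⟨a3, G.sym _ _ a5, a1⟩
        · exact ⟨a4, G.sym _ _ a7, a2⟩
        · exact ⟨b3, h4, b1⟩
        · exact ⟨b4, h5, b2⟩)
      simp only [List.length_cons, List.length_nil] at h7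
      omega
    obtain ⟨w3, w3', t3, c1, c2, c3, c4, c5, c6, c7⟩ := h1
    -- `w2 ∈ nb w3`
    have m1 : w3 ≠ w2 := (nb_ne76 c5).symm
    have m2 : w3 ≠ w2' := by
      rintro rfl
      exact c6 (mate76 h9 t2.symm t3)
    have m3 : w3' ≠ w2 := c6.symm
    have m4 : w3' ≠ w2' := by
      rintro rfl
      exact m1 (mate76 h9 t2.symm t3.symm).symm
    by_cases hp : w3 = w1 ∨ w3 = w1'
    · have h2 : w2 ∈ G.nb w1 := by
        rcases hp with hp | hp
        · rw [← hp]; exact c5
        · rw [hp] at c5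
          exact (t1.iff n1 n2).2 c5
      have h3 : w2' ∈ G.nb w1 :=
        G.sym _ _ ((t2.iff n1.symm n3.symm).1 (G.sym _ _ h2))
      exact hc2 w1 w1' t1 a1 a3 l w2 w2' a5 hlu hlv lw1' h2 b1 b3 n2 h3 b2 b4 n4 lw2 lw2' t2.ne
    · rw [not_or] at hp
      have m5 : w3' ≠ w1 := by
        rintro rfl
        exact hp.2 (mate76 h9 t1 t3.symm).symm
      have m6 : w3' ≠ w1' := by
        rintro rfl
        exact hp.1 (mate76 h9 t1.symm t3.symm).symm
      have lw3 : l ≠ w3 := t3.ne_low hl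
      have lw3' : l ≠ w3' := t3.ne_low' hl
      have h6 : ([l, w1, w1', w2, w2', w3, w3'] : List V).Nodup := by
        simp [lw1, lw1', lw2, lw2', lw3, lw3', t1.ne, n1.symm, n3.symm, m5.symm, n2.symm,
          n4.symm, m6.symm, t2.ne, m1.symm, m3.symm, m2.symm, m4.symm, t3.ne, Ne.symm hp.1,
          Ne.symm hp.2]
      have h7 := nodup76 (s := (G.nb u).erase v) h6 (by
        intro x hx
        simp only [List.mem_cons, List.not_mem_nil, or_false] at hx
        rw [mem_erase]
        rcases hx with rfl | rfl | rfl | rfl | rfl | rfl | rfl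
        · exact ⟨hlv, hlu⟩
        · exact ⟨a3, a1⟩
        · exact ⟨a4, a2⟩
        · exact ⟨b3, b1⟩
        · exact ⟨b4, b2⟩
        · exact ⟨c3, c1⟩
        · exact ⟨c4, c2⟩)
      simp only [List.length_cons, List.length_nil] at h7
      omega
  · push Not at ht
    have hdom' : ∀ s ∈ G.nb u, s ≠ v →
      (∃ w w', G.Tw76 w w' ∧ w ∈ G.nb u ∧ w' ∈ G.nb u ∧ w ≠ v ∧ w' ≠ v ∧ s ∈ G.nb w ∧
        s ≠ w' ∧ s ∈ G.nb w') := by
      intro s h1 h2
      rcases hdom s h1 h2 with h3 | h3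
      · obtain ⟨w, h4, h5, -⟩ := h3
        exact absurd h5 (ht w h4)
      · exact h3
    -- dominators of dominators
    have step : ∀ s ∈ G.nb u, s ≠ v → ∃ w w' s', G.Tw76 w w' ∧ G.Tw76 s s' ∧ w ∈ G.nb u ∧
        w' ∈ G.nb u ∧ w ≠ v ∧ w' ≠ v ∧ s' ∈ G.nb u ∧ s' ≠ v ∧ s ∈ G.nb w ∧ s ∈ G.nb w' ∧
        s' ∈ G.nb w ∧ s' ∈ G.nb w' := by
      intro s h1 h2
      obtain ⟨w, w', t1, a1, a2, a3, a4, a5, a6, a7⟩ := hdom' s h1 h2
      obtain ⟨x, x', t2, b1, b2, b3, b4, b5, b6, b7⟩ := hdom' w a1 a3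
      have m1 : x' ≠ w' := by
        rintro rfl
        exact nb_ne76 b5 (mate76 h9 t1.symm t2.symm)
      have m2 : x ≠ w' := by
        rintro rfl
        exact b6 (mate76 h9 t1.symm t2)
      by_cases h3 : s = x
      · subst h3
        exact ⟨w, w', x', t1, t2, a1, a2, a3, a4, b2, b4, a5, a7, G.sym _ _ b7,
          G.sym _ _ ((t1.iff b6.symm m1).1 (G.sym _ _ b7) |> fun h => G.sym _ _ h)⟩
      by_cases h4 : s = x'
      · subst h4
        exact ⟨w, w', x, t1, t2.symm, a1, a2, a3, a4, b1, b3, a5, a7, G.sym _ _ b5,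
          G.sym _ _ ((t1.iff (nb_ne76 b5).symm m2).1 (G.sym _ _ b5) |> fun h => G.sym _ _ h)⟩
      exact (hc2 w w' t1 a1 a3 s x x' a5 h1 h2 a6 (G.sym _ _ b5) b1 b3 m2 (G.sym _ _ b7) b2 b4
        m1 h3 h4 t2.ne).elim
    have h1 : ((G.nb u).erase v).Nonempty := by
      rw [← Finset.card_pos]; omega
    obtain ⟨s, hs1⟩ := h1
    rw [mem_erase] at hs1
    obtain ⟨w, w', s', t1, t2, a1, a2, a3, a4, a5, a6, a7, a8, a9, a10⟩ := step s hs1.2 hs1.1
    have hex : ∃ x ∈ (G.nb u).erase v, x ∉ ({w, w', s, s'} : Finset V) := by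
      by_contra hcon'
      push Not at hcon'
      have h5 := (card_le_card hcon').trans card_le_four
      omega
    obtain ⟨x, hx1, hx2⟩ := hex
    rw [mem_erase] at hx1
    simp only [mem_insert, mem_singleton, not_or] at hx2
    obtain ⟨xw, xw', xs, xs'⟩ := hx2
    obtain ⟨y, y', x', t3, t4, b1, b2, b3, b4, b5, b6, b7, b8, b9, b10⟩ := step x hx1.2 hx1.1
    have sw : s ≠ w := nb_ne76 a7
    have sw' : s ≠ w' := nb_ne76 a8
    have s'w : s' ≠ w := nb_ne76 a9
    have s'w' : s' ≠ w' := nb_ne76 a10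
    -- `x` is not adjacent to `w`, `s`
    have e1 : x ∉ G.nb w := fun h3 =>
      hc2 w w' t1 a1 a3 x s s' h3 hx1.2 hx1.1 xw' a7 hs1.2 hs1.1 sw' a9 a5 a6 s'w' xs xs' t2.ne
    have e2 : x ∉ G.nb s := fun h3 =>
      hc2 s s' t2 hs1.2 hs1.1 x w w' h3 hx1.2 hx1.1 xs' (G.sym _ _ a7) a1 a3 s'w.symm
        (G.sym _ _ a8) a2 a4 s'w'.symm xw xw' t1.ne
    have e3 : x ∉ G.nb w' := fun h3 => e1 ((t1.iff xw xw').2 h3)
    have e4 : x ∉ G.nb s' := fun h3 => e2 ((t2.iff xs xs').2 h3)
    have yw : y ≠ w := by rintro rfl; exact e1 b7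
    have yw' : y ≠ w' := by rintro rfl; exact e3 b7
    have ys : y ≠ s := by rintro rfl; exact e2 b7
    have ys' : y ≠ s' := by rintro rfl; exact e4 b7
    have y'w : y' ≠ w := by rintro rfl; exact e1 b8
    have y'w' : y' ≠ w' := by rintro rfl; exact e3 b8
    have y's : y' ≠ s := by rintro rfl; exact e2 b8
    have y's' : y' ≠ s' := by rintro rfl; exact e4 b8
    have xy : x ≠ y := nb_ne76 b7
    have xy' : x ≠ y' := nb_ne76 b8
    have h6 : ([w, w', s, s', x, y, y'] : List V).Nodup := by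
      simp [t1.ne, sw.symm, s'w.symm, sw'.symm, s'w'.symm, t2.ne, Ne.symm xw, Ne.symm xw',
        Ne.symm xs, Ne.symm xs', yw.symm, yw'.symm, ys.symm, ys'.symm, y'w.symm, y'w'.symm,
        y's.symm, y's'.symm, xy, xy', t3.ne]
    have h7 := nodup76 (s := (G.nb u).erase v) h6 (by
      intro z hz
      simp only [List.mem_cons, List.not_mem_nil, or_false] at hz
      rw [mem_erase]
      rcases hz with rfl | rfl | rfl | rfl | rfl | rfl | rfl
      · exact ⟨a3, a1⟩
      · exact ⟨a4, a2⟩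
      · exact ⟨hs1.1, hs1.2⟩
      · exact ⟨a6, a5⟩
      · exact ⟨hx1.1, hx1.2⟩
      · exact ⟨b3, b1⟩
      · exact ⟨b4, b2⟩)
    simp only [List.length_cons, List.length_nil] at h7
    omega

/-- two adjacent twin pairs are impossible if there are only two lows -/
theorem no_adj76 (h10 : 10 ≤ Fintype.card V) (hs : G.Sat76)
    (hS : ∀ x y, y ∈ G.nb x → G.SCov x y) (hl2 : G.l univ ≤ 2) {u u' v v' : V}
    (h : G.Tw76 u u') (h' : G.Tw76 v v') (hvu : v ∈ G.nb u) (hvu' : v ≠ u') : False := by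
  have h9 : 9 ≤ Fintype.card V := by omega
  obtain ⟨l1, l2, hll, L1, L2, hl1, hl2'⟩ := tw_two76 h10 hs hS h
  have huniq : ∀ b, G.Low b → b = l1 ∨ b = l2 := by
    intro b hb
    by_contra hcon
    rw [not_or] at hcon
    exact three76 hl2 L1 L2 hb hll (Ne.symm hcon.1) (Ne.symm hcon.2)
  -- all twin vertices see both lows
  have hall : ∀ p p', G.Tw76 p p' → l1 ∈ G.nb p ∧ l2 ∈ G.nb p := by
    intro p p' hp
    obtain ⟨b, b', hne, B1, B2, hb1, hb2⟩ := tw_two76 h10 hs hS hp
    rcases huniq b B1 with h1 | h1 <;> rcases huniq b' B2 with h2 | h2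
    · exact absurd (h1.trans h2.symm) hne
    · rw [h1] at hb1; rw [h2] at hb2; exact ⟨hb1, hb2⟩
    · rw [h1] at hb1; rw [h2] at hb2; exact ⟨hb2, hb1⟩
    · exact absurd (h1.trans h2.symm) hne
  obtain ⟨hv'u, hv'u', hv'ne⟩ := tw_mem76 h9 h h' hvu hvu'
  have hvne : v ≠ u := nb_ne76 hvu
  -- the common neighbours of `u` and `v`
  have hC : ∀ x, x ∈ G.nb u → x ≠ u' → x ∈ G.nb v → x ≠ v' → x = l1 ∨ x = l2 := by
    intro x x1 x2 x3 x4
    by_contra hcon
    rw [not_or] at hcon
    have h1 : ([l1, l2, x] : List V).Nodup := by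
      simp [hll, Ne.symm hcon.1, Ne.symm hcon.2]
    have h2 := nodup76 (s := ((G.nb v ∩ G.nb u).erase u').erase v') h1 (by
      intro y hy
      simp only [List.mem_cons, List.not_mem_nil, or_false] at hy
      rw [mem_erase, mem_erase, mem_inter]
      rcases hy with rfl | rfl | rfl
      · exact ⟨h'.ne_low' L1, h.ne_low' L1, (hall v v' h').1, hl1⟩
      · exact ⟨h'.ne_low' L2, h.ne_low' L2, (hall v v' h').2, hl2'⟩
      · exact ⟨x4, x2, x3, x1⟩)
    have h3 := c2_76 h10 h h' hvu hvu'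
    simp only [List.length_cons, List.length_nil] at h2
    omega
  -- at most one further neighbour of a low in `N Q`
  have hD : ∀ l, G.Low l → (∀ p p', G.Tw76 p p' → l ∈ G.nb p) → ∀ x y, x ≠ y → x ∈ G.nb u →
      y ∈ G.nb u → x ≠ u' → y ≠ u' → x ∈ G.nb l → y ∈ G.nb l → x ≠ v → x ≠ v' → y ≠ v →
      y ≠ v' → False := by
    intro l hl hp x y hxy x1 y1 x2 y2 x3 y3 x4 x5 y4 y5
    have h1 : ([v, v', x, y] : List V).Nodup := by
      simp [h'.ne, Ne.symm x4, Ne.symm x5, Ne.symm y4, Ne.symm y5, hxy]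
    have h2 := nodup76 (s := (G.nb l ∩ G.nb u).erase u') h1 (by
      intro z hz
      simp only [List.mem_cons, List.not_mem_nil, or_false] at hz
      rw [mem_erase, mem_inter]
      rcases hz with rfl | rfl | rfl | rfl
      · exact ⟨hvu', G.sym _ _ (hp _ _ h'), hvu⟩
      · exact ⟨hv'u', G.sym _ _ (hp _ _ h'.symm), hv'u⟩
      · exact ⟨x2, x3, x1⟩
      · exact ⟨y2, y3, y1⟩)
    have h3 := c3_76 h9 h hl (hp u u' h)
    simp only [List.length_cons, List.length_nil] at h2
    omega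
  have p1 : ∀ p p', G.Tw76 p p' → l1 ∈ G.nb p := fun p p' hp => (hall p p' hp).1
  have p2 : ∀ p p', G.Tw76 p p' → l2 ∈ G.nb p := fun p p' hp => (hall p p' hp).2
  -- the two remaining vertices of `N Q`
  have hX : (((G.nb u).erase u') \ {l1, l2, v, v'}).card = 2 := by
    have h1 : ({l1, l2, v, v'} : Finset V) ⊆ (G.nb u).erase u' := by
      intro z hz
      simp only [mem_insert, mem_singleton] at hz
      rw [mem_erase]
      rcases hz with rfl | rfl | rfl | rfl
      · exact ⟨h.ne_low' L1, hl1⟩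
      · exact ⟨h.ne_low' L2, hl2'⟩
      · exact ⟨hvu', hvu⟩
      · exact ⟨hv'u', hv'u⟩
    have h2 : ({l1, l2, v, v'} : Finset V).card = 4 := by
      have h3 : ([l1, l2, v, v'] : List V).Nodup := by
        simp [hll, h'.ne_low L1, h'.ne_low' L1, h'.ne_low L2, h'.ne_low' L2, h'.ne]
      have h4 := List.toFinset_card_of_nodup h3
      simpa using h4
    have h3 := card_sdiff_add_card_eq_card h1
    rw [h2, card_erase_of_mem h.adj, h.deg] at h3
    omega
  obtain ⟨x1, x2, hx12, hXeq⟩ := card_eq_two.1 hX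
  have hmem : ∀ x, (x = x1 ∨ x = x2) ↔
      (x ≠ u' ∧ x ∈ G.nb u) ∧ ¬ (x = l1 ∨ x = l2 ∨ x = v ∨ x = v') := by
    intro x
    have h1 : x ∈ ((G.nb u).erase u') \ {l1, l2, v, v'} ↔ x ∈ ({x1, x2} : Finset V) := by
      rw [hXeq]
    rw [mem_sdiff, mem_erase] at h1
    simp only [mem_insert, mem_singleton] at h1
    exact h1.symm
  -- each of them sees a low
  have hdom : ∀ x, (x = x1 ∨ x = x2) → x ∈ G.nb l1 ∨ x ∈ G.nb l2 := by
    intro x hx
    have hx' := (hmem x).1 hx
    simp only [not_or] at hx'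
    obtain ⟨⟨a1, a2⟩, a3, a4, a5, a6⟩ := hx'
    rcases dom76 h9 hs h a1 (hS u x a2) with h1 | h1 | h1
    · obtain ⟨w, h2, h3, h4⟩ := h1
      rcases huniq w h2 with h5 | h5
      · rw [h5] at h4; exact Or.inl h4
      · rw [h5] at h4; exact Or.inr h4
    · obtain ⟨w, w', t, b1, b2, b3, b4, b5, b6⟩ := h1
      exfalso
      by_cases hwv : w = v
      · rw [hwv] at b5
        rcases hC x a2 a1 b5 a6 with h2 | h2
        · exact a3 h2
        · exact a4 h2
      by_cases hwv' : w = v'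
      · rw [hwv'] at b5
        have h3 := (h'.iff a5 a6).2 b5
        rcases hC x a2 a1 h3 a6 with h2 | h2
        · exact a3 h2
        · exact a4 h2
      have h3 : w' ≠ v := by
        rintro rfl
        exact hwv' (mate76 h9 h' t.symm).symm
      have h4 : w' ≠ v' := by
        rintro rfl
        exact hwv (mate76 h9 h'.symm t.symm).symm
      exact hD l1 L1 p1 w w' t.ne b1 b2 b3 b4 (G.sym _ _ (p1 w w' t))
        (G.sym _ _ (p1 w' w t.symm)) hwv hwv' h3 h4
    · exfalso
      rcases huniq x h1.1 with h2 | h2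
      · exact a3 h2
      · exact a4 h2
  -- the final contradiction
  have fin : ∀ x y la lb, G.Low la → G.Low lb → (∀ b, G.Low b → b = la ∨ b = lb) →
      (∀ p p', G.Tw76 p p' → la ∈ G.nb p) → (∀ p p', G.Tw76 p p' → lb ∈ G.nb p) →
      la ≠ lb → x ≠ y → (∀ z, (z = x ∨ z = y) ↔
      (z ≠ u' ∧ z ∈ G.nb u) ∧ ¬ (z = la ∨ z = lb ∨ z = v ∨ z = v')) →
      x ∈ G.nb la → y ∈ G.nb lb → False := by
    intro x y la lb La Lb huniq pa pb hab hxy hmem hxa hyb
    have hx' := (hmem x).1 (Or.inl rfl)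
    have hy' := (hmem y).1 (Or.inr rfl)
    simp only [not_or] at hx' hy'
    obtain ⟨⟨a1, a2⟩, a3, a4, a5, a6⟩ := hx'
    obtain ⟨⟨b1, b2⟩, b3, b4, b5, b6⟩ := hy'
    have hlau : la ∈ G.nb u := pa u u' h
    have hlbu : lb ∈ G.nb u := pb u u' h
    have hxb : x ∉ G.nb lb := fun hxb =>
      hD lb Lb pb x y hxy a2 b2 a1 b1 hxb hyb a5 a6 b5 b6
    have hlab : lb ∉ G.nb la := fun hlab =>
      hD la La pa x lb a4 a2 hlbu a1 (h.ne_low' Lb) hxa hlab a5 a6 (h'.ne_low Lb)
        (h'.ne_low' Lb)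
    have hxv : x ∉ G.nb v := by
      intro hxv
      rcases hC x a2 a1 hxv a6 with h2 | h2
      · rcases huniq l1 L1 with h3 | h3
        · exact a3 (h2.trans h3)
        · exact a4 (h2.trans h3)
      · rcases huniq l2 L2 with h3 | h3
        · exact a3 (h2.trans h3)
        · exact a4 (h2.trans h3)
    have hxv' : x ∉ G.nb v' := fun h1 => hxv ((h'.iff a5 a6).2 h1)
    have hxlow : ¬ G.Low x := by
      intro h1
      rcases huniq x h1 with h2 | h2
      · exact a3 h2
      · exact a4 h2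
    have hxu : x ≠ u := nb_ne76 a2
    -- the neighbours of `la`
    have hla : ([u, u', v, v', x] : List V).Nodup := by
      simp [h.ne, hvne.symm, hv'ne.symm, hxu.symm, hvu'.symm, hv'u'.symm, Ne.symm a1, h'.ne,
        Ne.symm a5, Ne.symm a6]
    have hlam : ∀ z ∈ ([u, u', v, v', x] : List V), z ∈ G.nb la := by
      intro z hz
      simp only [List.mem_cons, List.not_mem_nil, or_false] at hz
      rcases hz with rfl | rfl | rfl | rfl | rfl
      · exact G.sym _ _ (pa _ _ h)
      · exact G.sym _ _ (pa _ _ h.symm)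
      · exact G.sym _ _ (pa _ _ h')
      · exact G.sym _ _ (pa _ _ h'.symm)
      · exact hxa
    have hcov : ∀ z ∈ G.nb x, z ∈ (G.nb la) \ {v, v', x} ∪ (G.nb u) \ {v, v', lb, x} := by
      intro z hz
      have z1 : z ≠ x := nb_ne76 hz
      have z2 : z ≠ v := by rintro rfl; exact hxv (G.sym _ _ hz)
      have z3 : z ≠ v' := by rintro rfl; exact hxv' (G.sym _ _ hz)
      have z4 : z ≠ lb := by rintro rfl; exact hxb (G.sym _ _ hz)
      rw [mem_union, mem_sdiff, mem_sdiff]
      simp only [mem_insert, mem_singleton, not_or]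
      have g1 : z ∈ G.nb la → (z ∈ G.nb la ∧ z ≠ v ∧ z ≠ v' ∧ z ≠ x) ∨
          (z ∈ G.nb u ∧ z ≠ v ∧ z ≠ v' ∧ z ≠ lb ∧ z ≠ x) := fun h1 =>
        Or.inl ⟨h1, z2, z3, z1⟩
      rcases clsx76 hs hxlow (hS x z hz) with h1 | h1 | h1 | h1
      · obtain ⟨w, h2, h3, h4⟩ := h1
        rcases huniq w h2 with h5 | h5
        · rw [h5] at h4
          exact g1 h4
        · rw [h5] at h3
          exact absurd h3 hxb
      · obtain ⟨w, w', t, c1, c2, c3, c4⟩ := h1
        by_cases hwu : w = u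
        · rw [hwu] at c2
          exact Or.inr ⟨c2, z2, z3, z4, z1⟩
        by_cases hwu' : w = u'
        · rw [hwu'] at c2 t
          have h5 := mate76 h9 h.symm t
          exact Or.inr ⟨(h.iff (by rw [h5]; exact c4) (nb_ne76 c2)).2 c2, z2, z3, z4, z1⟩
        exfalso
        have wv : w ≠ v := by rintro rfl; exact hxv c1
        have wv' : w ≠ v' := by rintro rfl; exact hxv' c1
        have w'u : w' ≠ u := by
          rintro rfl
          exact hwu' (mate76 h9 h t.symm).symm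
        have w'u' : w' ≠ u' := by
          rintro rfl
          exact hwu (mate76 h9 h.symm t.symm).symm
        have w'v : w' ≠ v := by
          rintro rfl
          exact wv' (mate76 h9 h' t.symm).symm
        have w'v' : w' ≠ v' := by
          rintro rfl
          exact wv (mate76 h9 h'.symm t.symm).symm
        have wx : w ≠ x := (nb_ne76 c1).symm
        have h5 : ([w, w', u, u', v, v', x] : List V).Nodup := by
          rw [List.nodup_cons, List.nodup_cons]
          refine ⟨?_, ?_, hla⟩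
          · simp only [List.mem_cons, List.not_mem_nil, or_false, not_or]
            exact ⟨t.ne, hwu, hwu', wv, wv', wx⟩
          · simp only [List.mem_cons, List.not_mem_nil, or_false, not_or]
            exact ⟨w'u, w'u', w'v, w'v', Ne.symm c3⟩
        have h6 := nodup76 (s := G.nb la) h5 (by
          intro y hy
          rw [List.mem_cons, List.mem_cons] at hy
          rcases hy with rfl | rfl | hy
          · exact G.sym _ _ (pa _ _ t)
          · exact G.sym _ _ (pa _ _ t.symm)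
          · exact hlam y hy)
        have h7 : (G.nb la).card = 6 := La
        simp only [List.length_cons, List.length_nil] at h6
        omega
      · obtain ⟨a, b, h2, h3, h4, h5, h6⟩ := h1
        exfalso
        rcases huniq b h3 with h7 | h7
        · rcases huniq z h4 with h8 | h8
          · exact h2.tb (h8.trans h7.symm)
          · exact z4 h8
        · rw [h7] at h6
          exact hxb h6
      · obtain ⟨b, b', h2, h3, h4, h5, h6, -⟩ := h1
        exfalso
        rcases huniq b h2 with h7 | h7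
        · rcases huniq b' h3 with h8 | h8
          · rw [h7, h8] at h4
            exact G.irr _ h4
          · rw [h7, h8] at h4
            exact hlab h4
        · rw [h7] at h5
          exact hxb h5
    have k1 : ((G.nb la) \ {v, v', x}).card = 3 := by
      have h1 : ({v, v', x} : Finset V) ⊆ G.nb la := by
        intro z hz
        simp only [mem_insert, mem_singleton] at hz
        apply hlam z
        simp only [List.mem_cons, List.not_mem_nil, or_false]
        tauto
      have h2 : ({v, v', x} : Finset V).card = 3 :=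
        card_eq_three.2 ⟨v, v', x, h'.ne, Ne.symm a5, Ne.symm a6, rfl⟩
      have h3 := card_sdiff_add_card_eq_card h1
      have h7 : (G.nb la).card = 6 := La
      omega
    have k2 : ((G.nb u) \ {v, v', lb, x}).card = 3 := by
      have h1 : ({v, v', lb, x} : Finset V) ⊆ G.nb u := by
        intro z hz
        simp only [mem_insert, mem_singleton] at hz
        rcases hz with rfl | rfl | rfl | rfl
        · exact hvu
        · exact hv'u
        · exact hlbu
        · exact a2
      have h2 : ({v, v', lb, x} : Finset V).card = 4 := by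
        have h3 : ([v, v', lb, x] : List V).Nodup := by
          simp [(h'.ne_low Lb).symm, (h'.ne_low' Lb).symm, h'.ne, Ne.symm a5, Ne.symm a6,
            Ne.symm a4]
        have h4 := List.toFinset_card_of_nodup h3
        simpa using h4
      have h3 := card_sdiff_add_card_eq_card h1
      have h7 := h.deg
      omega
    have k3 : 1 ≤ ((G.nb la) \ {v, v', x} ∩ ((G.nb u) \ {v, v', lb, x})).card := by
      rw [Nat.one_le_iff_ne_zero, ← Nat.pos_iff_ne_zero, Finset.card_pos]
      refine ⟨u', ?_⟩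
      rw [mem_inter, mem_sdiff, mem_sdiff]
      simp only [mem_insert, mem_singleton, not_or]
      exact ⟨⟨G.sym _ _ (pa _ _ h.symm), hvu'.symm, hv'u'.symm, Ne.symm a1⟩, h.adj, hvu'.symm,
        hv'u'.symm, (h.ne_low' Lb).symm, Ne.symm a1⟩
    have k4 := card_union_add_card_inter ((G.nb la) \ {v, v', x}) ((G.nb u) \ {v, v', lb, x})
    have k5 := card_le_card (show G.nb x ⊆ _ from hcov)
    have k6 := G.deg x
    omega
  have hx1 := hdom x1 (Or.inl rfl)
  have hx2 := hdom x2 (Or.inr rfl)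
  have m1 := (hmem x1).1 (Or.inl rfl)
  have m2 := (hmem x2).1 (Or.inr rfl)
  simp only [not_or] at m1 m2
  have nb1 : ∀ l, G.Low l → (∀ p p', G.Tw76 p p' → l ∈ G.nb p) →
      ¬ (x1 ∈ G.nb l ∧ x2 ∈ G.nb l) := fun l hl pl hh =>
    hD l hl pl x1 x2 hx12 m1.1.2 m2.1.2 m1.1.1 m2.1.1 hh.1 hh.2 m1.2.2.2.1 m1.2.2.2.2
      m2.2.2.2.1 m2.2.2.2.2
  rcases hx1 with h1 | h1
  · rcases hx2 with h2 | h2
    · exact nb1 l1 L1 p1 ⟨h1, h2⟩
    · exact fin x1 x2 l1 l2 L1 L2 huniq p1 p2 hll hx12 hmem h1 h2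
  · rcases hx2 with h2 | h2
    · refine fin x1 x2 l2 l1 L2 L1 (fun b hb => (huniq b hb).symm) p2 p1 hll.symm hx12 ?_ h1 h2
      intro z
      rw [hmem z]
      constructor
      · rintro ⟨h3, h4⟩
        exact ⟨h3, fun h5 => h4 (by tauto)⟩
      · rintro ⟨h3, h4⟩
        exact ⟨h3, fun h5 => h4 (by tauto)⟩
    · exact nb1 l2 L2 p2 ⟨h1, h2⟩

/-- if every edge is covered by a fragment of at most two vertices, there are three lows -/
theorem closed76 (h10 : 10 ≤ Fintype.card V) (hs : G.Sat76)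
    (hS : ∀ x y, y ∈ G.nb x → G.SCov x y) : 3 ≤ G.l univ := by
  by_contra hcon
  have hl2 : G.l univ ≤ 2 := by omega
  have h9 : 9 ≤ Fintype.card V := by omega
  have hnonlow : ∀ A : Finset V, A.card + 2 < Fintype.card V → ∃ x, x ∉ A ∧ ¬ G.Low x := by
    intro A hA
    by_contra hc
    push Not at hc
    have h1 : (univ : Finset V) ⊆ A ∪ univ.filter fun v => G.Low v := by
      intro x _
      rw [mem_union, mem_filter]
      by_cases h : x ∈ A
      · exact Or.inl h
      · exact Or.inr ⟨mem_univ _, hc x h⟩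
    have h2 := (card_le_card h1).trans (card_union_le _ _)
    rw [card_univ] at h2
    unfold l at hl2
    omega
  by_cases htw : ∃ u u', G.Tw76 u u'
  swap
  · push Not at htw
    have h1 : ∀ x, ¬ G.Low x → ∃ b b', b ≠ b' ∧ G.Low b ∧ G.Low b' ∧ b ∈ G.nb x ∧
        b' ∈ G.nb x := fun x hx =>
      two_lows76 hs hS hx (fun p p' hp _ _ => htw p p' hp)
    obtain ⟨x0, -, hx0⟩ := hnonlow ∅ (by simp; omega)
    obtain ⟨l1, l2, hll, L1, L2, -, -⟩ := h1 x0 hx0
    have h2 : (univ : Finset V) ⊆ G.nb l1 ∪ univ.filter fun v => G.Low v := by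
      intro x _
      rw [mem_union, mem_filter]
      by_cases hx : G.Low x
      · exact Or.inr ⟨mem_univ _, hx⟩
      left
      obtain ⟨b, b', hne, B1, B2, hb1, hb2⟩ := h1 x hx
      by_cases e1 : b = l1
      · rw [← e1]; exact G.sym _ _ hb1
      by_cases e2 : b' = l1
      · rw [← e2]; exact G.sym _ _ hb2
      exact (three76 hl2 L1 B1 B2 (Ne.symm e1) (Ne.symm e2) hne).elim
    have h3 := (card_le_card h2).trans (card_union_le _ _)
    rw [card_univ] at h3
    have h4 : (G.nb l1).card = 6 := L1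
    unfold l at hl2
    omega
  obtain ⟨u, u', h⟩ := htw
  obtain ⟨l1, l2, hll, L1, L2, hl1, hl2'⟩ := tw_two76 h10 hs hS h
  have huniq : ∀ b, G.Low b → b = l1 ∨ b = l2 := by
    intro b hb
    by_contra hc
    rw [not_or] at hc
    exact three76 hl2 L1 L2 hb hll (Ne.symm hc.1) (Ne.symm hc.2)
  have hboth : ∀ x : V, (∃ b b', b ≠ b' ∧ G.Low b ∧ G.Low b' ∧ b ∈ G.nb x ∧ b' ∈ G.nb x) →
      l1 ∈ G.nb x ∧ l2 ∈ G.nb x := by
    rintro x ⟨b, b', hne, B1, B2, hb1, hb2⟩
    rcases huniq b B1 with h1 | h1 <;> rcases huniq b' B2 with h2 | h2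
    · exact absurd (h1.trans h2.symm) hne
    · rw [h1] at hb1; rw [h2] at hb2; exact ⟨hb1, hb2⟩
    · rw [h1] at hb1; rw [h2] at hb2; exact ⟨hb2, hb1⟩
    · exact absurd (h1.trans h2.symm) hne
  -- two vertices outside of `N[Q]` that see both lows
  have hW : ∃ y y', y ≠ y' ∧ y ∉ G.nb u ∧ y' ∉ G.nb u ∧ y ≠ u ∧ y' ≠ u ∧
      (l1 ∈ G.nb y ∧ l2 ∈ G.nb y) ∧ (l1 ∈ G.nb y' ∧ l2 ∈ G.nb y') := by
    by_cases h2 : ∃ v v', G.Tw76 v v' ∧ v ≠ u ∧ v ≠ u'
    · obtain ⟨v, v', t, n1, n2⟩ := h2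
      have n3 : v' ≠ u := by
        rintro rfl
        exact n2 (mate76 h9 h t.symm).symm
      have n4 : v' ≠ u' := by
        rintro rfl
        exact n1 (mate76 h9 h.symm t.symm).symm
      exact ⟨v, v', t.ne, fun hh => no_adj76 h10 hs hS hl2 h t hh n2,
        fun hh => no_adj76 h10 hs hS hl2 h t.symm hh n4, n1, n3,
        hboth v (tw_two76 h10 hs hS t), hboth v' (tw_two76 h10 hs hS t.symm)⟩
    · push Not at h2
      have key : ∀ y, y ∉ insert u (G.nb u) → l1 ∈ G.nb y ∧ l2 ∈ G.nb y := by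
        intro y hy
        rw [mem_insert, not_or] at hy
        apply hboth
        apply two_lows76 hs hS
        · intro hy'
          rcases huniq y hy' with h3 | h3
          · rw [h3] at hy; exact hy.2 hl1
          · rw [h3] at hy; exact hy.2 hl2'
        · intro p p' hp hyp hyp'
          by_cases e1 : p = u
          · rw [e1] at hyp; exact hy.2 hyp
          · have e2 := h2 p p' hp e1
            rw [e2] at hyp hp
            have e3 := mate76 h9 h.symm hp
            exact hy.2 ((h.iff (by rw [e3]; exact hyp') (nb_ne76 hyp)).2 hyp)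
      have hc : (insert u (G.nb u)).card ≤ 8 := by
        have := card_insert_le u (G.nb u)
        rw [h.deg] at this
        omega
      have hcompl : 2 ≤ ((insert u (G.nb u))ᶜ).card := by
        rw [card_compl]
        omega
      obtain ⟨y, hy, y', hy', hne⟩ := one_lt_card.1 (by omega : 1 < ((insert u (G.nb u))ᶜ).card)
      rw [mem_compl] at hy hy'
      have hy1 := hy
      have hy1' := hy'
      rw [mem_insert, not_or] at hy hy'
      exact ⟨y, y', hne, hy.2, hy'.2, hy.1, hy'.1, key y hy1, key y' hy1'⟩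
  obtain ⟨y, y', hyy, y1, y2, y3, y4, y5, y6⟩ := hW
  have yu' : y ≠ u' := by rintro rfl; exact y1 h.adj
  have yu'' : y' ≠ u' := by rintro rfl; exact y2 h.adj
  -- the four other vertices of `N Q`
  set S' := ((G.nb u).erase u') \ {l1, l2} with hS'
  have hS'card : S'.card = 4 := by
    have h1 : ({l1, l2} : Finset V) ⊆ (G.nb u).erase u' := by
      intro z hz
      simp only [mem_insert, mem_singleton] at hz
      rw [mem_erase]
      rcases hz with rfl | rfl
      · exact ⟨h.ne_low' L1, hl1⟩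
      · exact ⟨h.ne_low' L2, hl2'⟩
    have h2 : ({l1, l2} : Finset V).card = 2 := card_pair hll
    have h3 := card_sdiff_add_card_eq_card h1
    rw [← hS', h2, card_erase_of_mem h.adj, h.deg] at h3
    omega
  have hdomS : ∀ x ∈ S', x ∈ G.nb l1 ∨ x ∈ G.nb l2 := by
    intro x hx
    rw [hS', mem_sdiff, mem_erase] at hx
    simp only [mem_insert, mem_singleton, not_or] at hx
    rcases dom76 h9 hs h hx.1.1 (hS u x hx.1.2) with h1 | h1 | h1
    · obtain ⟨w, h2, h3, h4⟩ := h1
      rcases huniq w h2 with h5 | h5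
      · rw [h5] at h4; exact Or.inl h4
      · rw [h5] at h4; exact Or.inr h4
    · obtain ⟨w, w', t, b1, b2, b3, b4, b5, b6⟩ := h1
      exact (no_adj76 h10 hs hS hl2 h t b1 b3).elim
    · exfalso
      rcases huniq x h1.1 with h2 | h2
      · exact hx.2.1 h2
      · exact hx.2.2 h2
  -- the neighbours of a low in `S'`
  have hbound : ∀ la, G.Low la → la ∈ G.nb u → la ∈ G.nb y → la ∈ G.nb y' →
      (G.nb la ∩ S').card ≤ 2 := by
    intro la La h1 h2 h3
    have h4 : insert u (insert u' (insert y (insert y' (G.nb la ∩ S')))) ⊆ G.nb la := by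
      intro z hz
      simp only [mem_insert, mem_inter] at hz
      rcases hz with rfl | rfl | rfl | rfl | h5
      · exact G.sym _ _ h1
      · exact G.sym _ _ ((h.iff (h.ne_low La) (h.ne_low' La)).1 h1)
      · exact G.sym _ _ h2
      · exact G.sym _ _ h3
      · exact h5.1
    have h5 := card_le_card h4
    have hSm : ∀ z, z ∈ G.nb la ∩ S' → z ≠ u' ∧ z ∈ G.nb u := by
      intro z hz
      rw [mem_inter, hS', mem_sdiff, mem_erase] at hz
      exact hz.2.1
    rw [card_insert_of_notMem, card_insert_of_notMem, card_insert_of_notMem,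
      card_insert_of_notMem] at h5
    · have h6 : (G.nb la).card = 6 := La
      omega
    · intro h6
      exact y2 (hSm y' h6).2
    · rw [mem_insert]
      rintro (h6 | h6)
      · exact hyy h6
      · exact y1 (hSm y h6).2
    · rw [mem_insert, mem_insert]
      rintro (h6 | h6 | h6)
      · exact yu' h6.symm
      · exact yu'' h6.symm
      · exact (hSm u' h6).1 rfl
    · rw [mem_insert, mem_insert, mem_insert]
      rintro (h6 | h6 | h6 | h6)
      · exact h.ne h6
      · exact y3 h6.symm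
      · exact y4 h6.symm
      · exact G.irr _ (hSm u h6).2
  have hb1 := hbound l1 L1 hl1 y5.1 y6.1
  have hb2 := hbound l2 L2 hl2' y5.2 y6.2
  have hun : S' ⊆ (G.nb l1 ∩ S') ∪ (G.nb l2 ∩ S') := by
    intro x hx
    rw [mem_union, mem_inter, mem_inter]
    rcases hdomS x hx with h1 | h1
    · exact Or.inl ⟨h1, hx⟩
    · exact Or.inr ⟨h1, hx⟩
  have hc1 := card_le_card hun
  have hc2 := card_union_add_card_inter (G.nb l1 ∩ S') (G.nb l2 ∩ S')
  have hl1u' : l1 ≠ u' := h.ne_low' L1
  rcases dom76 h9 hs h hl1u' (hS u l1 hl1) with h1 | h1 | h1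
  · obtain ⟨w, h2, h3, h4⟩ := h1
    have hw : w = l2 := by
      rcases huniq w h2 with h5 | h5
      · rw [h5] at h4; exact (G.irr _ h4).elim
      · exact h5
    rw [hw] at h4
    -- `l1` and `l2` are adjacent
    have hb3 : ∀ la lb, la ≠ lb → G.Low la → G.Low lb → la ∈ G.nb u → lb ∈ G.nb u →
        la ∈ G.nb y → la ∈ G.nb y' → lb ∈ G.nb la → lb ∉ S' → (G.nb la ∩ S').card ≤ 1 := by
      intro la lb hab La Lb h1 h1' h2 h3 h4 hlb
      have h4 : insert u (insert u' (insert y (insert y' (insert lb (G.nb la ∩ S'))))) ⊆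
          G.nb la := by
        intro z hz
        simp only [mem_insert, mem_inter] at hz
        rcases hz with rfl | rfl | rfl | rfl | rfl | h5
        · exact G.sym _ _ h1
        · exact G.sym _ _ ((h.iff (h.ne_low La) (h.ne_low' La)).1 h1)
        · exact G.sym _ _ h2
        · exact G.sym _ _ h3
        · exact h4
        · exact h5.1
      have h5 := card_le_card h4
      have hSm : ∀ z, z ∈ G.nb la ∩ S' → z ≠ u' ∧ z ∈ G.nb u := by
        intro z hz
        rw [mem_inter, hS', mem_sdiff, mem_erase] at hz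
        exact hz.2.1
      rw [card_insert_of_notMem, card_insert_of_notMem, card_insert_of_notMem,
        card_insert_of_notMem, card_insert_of_notMem] at h5
      · have h6 : (G.nb la).card = 6 := La
        omega
      · intro h6
        exact hlb (mem_inter.1 h6).2
      · rw [mem_insert]
        rintro (h6 | h6)
        · rw [h6] at y2; exact y2 h1'
        · exact y2 (hSm y' h6).2
      · rw [mem_insert, mem_insert]
        rintro (h6 | h6 | h6)
        · exact hyy h6
        · rw [h6] at y1; exact y1 h1'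
        · exact y1 (hSm y h6).2
      · rw [mem_insert, mem_insert, mem_insert]
        rintro (h6 | h6 | h6 | h6)
        · exact yu' h6.symm
        · exact yu'' h6.symm
        · exact h.ne_low' Lb h6.symm
        · exact (hSm u' h6).1 rfl
      · rw [mem_insert, mem_insert, mem_insert, mem_insert]
        rintro (h6 | h6 | h6 | h6 | h6)
        · exact h.ne h6
        · exact y3 h6.symm
        · exact y4 h6.symm
        · exact h.ne_low Lb h6.symm
        · exact G.irr _ (hSm u h6).2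
    have hn1 : l1 ∉ S' := by
      rw [hS', mem_sdiff]
      exact fun hh => hh.2 (mem_insert_self _ _)
    have hn2 : l2 ∉ S' := by
      rw [hS', mem_sdiff]
      exact fun hh => hh.2 (mem_insert_of_mem (mem_singleton_self _))
    have hb4 := hb3 l1 l2 hll L1 L2 hl1 hl2' y5.1 y6.1 (G.sym _ _ h4) hn2
    omega
  · obtain ⟨w, w', t, b1, b2, b3, b4, b5, b6⟩ := h1
    exact no_adj76 h10 hs hS hl2 h t b1 b3
  · obtain ⟨-, a, b, a1, a2, a3, a4, a5, a6⟩ := h1
    have hb : b = l2 := by
      rcases huniq b a5 with h5 | h5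
      · exact absurd h5.symm a6.tb
      · exact h5
    rw [hb] at a6
    have h7 : a ∈ (G.nb l1 ∩ S') ∩ (G.nb l2 ∩ S') := by
      have h8 : a ∈ S' := by
        rw [hS', mem_sdiff, mem_erase]
        simp only [mem_insert, mem_singleton, not_or]
        refine ⟨⟨a3, a1⟩, ?_, ?_⟩
        · rintro rfl; exact a4 L1
        · rintro rfl; exact a4 L2
      rw [mem_inter, mem_inter, mem_inter]
      exact ⟨⟨G.sym _ _ a6.ta, h8⟩, a6.ab, h8⟩
    have h8 := Finset.card_pos.2 ⟨a, h7⟩
    omega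

/-- no fragment with at least three vertices on both sides: small fragments cover all edges -/
theorem scov_of76 (hc : G.Crit) (hno : ∀ F, ¬ G.Big F) : ∀ x y, y ∈ G.nb x → G.SCov x y := by
  intro x y hxy
  obtain ⟨E, hE, hx, hy⟩ := hc x y hxy
  by_cases h1 : E.card ≤ 2
  · exact ⟨E, hE, h1, hx, hy⟩
  · obtain ⟨hCf, hCN, hCC⟩ := G.stCo_37 E hE
    refine ⟨G.Co E, hCf, ?_, by rw [hCN]; exact hx, by rw [hCN]; exact hy⟩
    by_contra h2
    exact hno E ⟨hE, by omega, by omega⟩

/-- three lows if there is no big fragment -/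
theorem three_lows76 (hc : G.Crit) (hs : G.Sat76) (hno : ∀ F, ¬ G.Big F) (hne : Nonempty V) :
    3 ≤ G.l univ := by
  by_cases h10 : 10 ≤ Fintype.card V
  · exact closed76 h10 hs (scov_of76 hc hno)
  have hcov : ∀ x y, y ∈ G.nb x → ∃ w, G.Low w ∧ x ∈ G.nb w ∧ y ∈ G.nb w := by
    intro x y hxy
    obtain ⟨E, hE, hx, hy⟩ := hc x y hxy
    obtain ⟨hCf, hCN, hCC⟩ := G.stCo_37 E hE
    have h5 := G.part37 E (fun _ => True)
    simp only [filter_true, card_univ] at h5
    have h6 := hE.2.1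
    have h7 := hE.1.card_pos
    have h8 := hCf.1.card_pos
    rcases (by omega : E.card = 1 ∨ (G.Co E).card = 1) with h9 | h9
    · obtain ⟨w, hw⟩ := card_eq_one.1 h9
      rw [hw, N_single76] at hx hy h6
      exact ⟨w, h6, hx, hy⟩
    · obtain ⟨w, hw⟩ := card_eq_one.1 h9
      rw [← hCN, hw, N_single76] at hx hy h6
      exact ⟨w, h6, hx, hy⟩
  have hex : ∀ v, ∃ z, z ∈ G.nb v := by
    intro v
    have h1 : (G.nb v).Nonempty := by
      rw [← Finset.card_pos]
      have := G.deg v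
      omega
    exact h1
  obtain ⟨v⟩ := hne
  obtain ⟨z, hz⟩ := hex v
  obtain ⟨l1, L1, -, -⟩ := hcov v z hz
  obtain ⟨z1, hz1⟩ := hex l1
  obtain ⟨l2, L2, h1, -⟩ := hcov l1 z1 hz1
  obtain ⟨l3, L3, h2, h3⟩ := hcov l1 l2 (G.sym _ _ h1)
  by_contra hcon
  exact three76 (by omega) L1 L2 L3 (nb_ne76 h1) (nb_ne76 h2) (nb_ne76 h3)

/-- graphs with at most 12 vertices and no big fragment -/
theorem small76 (hc : G.Crit) (hs : G.Sat76) (hno : ∀ F, ¬ G.Big F)
    (h12 : Fintype.card V ≤ 12) : Fintype.card V ≤ 4 * G.l univ := by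
  rcases isEmpty_or_nonempty V with h | h
  · rw [Fintype.card_eq_zero]
    exact Nat.zero_le _
  · have := three_lows76 hc hs hno h
    omega

end

end CG

end Pool.Agent.Lib.MP_e95c01_co.N
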