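import Pool.Agent.Lib.MP_e95c01_co.N4.Sat76

/-!
# Fragments with at most two vertices
-/

namespace Pool.Agent.Lib.MP_e95c01_co.N

open Finset

variable {V : Type} [Fintype V] [DecidableEq V]

namespace CG

/-- twins: adjacent vertices of degree 7 with the same closed neighbourhood -/
structure Tw76 (G : CG V) (u v : V) : Prop where
  ne : u ≠ v
  adj : v ∈ G.nb u
  deg : (G.nb u).card = 7
  eq : (G.nb u).erase v = (G.nb v).erase u

theorem Tw76.iff {G : CG V} {u v x : V} (h : G.Tw76 u v) (hu : x ≠ u) (hv : x ≠ v) :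
    x ∈ G.nb u ↔ x ∈ G.nb v := by
  constructor
  · intro hx
    have : x ∈ (G.nb u).erase v := mem_erase.2 ⟨hv, hx⟩
    rw [h.eq] at this
    exact mem_of_mem_erase this
  · intro hx
    have : x ∈ (G.nb v).erase u := mem_erase.2 ⟨hu, hx⟩
    rw [← h.eq] at this
    exact mem_of_mem_erase this

theorem Tw76.symm {G : CG V} {u v : V} (h : G.Tw76 u v) : G.Tw76 v u := by
  refine ⟨h.ne.symm, G.sym _ _ h.adj, ?_, h.eq.symm⟩
  have h1 : ((G.nb u).erase v).card = 6 := by
    rw [card_erase_of_mem h.adj, h.deg]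
  rw [h.eq, card_erase_of_mem (G.sym _ _ h.adj)] at h1
  omega

theorem Tw76.not_low {G : CG V} {u v : V} (h : G.Tw76 u v) : ¬ G.Low u := by
  intro h1
  have h2 := h.deg
  have h3 : (G.nb u).card = 6 := h1
  omega

theorem Tw76.ne_low {G : CG V} {u v w : V} (h : G.Tw76 u v) (hw : G.Low w) : w ≠ u := by
  rintro rfl
  exact h.not_low hw

theorem Tw76.ne_low' {G : CG V} {u v w : V} (h : G.Tw76 u v) (hw : G.Low w) : w ≠ v :=
  h.symm.ne_low hw

theorem nb_ne76 {G : CG V} {u v : V} (h : v ∈ G.nb u) : v ≠ u := by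
  rintro rfl
  exact G.irr _ h

theorem N_single76 {G : CG V} (w : V) : G.N {w} = G.nb w := by
  ext v
  rw [mem_N37, mem_singleton]
  constructor
  · rintro ⟨-, u, hu, hv⟩
    rw [mem_singleton] at hu
    rwa [hu] at hv
  · intro hv
    exact ⟨nb_ne76 hv, w, mem_singleton_self _, hv⟩

theorem mem_N_pair76 {G : CG V} {a b v : V} :
    v ∈ G.N {a, b} ↔ v ≠ a ∧ v ≠ b ∧ (v ∈ G.nb a ∨ v ∈ G.nb b) := by
  rw [mem_N37, mem_insert, mem_singleton, not_or]
  constructor
  · rintro ⟨h, u, hu, hv⟩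
    rw [mem_insert, mem_singleton] at hu
    refine ⟨h.1, h.2, ?_⟩
    rcases hu with rfl | rfl
    · exact Or.inl hv
    · exact Or.inr hv
  · rintro ⟨h1, h2, h3 | h3⟩
    · exact ⟨⟨h1, h2⟩, a, mem_insert_self _ _, h3⟩
    · exact ⟨⟨h1, h2⟩, b, mem_insert_of_mem (mem_singleton_self _), h3⟩

/-- the covers of a pair of vertices by a small fragment -/
def Cls76 (G : CG V) (x y : V) : Prop :=
  (∃ w, G.Low w ∧ x ∈ G.nb w ∧ y ∈ G.nb w) ∨
  (∃ u v, G.Tw76 u v ∧ x ∈ G.nb u ∧ y ∈ G.nb u ∧ x ≠ v ∧ y ≠ v) ∨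
  (∃ a b t, G.HL76 a b t ∧ G.Low b ∧ x ∈ G.nb a ∧ y ∈ G.nb a ∧ x ≠ b ∧ y ≠ b ∧
    (x = t ∨ y = t)) ∨
  (∃ b b', G.Low b ∧ G.Low b' ∧ b' ∈ G.nb b ∧ x ∈ G.nb b ∧ y ∈ G.nb b' ∧ x ∉ G.nb b' ∧
    y ∉ G.nb b ∧ x ≠ b' ∧ y ≠ b ∧ (∀ z ∈ G.nb b, z ≠ b' → z ≠ x → z ∈ G.nb b') ∧
    (∀ z ∈ G.nb b', z ≠ b → z ≠ y → z ∈ G.nb b))

/-- two adjacent vertices, one of degree 7 and one of degree 6 -/
theorem hl_of76 {G : CG V} {a b : V} (hab : b ∈ G.nb a) (hE : (G.N {a, b}).card = 6)
    (hb : (G.nb b).card = 6) (ha : (G.nb a).card = 7) : ∃ t, G.HL76 a b t := by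
  have hba := G.sym _ _ hab
  have h1 : (G.nb a).erase b = G.N {a, b} := by
    apply eq_of_subset_of_card_le
    · intro v hv
      rw [mem_erase] at hv
      exact mem_N_pair76.2 ⟨nb_ne76 hv.2, hv.1, Or.inl hv.2⟩
    · rw [hE, card_erase_of_mem hab, ha]
  have h2 : (G.nb b).erase a ⊆ G.N {a, b} := by
    intro v hv
    rw [mem_erase] at hv
    exact mem_N_pair76.2 ⟨hv.1, nb_ne76 hv.2, Or.inr hv.2⟩
  have h3 : (G.N {a, b} \ (G.nb b).erase a).card = 1 := by
    have h4 := card_sdiff_add_card_eq_card h2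
    have h5 : ((G.nb b).erase a).card = 5 := by rw [card_erase_of_mem hba, hb]
    omega
  obtain ⟨t, ht⟩ := card_eq_one.1 h3
  have htm : t ∈ G.N {a, b} \ (G.nb b).erase a := by rw [ht]; exact mem_singleton_self _
  rw [mem_sdiff, mem_erase] at htm
  have ht' := mem_N_pair76.1 htm.1
  refine ⟨t, hba, ht'.2.1, fun h => htm.2 ⟨ht'.1, h⟩, ?_⟩
  ext v
  rw [mem_insert, mem_insert, mem_erase]
  constructor
  · intro hv
    by_cases hvb : v = b
    · exact Or.inr (Or.inl hvb)
    have h6 : v ∈ G.N {a, b} := by rw [← h1]; exact mem_erase.2 ⟨hvb, hv⟩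
    by_cases h7 : v ∈ (G.nb b).erase a
    · exact Or.inr (Or.inr (mem_erase.1 h7))
    · left
      have : v ∈ G.N {a, b} \ (G.nb b).erase a := mem_sdiff.2 ⟨h6, h7⟩
      rw [ht, mem_singleton] at this
      exact this
  · rintro (rfl | rfl | h)
    · rw [← h1] at htm
      exact mem_of_mem_erase htm.1
    · exact hab
    · have h6 := h2 (mem_erase.2 h)
      rw [← h1] at h6
      exact mem_of_mem_erase h6

theorem cls76 {G : CG V} {x y : V} (h : G.SCov x y) : G.Cls76 x y := by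
  obtain ⟨E, hE, hc, hx, hy⟩ := h
  have h0 : 0 < E.card := hE.1.card_pos
  rcases Nat.lt_or_ge E.card 2 with h1 | h1
  · obtain ⟨w, rfl⟩ := card_eq_one.1 (by omega : E.card = 1)
    have h2 := hE.2.1
    rw [N_single76] at h2 hx hy
    exact Or.inl ⟨w, h2, hx, hy⟩
  obtain ⟨a, b, hab, rfl⟩ := card_eq_two.1 (by omega : E.card = 2)
  have hN := hE.2.1
  have hx' := mem_N_pair76.1 hx
  have hy' := mem_N_pair76.1 hy
  by_cases hadj : b ∈ G.nb a
  swap
  · have hba : a ∉ G.nb b := fun h => hadj (G.sym _ _ h)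
    have h2 : G.nb a = G.N {a, b} := by
      apply eq_of_subset_of_card_le
      · intro v hv
        exact mem_N_pair76.2 ⟨nb_ne76 hv, fun h => hadj (by rw [← h]; exact hv), Or.inl hv⟩
      · rw [hN]
        exact G.deg a
    refine Or.inl ⟨a, ?_, by rw [h2]; exact hx, by rw [h2]; exact hy⟩
    change (G.nb a).card = 6
    rw [h2, hN]
  have hadj' := G.sym _ _ hadj
  have ha : (G.nb a).erase b ⊆ G.N {a, b} := by
    intro v hv
    rw [mem_erase] at hv
    exact mem_N_pair76.2 ⟨nb_ne76 hv.2, hv.1, Or.inl hv.2⟩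
  have hb : (G.nb b).erase a ⊆ G.N {a, b} := by
    intro v hv
    rw [mem_erase] at hv
    exact mem_N_pair76.2 ⟨hv.1, nb_ne76 hv.2, Or.inr hv.2⟩
  have ca := card_le_card ha
  have cb := card_le_card hb
  rw [card_erase_of_mem hadj, hN] at ca
  rw [card_erase_of_mem hadj', hN] at cb
  have da := G.deg a
  have db := G.deg b
  have hl : ∀ a b : V, a ≠ b → b ∈ G.nb a → (G.N {a, b}).card = 6 → (G.nb b).card = 6 →
      (G.nb a).card = 7 → x ∈ G.N {a, b} → y ∈ G.N {a, b} → G.Cls76 x y := by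
    intro a b hab hadj hN hb6 ha7 hx hy
    obtain ⟨t, ht⟩ := hl_of76 hadj hN hb6 ha7
    rw [mem_N_pair76] at hx hy
    have h5 : ∀ z, z ≠ a → z ≠ b → (z ∈ G.nb a ∨ z ∈ G.nb b) → z ∈ G.nb a := by
      intro z h1 h2 h3
      rcases h3 with h3 | h3
      · exact h3
      · rw [ht.eq, mem_insert, mem_insert, mem_erase]
        exact Or.inr (Or.inr ⟨h1, h3⟩)
    have h6 : ∀ z, z ≠ a → z ≠ b → (z ∈ G.nb a ∨ z ∈ G.nb b) → z ≠ t → z ∈ G.nb b := by
      intro z h1 h2 h3 h4
      rcases h3 with h3 | h3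
      · rw [ht.eq, mem_insert, mem_insert, mem_erase] at h3
        rcases h3 with h3 | h3 | h3
        · exact absurd h3 h4
        · exact absurd h3 h2
        · exact h3.2
      · exact h3
    by_cases hxt : x = t
    · exact Or.inr (Or.inr (Or.inl ⟨a, b, t, ht, hb6, h5 x hx.1 hx.2.1 hx.2.2,
        h5 y hy.1 hy.2.1 hy.2.2, hx.2.1, hy.2.1, Or.inl hxt⟩))
    by_cases hyt : y = t
    · exact Or.inr (Or.inr (Or.inl ⟨a, b, t, ht, hb6, h5 x hx.1 hx.2.1 hx.2.2,
        h5 y hy.1 hy.2.1 hy.2.2, hx.2.1, hy.2.1, Or.inr hyt⟩))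
    · exact Or.inl ⟨b, hb6, h6 x hx.1 hx.2.1 hx.2.2 hxt, h6 y hy.1 hy.2.1 hy.2.2 hyt⟩
  by_cases ha7 : (G.nb a).card = 7
  · by_cases hb7 : (G.nb b).card = 7
    · have h2 : (G.nb a).erase b = G.N {a, b} := eq_of_subset_of_card_le ha (by
        rw [hN, card_erase_of_mem hadj, ha7])
      have h3 : (G.nb b).erase a = G.N {a, b} := eq_of_subset_of_card_le hb (by
        rw [hN, card_erase_of_mem hadj', hb7])
      refine Or.inr (Or.inl ⟨a, b, ⟨hab, hadj, ha7, h2.trans h3.symm⟩, ?_, ?_, hx'.2.1,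
        hy'.2.1⟩)
      · rw [← h2] at hx
        exact mem_of_mem_erase hx
      · rw [← h2] at hy
        exact mem_of_mem_erase hy
    · exact hl a b hab hadj hN (by omega) ha7 hx hy
  · by_cases hb7 : (G.nb b).card = 7
    · have h2 : ({a, b} : Finset V) = {b, a} := pair_comm a b
      rw [h2] at hN hx hy
      exact hl b a hab.symm hadj' hN (by omega) hb7 hx hy
    · have ha6 : (G.nb a).card = 6 := by omega
      have hb6 : (G.nb b).card = 6 := by omega
      by_cases h2 : x ∈ G.nb a ∧ y ∈ G.nb a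
      · exact Or.inl ⟨a, ha6, h2.1, h2.2⟩
      by_cases h3 : x ∈ G.nb b ∧ y ∈ G.nb b
      · exact Or.inl ⟨b, hb6, h3.1, h3.2⟩
      -- the private neighbours
      have main : ∀ a b : V, b ∈ G.nb a → (G.N {a, b}).card = 6 → (G.nb a).card = 6 →
          (G.nb b).card = 6 → x ∈ G.N {a, b} → y ∈ G.N {a, b} → x ∈ G.nb a → y ∉ G.nb a →
          x ∉ G.nb b → y ∈ G.nb b → G.Cls76 x y := by
        intro a b hadj hN ha6 hb6 hx hy hxa hya hxb hyb
        have hx' := mem_N_pair76.1 hx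
        have hy' := mem_N_pair76.1 hy
        have hba := G.sym _ _ hadj
        have e1 : (G.nb a).erase b = (G.N {a, b}).erase y := by
          apply eq_of_subset_of_card_le
          · intro v hv
            rw [mem_erase] at hv ⊢
            refine ⟨fun h => hya (by rw [← h]; exact hv.2), ?_⟩
            exact mem_N_pair76.2 ⟨nb_ne76 hv.2, hv.1, Or.inl hv.2⟩
          · rw [card_erase_of_mem hy, card_erase_of_mem hadj, hN, ha6]
        have e2 : (G.nb b).erase a = (G.N {a, b}).erase x := by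
          apply eq_of_subset_of_card_le
          · intro v hv
            rw [mem_erase] at hv ⊢
            refine ⟨fun h => hxb (by rw [← h]; exact hv.2), ?_⟩
            exact mem_N_pair76.2 ⟨hv.1, nb_ne76 hv.2, Or.inr hv.2⟩
          · rw [card_erase_of_mem hx, card_erase_of_mem hba, hN, hb6]
        refine Or.inr (Or.inr (Or.inr ⟨a, b, ha6, hb6, hadj, hxa, hyb, hxb, hya, hx'.2.1,
          hy'.1, ?_, ?_⟩))
        · intro z hz hzb hzx
          have h4 : z ∈ (G.nb a).erase b := mem_erase.2 ⟨hzb, hz⟩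
          rw [e1] at h4
          have h5 : z ∈ (G.nb b).erase a := by
            rw [e2]
            exact mem_erase.2 ⟨hzx, mem_of_mem_erase h4⟩
          exact mem_of_mem_erase h5
        · intro z hz hza hzy
          have h4 : z ∈ (G.nb b).erase a := mem_erase.2 ⟨hza, hz⟩
          rw [e2] at h4
          have h5 : z ∈ (G.nb a).erase b := by
            rw [e1]
            exact mem_erase.2 ⟨hzy, mem_of_mem_erase h4⟩
          exact mem_of_mem_erase h5
      by_cases hxa : x ∈ G.nb a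
      · have hya : y ∉ G.nb a := fun h => h2 ⟨hxa, h⟩
        have hyb : y ∈ G.nb b := by
          rcases hy'.2.2 with h | h
          · exact absurd h hya
          · exact h
        have hxb : x ∉ G.nb b := fun h => h3 ⟨h, hyb⟩
        exact main a b hadj hN ha6 hb6 hx hy hxa hya hxb hyb
      · have hxb : x ∈ G.nb b := by
          rcases hx'.2.2 with h | h
          · exact absurd h hxa
          · exact h
        have hyb : y ∉ G.nb b := fun h => h3 ⟨hxb, h⟩
        have hya : y ∈ G.nb a := by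
          rcases hy'.2.2 with h | h
          · exact h
          · exact absurd h hyb
        have h4 : ({a, b} : Finset V) = {b, a} := pair_comm a b
        rw [h4] at hN hx hy
        exact main b a hadj' hN hb6 ha6 hx hy hxb hyb hxa hya

end CG

end Pool.Agent.Lib.MP_e95c01_co.N
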