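import Pool.Agent.Lib.MP_e95c01_co.N.Defs37

/-!
# Small fragments: the four ways to cover an edge
-/

namespace Pool.Agent.Lib.MP_e95c01_co.N

open Finset

variable {V : Type} [Fintype V] [DecidableEq V] (G : CG V)

namespace CG

/-- twins: two adjacent vertices of degree 7 with the same closed neighbourhood -/
def Tw (p q : V) : Prop :=
  p ≠ q ∧ (G.nb p).card = 7 ∧ (G.nb q).card = 7 ∧ q ∈ G.nb p ∧
    (G.nb p).erase q = (G.nb q).erase p

/-- `b` is low and the closed neighbourhood of `a` is the one of `b` and `t` -/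
def HL (a b t : V) : Prop :=
  G.Low b ∧ a ∈ G.nb b ∧ t ≠ b ∧ t ∉ G.nb b ∧ G.nb a = insert t (insert b ((G.nb b).erase a))

/-- `b`, `c` adjacent lows; `x` is the only vertex at `b` and not at `c`, `y` the only vertex at
`c` and not at `b` -/
def LL (b c x y : V) : Prop :=
  G.Low b ∧ G.Low c ∧ c ∈ G.nb b ∧ x ∈ G.nb b ∧ x ∉ G.nb c ∧ x ≠ c ∧ y ∈ G.nb c ∧ y ∉ G.nb b ∧
    y ≠ b ∧ ((G.nb b).erase c).erase x = ((G.nb c).erase b).erase y

variable {G}

theorem nb_ne36 {u v : V} (h : v ∈ G.nb u) : v ≠ u := by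
  rintro rfl
  exact G.irr _ h

theorem mN36 {S : Finset V} {v : V} : v ∈ G.N S ↔ v ∉ S ∧ ∃ u ∈ S, v ∈ G.nb u := by
  rw [N, mem_sdiff, mem_biUnion, and_comm]

/-- the four forms of a small cover -/
theorem cov_36 {x y : V} (h : G.SCov x y) (hxy : x ≠ y) :
    (∃ w, G.Low w ∧ x ∈ G.nb w ∧ y ∈ G.nb w) ∨
    (∃ p q, G.Tw p q ∧ x ∈ G.nb p ∧ y ∈ G.nb p ∧ x ∈ G.nb q ∧ y ∈ G.nb q) ∨
    (∃ a b, G.HL a b x ∧ y ∈ G.nb b ∧ y ∈ G.nb a) ∨
    (∃ a b, G.HL a b y ∧ x ∈ G.nb b ∧ x ∈ G.nb a) ∨
    (∃ b c, G.LL b c x y) := by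
  obtain ⟨E, ⟨hne, h6, hco⟩, h2, hx, hy⟩ := h
  have h1 : 0 < E.card := card_pos.2 hne
  rcases (show E.card = 1 ∨ E.card = 2 by omega) with hE | hE
  · obtain ⟨w, rfl⟩ := card_eq_one.1 hE
    have hN : G.N {w} = G.nb w := by
      ext v
      rw [mN36]
      simp only [mem_singleton, exists_eq_left]
      exact ⟨fun h => h.2, fun h => ⟨nb_ne36 h, h⟩⟩
    rw [hN] at h6 hx hy
    exact Or.inl ⟨w, h6, hx, hy⟩
  · obtain ⟨a, b, hab, rfl⟩ := card_eq_two.1 hE
    have hN : ∀ v, v ∈ G.N {a, b} ↔ v ≠ a ∧ v ≠ b ∧ (v ∈ G.nb a ∨ v ∈ G.nb b) := by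
      intro v
      rw [mN36]
      simp only [mem_insert, mem_singleton, not_or, exists_eq_or_imp, exists_eq_left]
      tauto
    by_cases hadj : b ∈ G.nb a
    swap
    · have hadj' : a ∉ G.nb b := fun h => hadj (G.sym _ _ h)
      have s1 : G.nb a ⊆ G.N {a, b} := fun v hv =>
        (hN v).2 ⟨nb_ne36 hv, fun h => hadj (h ▸ hv), Or.inl hv⟩
      have e1 : G.nb a = G.N {a, b} := eq_of_subset_of_card_le s1 (by
        rw [h6]; exact G.deg a)
      refine Or.inl ⟨a, ?_, e1 ▸ hx, e1 ▸ hy⟩
      change (G.nb a).card = 6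
      rw [e1, h6]
    have hadj' : a ∈ G.nb b := G.sym _ _ hadj
    set A := (G.nb a).erase b with hA
    set B := (G.nb b).erase a with hB
    have hAc : A.card + 1 = (G.nb a).card := card_erase_add_one hadj
    have hBc : B.card + 1 = (G.nb b).card := card_erase_add_one hadj'
    have hmA : ∀ v, v ∈ A ↔ v ≠ b ∧ v ∈ G.nb a := fun v => by rw [hA, mem_erase]
    have hmB : ∀ v, v ∈ B ↔ v ≠ a ∧ v ∈ G.nb b := fun v => by rw [hB, mem_erase]
    have hU : G.N {a, b} = A ∪ B := by
      ext v
      rw [hN, mem_union, hmA, hmB]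
      constructor
      · rintro ⟨h1, h2, h3 | h3⟩
        · exact Or.inl ⟨h2, h3⟩
        · exact Or.inr ⟨h1, h3⟩
      · rintro (⟨h1, h2⟩ | ⟨h1, h2⟩)
        · exact ⟨nb_ne36 h2, h1, Or.inl h2⟩
        · exact ⟨h1, nb_ne36 h2, Or.inr h2⟩
    have sA : A ⊆ A ∪ B := subset_union_left
    have sB : B ⊆ A ∪ B := subset_union_right
    rw [hU] at h6 hx hy
    have cA := card_le_card sA
    have cB := card_le_card sB
    have dA := G.deg a
    have dB := G.deg b
    -- both of degree at least 7
    have key : ∀ a b : V, b ∈ G.nb a → (G.nb a).erase b = A ∪ B → (G.nb a).card = 7 →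
        (G.nb b).card = 6 → (G.nb b).erase a ⊆ A ∪ B →
        (∃ w, G.Low w ∧ x ∈ G.nb w ∧ y ∈ G.nb w) ∨
        (∃ a b, G.HL a b x ∧ y ∈ G.nb b ∧ y ∈ G.nb a) ∨
        (∃ a b, G.HL a b y ∧ x ∈ G.nb b ∧ x ∈ G.nb a) := by
      intro a b hab h1 h2 h3 h4
      have hba : a ∈ G.nb b := G.sym _ _ hab
      have h5 : ((G.nb b).erase a).card + 1 = 6 := by rw [card_erase_add_one hba, h3]
      have h7 : ((A ∪ B) \ (G.nb b).erase a).card = 1 := by
        have := card_sdiff_add_card_eq_card h4
        omega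
      obtain ⟨t, ht⟩ := card_eq_one.1 h7
      have ht1 : t ∈ A ∪ B ∧ t ∉ (G.nb b).erase a := by
        rw [← mem_sdiff, ht]; exact mem_singleton_self t
      have ht2 : t ∈ G.nb a ∧ t ≠ b := by
        have := ht1.1
        rw [← h1, mem_erase] at this
        exact ⟨this.2, this.1⟩
      have hta : t ≠ a := nb_ne36 ht2.1
      have ht3 : t ∉ G.nb b := fun h => ht1.2 (mem_erase.2 ⟨hta, h⟩)
      have hHL : G.HL a b t := by
        refine ⟨h3, hba, ht2.2, ht3, ?_⟩
        ext v
        rw [mem_insert, mem_insert]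
        constructor
        · intro hv
          by_cases hvb : v = b
          · exact Or.inr (Or.inl hvb)
          have hv1 : v ∈ A ∪ B := by rw [← h1]; exact mem_erase.2 ⟨hvb, hv⟩
          by_cases hv2 : v ∈ (G.nb b).erase a
          · exact Or.inr (Or.inr hv2)
          · left
            have : v ∈ ((A ∪ B) \ (G.nb b).erase a) := mem_sdiff.2 ⟨hv1, hv2⟩
            rw [ht, mem_singleton] at this
            exact this
        · rintro (rfl | rfl | hv)
          · exact ht2.1
          · exact hab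
          · have := h4 hv
            rw [← h1, mem_erase] at this
            exact this.2
      have hcl : ∀ v, v ∈ A ∪ B → v ≠ t → v ∈ G.nb b ∧ v ∈ G.nb a := by
        intro v hv hvt
        have hva : v ∈ G.nb a := by
          rw [← h1, mem_erase] at hv
          exact hv.2
        refine ⟨?_, hva⟩
        by_contra hvb
        have : v ∈ ((A ∪ B) \ (G.nb b).erase a) :=
          mem_sdiff.2 ⟨hv, fun h => hvb (mem_erase.1 h).2⟩
        rw [ht, mem_singleton] at this
        exact hvt this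
      by_cases hxt : x = t
      · subst hxt
        exact Or.inr (Or.inl ⟨a, b, hHL, hcl y hy (Ne.symm hxy)⟩)
      by_cases hyt : y = t
      · subst hyt
        exact Or.inr (Or.inr ⟨a, b, hHL, hcl x hx hxy⟩)
      exact Or.inl ⟨b, h3, (hcl x hx hxt).1, (hcl y hy hyt).1⟩
    rcases (show (G.nb a).card = 7 ∨ (G.nb a).card = 6 by omega) with ha | ha
    · have eA : A = A ∪ B := eq_of_subset_of_card_le sA (by omega)
      rcases (show (G.nb b).card = 7 ∨ (G.nb b).card = 6 by omega) with hb | hb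
      · have eB : B = A ∪ B := eq_of_subset_of_card_le sB (by omega)
        rw [← eA] at hx hy
        have hx' := hx
        have hy' := hy
        rw [eA, ← eB] at hx' hy'
        rw [hmA] at hx hy
        rw [hmB] at hx' hy'
        exact Or.inr (Or.inl ⟨a, b, ⟨hab, ha, hb, hadj, eA.trans eB.symm⟩, hx.2, hy.2, hx'.2,
          hy'.2⟩)
      · rcases key a b hadj eA ha hb sB with h | h | h
        · exact Or.inl h
        · exact Or.inr (Or.inr (Or.inl h))
        · exact Or.inr (Or.inr (Or.inr (Or.inl h)))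
    · rcases (show (G.nb b).card = 7 ∨ (G.nb b).card = 6 by omega) with hb | hb
      · have eB : B = A ∪ B := eq_of_subset_of_card_le sB (by omega)
        rcases key b a hadj' eB hb ha sA with h | h | h
        · exact Or.inl h
        · exact Or.inr (Or.inr (Or.inl h))
        · exact Or.inr (Or.inr (Or.inr (Or.inl h)))
      · -- both low
        have hA7 : ((A ∪ B) \ A).card = 1 := by
          have := card_sdiff_add_card_eq_card sA
          omega
        have hB7 : ((A ∪ B) \ B).card = 1 := by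
          have := card_sdiff_add_card_eq_card sB
          omega
        obtain ⟨s, hs⟩ := card_eq_one.1 hA7
        obtain ⟨t, ht⟩ := card_eq_one.1 hB7
        have hs1 : s ∈ A ∪ B ∧ s ∉ A := by rw [← mem_sdiff, hs]; exact mem_singleton_self s
        have ht1 : t ∈ A ∪ B ∧ t ∉ B := by rw [← mem_sdiff, ht]; exact mem_singleton_self t
        have hsB : s ∈ B := (mem_union.1 hs1.1).resolve_left hs1.2
        have htA : t ∈ A := (mem_union.1 ht1.1).resolve_right ht1.2
        have hinA : ∀ v, v ∈ A ∪ B → v ≠ s → v ∈ A := by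
          intro v hv hvs
          by_contra h
          have : v ∈ (A ∪ B) \ A := mem_sdiff.2 ⟨hv, h⟩
          rw [hs, mem_singleton] at this
          exact hvs this
        have hinB : ∀ v, v ∈ A ∪ B → v ≠ t → v ∈ B := by
          intro v hv hvs
          by_contra h
          have : v ∈ (A ∪ B) \ B := mem_sdiff.2 ⟨hv, h⟩
          rw [ht, mem_singleton] at this
          exact hvs this
        have hst : s ≠ t := fun h => hs1.2 (h ▸ htA)
        have hsa : s ≠ a := ((hmB s).1 hsB).1
        have htb : t ≠ b := ((hmA t).1 htA).1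
        have hsna : s ∉ G.nb a := fun h => hs1.2 ((hmA s).2 ⟨nb_ne36 ((hmB s).1 hsB).2, h⟩)
        have htnb : t ∉ G.nb b := fun h => ht1.2 ((hmB t).2 ⟨nb_ne36 ((hmA t).1 htA).2, h⟩)
        have hLL : G.LL a b t s := by
          refine ⟨ha, hb, hadj, ((hmA t).1 htA).2, htnb, htb, ((hmB s).1 hsB).2, hsna, hsa, ?_⟩
          change A.erase t = B.erase s
          apply Subset.antisymm
          · intro v hv
            have h1 := ne_of_mem_erase hv
            have h2 := mem_of_mem_erase hv
            exact mem_erase_of_ne_of_mem (fun h => hs1.2 (h ▸ h2)) (hinB v (mem_union_left _ h2) h1)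
          · intro v hv
            have h1 := ne_of_mem_erase hv
            have h2 := mem_of_mem_erase hv
            exact mem_erase_of_ne_of_mem (fun h => ht1.2 (h ▸ h2)) (hinA v (mem_union_right _ h2) h1)
        have hLL' : G.LL b a s t := by
          obtain ⟨z1, z2, z3, z4, z5, z6, z7, z8, z9, z10⟩ := hLL
          exact ⟨z2, z1, hadj', z7, z8, z9, z4, z5, z6, z10.symm⟩
        by_cases hxs : x = s
        · by_cases hyt : y = t
          · rw [hxs, hyt]
            exact Or.inr (Or.inr (Or.inr (Or.inr ⟨b, a, hLL'⟩)))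
          · refine Or.inl ⟨b, hb, ?_, ((hmB y).1 (hinB y hy hyt)).2⟩
            rw [hxs]
            exact ((hmB s).1 hsB).2
        · have hxA := (hmA x).1 (hinA x hx hxs)
          by_cases hys : y = s
          · by_cases hxt : x = t
            · rw [hxt, hys]
              exact Or.inr (Or.inr (Or.inr (Or.inr ⟨a, b, hLL⟩)))
            · refine Or.inl ⟨b, hb, ((hmB x).1 (hinB x hx hxt)).2, ?_⟩
              rw [hys]
              exact ((hmB s).1 hsB).2
          · exact Or.inl ⟨a, ha, hxA.2, ((hmA y).1 (hinA y hy hys)).2⟩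

end CG

end Pool.Agent.Lib.MP_e95c01_co.N
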