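import Pool.Agent.Lib.MP_e95c01_co.N4.Cls76

/-!
# Domination at twin pairs and small consequences of 6-connectivity
-/

namespace Pool.Agent.Lib.MP_e95c01_co.N

open Finset

variable {V : Type} [Fintype V] [DecidableEq V]

namespace CG

theorem no5_76 {G : CG V} {Z T : Finset V} (hZ : Z.Nonempty) (hd : Disjoint Z T)
    (hN : ∀ u ∈ Z, G.nb u ⊆ Z ∪ T) (hT : T.card ≤ 5) (hV : Z.card + T.card < Fintype.card V) :
    False := by
  have h1 : ∃ v, v ∉ Z ∪ T := by
    by_contra hcon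
    push Not at hcon
    have h2 : (univ : Finset V) ⊆ Z ∪ T := fun v _ => hcon v
    have h3 := (card_le_card h2).trans (card_union_le _ _)
    rw [card_univ] at h3
    omega
  have h2 := G.conn Z T hZ hd hN h1
  omega

/-- the mate of a twin vertex is unique -/
theorem mate76 {G : CG V} (h9 : 9 ≤ Fintype.card V) {u v w : V} (h : G.Tw76 u v)
    (h' : G.Tw76 u w) : v = w := by
  by_contra hvw
  have h1 : ({u, v, w} : Finset V).card ≤ 3 := card_le_three
  have h2 : (((G.nb u).erase v).erase w).card = 5 := by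
    rw [card_erase_of_mem, card_erase_of_mem h.adj, h.deg]
    exact mem_erase.2 ⟨fun h => hvw h.symm, h'.adj⟩
  refine no5_76 (G := G) (Z := {u, v, w}) (T := ((G.nb u).erase v).erase w)
    (insert_nonempty _ _) ?_ ?_ h2.le (by omega)
  · rw [disjoint_left]
    intro x hx hx'
    rw [mem_erase, mem_erase] at hx'
    rw [mem_insert, mem_insert, mem_singleton] at hx
    rcases hx with h3 | h3 | h3
    · rw [h3] at hx'
      exact G.irr _ hx'.2.2
    · exact hx'.2.1 h3
    · exact hx'.1 h3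
  · intro x hx y hy
    rw [mem_union, mem_erase, mem_erase, mem_insert, mem_insert, mem_singleton]
    have h4 : y ≠ u → y ∈ G.nb u := by
      intro hyu
      rw [mem_insert, mem_insert, mem_singleton] at hx
      rcases hx with h3 | h3 | h3
      · rw [← h3]; exact hy
      · rw [h3] at hy
        exact (h.iff hyu (nb_ne76 hy)).2 hy
      · rw [h3] at hy
        exact (h'.iff hyu (nb_ne76 hy)).2 hy
    by_cases hyu : y = u
    · exact Or.inl (Or.inl hyu)
    by_cases hyv : y = v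
    · exact Or.inl (Or.inr (Or.inl hyv))
    by_cases hyw : y = w
    · exact Or.inl (Or.inr (Or.inr hyw))
    exact Or.inr ⟨hyw, hyv, h4 hyu⟩

/-- the degree-7 vertex of a mixed fragment is not a twin -/
theorem hl_tw76 {G : CG V} (h9 : 9 ≤ Fintype.card V) {a b t u : V} (h : G.HL76 a b t)
    (hb : G.Low b) (h' : G.Tw76 a u) : False := by
  have hba : b ∈ G.nb a := G.sym _ _ h.ab
  have hub : u ≠ b := (h'.ne_low' hb).symm
  have h2 : (((G.nb a).erase b).erase u).card = 5 := by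
    rw [card_erase_of_mem, card_erase_of_mem hba, h'.deg]
    exact mem_erase.2 ⟨hub, h'.adj⟩
  have h1 : ({a, b, u} : Finset V).card ≤ 3 := card_le_three
  refine no5_76 (G := G) (Z := {a, b, u}) (T := ((G.nb a).erase b).erase u)
    (insert_nonempty _ _) ?_ ?_ h2.le (by omega)
  · rw [disjoint_left]
    intro x hx hx'
    rw [mem_erase, mem_erase] at hx'
    rw [mem_insert, mem_insert, mem_singleton] at hx
    rcases hx with h3 | h3 | h3
    · rw [h3] at hx'
      exact G.irr _ hx'.2.2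
    · exact hx'.2.1 h3
    · exact hx'.1 h3
  · intro x hx y hy
    rw [mem_union, mem_erase, mem_erase, mem_insert, mem_insert, mem_singleton]
    have h4 : y ≠ a → y ∈ G.nb a := by
      intro hya
      rw [mem_insert, mem_insert, mem_singleton] at hx
      rcases hx with h3 | h3 | h3
      · rw [← h3]; exact hy
      · rw [h3] at hy
        rw [h.eq, mem_insert, mem_insert, mem_erase]
        exact Or.inr (Or.inr ⟨hya, hy⟩)
      · rw [h3] at hy
        exact (h'.iff hya (nb_ne76 hy)).2 hy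
    by_cases hya : y = a
    · exact Or.inl (Or.inl hya)
    by_cases hyb : y = b
    · exact Or.inl (Or.inr (Or.inl hyb))
    by_cases hyu : y = u
    · exact Or.inl (Or.inr (Or.inr hyu))
    exact Or.inr ⟨hyu, hyb, h4 hya⟩

/-- `N[a] = N[b] + t`, read from `a` -/
theorem HL76.mem_b {G : CG V} {a b t x : V} (h : G.HL76 a b t) (hx : x ∈ G.nb a) (hxb : x ≠ b)
    (hxt : x ≠ t) : x ∈ G.nb b := by
  rw [h.eq, mem_insert, mem_insert, mem_erase] at hx
  rcases hx with h1 | h1 | h1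
  · exact absurd h1 hxt
  · exact absurd h1 hxb
  · exact h1.2

theorem HL76.mem_a {G : CG V} {a b t x : V} (h : G.HL76 a b t) (hx : x ∈ G.nb b) (hxa : x ≠ a) :
    x ∈ G.nb a := by
  rw [h.eq, mem_insert, mem_insert, mem_erase]
  exact Or.inr (Or.inr ⟨hxa, hx⟩)

theorem HL76.ta {G : CG V} {a b t : V} (h : G.HL76 a b t) : t ∈ G.nb a := by
  rw [h.eq]
  exact mem_insert_self _ _

/-- a twin vertex is never a private neighbour in a fragment of two adjacent lows -/
theorem ll_tw76 {G : CG V} {b b' u v : V} (hb : G.Low b) (hb' : G.Low b')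
    (hub : u ∈ G.nb b) (hub' : u ∉ G.nb b')
    (hall : ∀ z ∈ G.nb b, z ≠ b' → z ≠ u → z ∈ G.nb b') (h : G.Tw76 u v) : False := by
  have h1 : v ∈ G.nb b := by
    have h2 : b ∈ G.nb u := G.sym _ _ hub
    exact G.sym _ _ ((h.iff (h.ne_low hb) (h.ne_low' hb)).1 h2)
  have h2 : v ∈ G.nb b' := hall v h1 (h.ne_low' hb').symm h.ne.symm
  exact hub' (G.sym _ _ ((h.iff (h.ne_low hb') (h.ne_low' hb')).2 (G.sym _ _ h2)))

/-- covers of the edges at a vertex that is not low -/
theorem clsx76 {G : CG V} (hs : G.Sat76) {x z : V} (hx : ¬ G.Low x) (hc : G.SCov x z) :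
    (∃ w, G.Low w ∧ x ∈ G.nb w ∧ z ∈ G.nb w) ∨
    (∃ u v, G.Tw76 u v ∧ x ∈ G.nb u ∧ z ∈ G.nb u ∧ x ≠ v ∧ z ≠ v) ∨
    (∃ a b, G.HL76 a b z ∧ G.Low b ∧ G.Low z ∧ x ∈ G.nb a ∧ x ∈ G.nb b) ∨
    (∃ b b', G.Low b ∧ G.Low b' ∧ b' ∈ G.nb b ∧ x ∈ G.nb b ∧ z ∈ G.nb b' ∧ x ∉ G.nb b' ∧
      z ∉ G.nb b ∧ z ≠ b ∧ (∀ y ∈ G.nb b, y ≠ b' → y ≠ x → y ∈ G.nb b') ∧
      (∀ y ∈ G.nb b', y ≠ b → y ≠ z → y ∈ G.nb b)) := by
  rcases cls76 hc with h | h | h | h
  · exact Or.inl h
  · exact Or.inr (Or.inl h)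
  · obtain ⟨a, b, t, h1, h2, h3, h4, h5, h6, h7⟩ := h
    have h8 := hs a b t h1 h2
    have hxt : x ≠ t := by
      rintro rfl
      exact hx h8
    rcases h7 with h7 | h7
    · exact absurd h7 hxt
    · subst h7
      exact Or.inr (Or.inr (Or.inl ⟨a, b, h1, h2, h8, h3, h1.mem_b h3 h5 hxt⟩))
  · obtain ⟨b, b', h1, h2, h3, h4, h5, h6, h7, h8, h9, h10, h11⟩ := h
    exact Or.inr (Or.inr (Or.inr ⟨b, b', h1, h2, h3, h4, h5, h6, h7, h9, h10, h11⟩))

/-- covers of the edges at a twin vertex `u` -/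
theorem dom76 {G : CG V} (h9 : 9 ≤ Fintype.card V) (hs : G.Sat76) {u v s : V}
    (h : G.Tw76 u v) (hsv : s ≠ v) (hc : G.SCov u s) :
    (∃ w, G.Low w ∧ w ∈ G.nb u ∧ s ∈ G.nb w) ∨
    (∃ w w', G.Tw76 w w' ∧ w ∈ G.nb u ∧ w' ∈ G.nb u ∧ w ≠ v ∧ w' ≠ v ∧ s ∈ G.nb w ∧ s ≠ w') ∨
    (G.Low s ∧ ∃ a b, a ∈ G.nb u ∧ b ∈ G.nb u ∧ a ≠ v ∧ ¬ G.Low a ∧ G.Low b ∧
      G.HL76 a b s) := by
  rcases clsx76 hs h.not_low hc with h1 | h1 | h1 | h1
  · obtain ⟨w, h2, h3, h4⟩ := h1
    exact Or.inl ⟨w, h2, G.sym _ _ h3, h4⟩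
  · obtain ⟨w, w', h2, h3, h4, h5, h6⟩ := h1
    have hwu : w ∈ G.nb u := G.sym _ _ h3
    have h7 : u ∈ G.nb w' := (h2.iff (nb_ne76 h3) h5).1 h3
    have hwu' : w' ∈ G.nb u := G.sym _ _ h7
    refine Or.inr (Or.inl ⟨w, w', h2, hwu, hwu', ?_, ?_, h4, h6⟩)
    · rintro rfl
      exact h5 (mate76 h9 h2 h.symm).symm
    · rintro rfl
      exact nb_ne76 h3 (mate76 h9 h.symm h2.symm)
  · obtain ⟨a, b, h2, h3, h4, h5, h6⟩ := h1
    refine Or.inr (Or.inr ⟨h4, a, b, G.sym _ _ h5, G.sym _ _ h6, ?_, ?_, h3, h2⟩)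
    · rintro rfl
      exact hl_tw76 h9 h2 h3 h.symm
    · intro h7
      have h8 : (G.nb a).card = 6 := h7
      have h9' : (G.nb b).card = 6 := h3
      have h10 : a ∈ G.nb b := h2.ab
      have h11 : s ∉ insert b ((G.nb b).erase a) := by
        rw [mem_insert, mem_erase, not_or]
        exact ⟨h2.tb, fun h => h2.nt h.2⟩
      have h12 : b ∉ (G.nb b).erase a := by
        rw [mem_erase]
        exact fun h => G.irr _ h.2
      rw [h2.eq, card_insert_of_notMem h11, card_insert_of_notMem h12,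
        card_erase_of_mem h10] at h8
      omega
  · obtain ⟨b, b', h2, h3, h4, h5, h6, h7, h8, h9', h10, h11⟩ := h1
    exact absurd h (fun h => ll_tw76 h2 h3 h5 h7 h10 h)

theorem c3_76 {G : CG V} (h9 : 9 ≤ Fintype.card V) {u v w : V} (h : G.Tw76 u v) (hw : G.Low w)
    (hwu : w ∈ G.nb u) : ((G.nb w ∩ G.nb u).erase v).card ≤ 3 := by
  by_contra hcon
  push Not at hcon
  have hwv : w ≠ v := h.ne_low' hw
  have hwne : w ≠ u := h.ne_low hw
  have huw : u ∈ G.nb w := G.sym _ _ hwu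
  have hvw : v ∈ G.nb w := G.sym _ _ ((h.iff hwne hwv).1 hwu)
  have h1 : (((G.nb u).erase v).erase w).card = 5 := by
    rw [card_erase_of_mem (mem_erase.2 ⟨hwv, hwu⟩), card_erase_of_mem h.adj, h.deg]
  have h2 : insert u (insert v ((G.nb w ∩ G.nb u).erase v)) ⊆
      G.nb w ∩ insert u (G.nb u) := by
    intro x hx
    rw [mem_inter, mem_insert]
    rw [mem_insert, mem_insert, mem_erase, mem_inter] at hx
    rcases hx with h3 | h3 | h3
    · rw [h3]; exact ⟨huw, Or.inl rfl⟩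
    · rw [h3]; exact ⟨hvw, Or.inr h.adj⟩
    · exact ⟨h3.2.1, Or.inr h3.2.2⟩
  have h3 := card_le_card h2
  rw [card_insert_of_notMem, card_insert_of_notMem] at h3
  rotate_left
  · rw [mem_erase]
    exact fun h => h.1 rfl
  · rw [mem_insert, mem_erase, mem_inter]
    rintro (h4 | h4)
    · exact h.ne h4
    · exact G.irr _ h4.2.2
  have h4 := card_sdiff_add_card_inter (G.nb w) (insert u (G.nb u))
  have hw6 : (G.nb w).card = 6 := hw
  have h5 : (((G.nb u).erase v).erase w ∪ (G.nb w \ insert u (G.nb u))).card ≤ 5 :=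
    (card_union_le _ _).trans (by omega)
  have h6 : ({u, v, w} : Finset V).card ≤ 3 := card_le_three
  refine no5_76 (G := G) (Z := {u, v, w})
    (T := ((G.nb u).erase v).erase w ∪ (G.nb w \ insert u (G.nb u)))
    (insert_nonempty _ _) ?_ ?_ h5 (by omega)
  · rw [disjoint_left]
    intro x hx hx'
    rw [mem_union, mem_erase, mem_erase, mem_sdiff, mem_insert, not_or] at hx'
    rw [mem_insert, mem_insert, mem_singleton] at hx
    rcases hx with h7 | h7 | h7
    · rcases hx' with h8 | h8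
      · rw [h7] at h8
        exact G.irr _ h8.2.2
      · exact h8.2.1 h7
    · rcases hx' with h8 | h8
      · exact h8.2.1 h7
      · rw [h7] at h8
        exact h8.2.2 h.adj
    · rcases hx' with h8 | h8
      · exact h8.1 h7
      · rw [h7] at h8
        exact h8.2.2 hwu
  · intro x hx y hy
    rw [mem_union, mem_union, mem_erase, mem_erase, mem_sdiff, mem_insert, mem_insert,
      mem_insert, mem_singleton]
    by_cases hyu : y = u
    · exact Or.inl (Or.inl hyu)
    by_cases hyv : y = v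
    · exact Or.inl (Or.inr (Or.inl hyv))
    by_cases hyw : y = w
    · exact Or.inl (Or.inr (Or.inr hyw))
    right
    rw [mem_insert, mem_insert, mem_singleton] at hx
    rcases hx with h7 | h7 | h7
    · rw [h7] at hy
      exact Or.inl ⟨hyw, hyv, hy⟩
    · rw [h7] at hy
      exact Or.inl ⟨hyw, hyv, (h.iff hyu hyv).2 hy⟩
    · rw [h7] at hy
      by_cases h8 : y ∈ G.nb u
      · exact Or.inl ⟨hyw, hyv, h8⟩
      · exact Or.inr ⟨hy, by rw [not_or]; exact ⟨hyu, h8⟩⟩

theorem c2_76 {G : CG V} (h10 : 10 ≤ Fintype.card V) {u v w w' : V} (h : G.Tw76 u v)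
    (h' : G.Tw76 w w') (hwu : w ∈ G.nb u) (hwv : w ≠ v) :
    (((G.nb w ∩ G.nb u).erase v).erase w').card ≤ 2 := by
  by_contra hcon
  push Not at hcon
  have hwne : w ≠ u := nb_ne76 hwu
  have huw : u ∈ G.nb w := G.sym _ _ hwu
  have hvw : v ∈ G.nb w := G.sym _ _ ((h.iff hwne hwv).1 hwu)
  have hwu' : w' ≠ u := by
    rintro rfl
    exact hwv (mate76 (by omega) h h'.symm).symm
  have hwv' : w' ≠ v := by
    rintro rfl
    exact hwne (mate76 (by omega) h.symm h'.symm).symm
  have hu' : w' ∈ G.nb u := G.sym _ _ ((h'.iff hwne.symm hwu'.symm).1 huw)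
  have h1 : ((((G.nb u).erase v).erase w).erase w').card = 4 := by
    rw [card_erase_of_mem (mem_erase.2 ⟨h'.ne.symm, mem_erase.2 ⟨hwv', hu'⟩⟩),
      card_erase_of_mem (mem_erase.2 ⟨hwv, hwu⟩), card_erase_of_mem h.adj, h.deg]
  have h2 : insert u (insert v (insert w' (((G.nb w ∩ G.nb u).erase v).erase w'))) ⊆
      G.nb w ∩ insert u (G.nb u) := by
    intro x hx
    rw [mem_inter, mem_insert]
    rw [mem_insert, mem_insert, mem_insert, mem_erase, mem_erase, mem_inter] at hx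
    rcases hx with h3 | h3 | h3 | h3
    · rw [h3]; exact ⟨huw, Or.inl rfl⟩
    · rw [h3]; exact ⟨hvw, Or.inr h.adj⟩
    · rw [h3]; exact ⟨h'.adj, Or.inr hu'⟩
    · exact ⟨h3.2.2.1, Or.inr h3.2.2.2⟩
  have h3 := card_le_card h2
  rw [card_insert_of_notMem, card_insert_of_notMem, card_insert_of_notMem] at h3
  rotate_left
  · rw [mem_erase]
    exact fun h => h.1 rfl
  · rw [mem_insert, mem_erase, mem_erase]
    rintro (h4 | h4)
    · exact hwv' h4.symm
    · exact h4.2.1 rfl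
  · rw [mem_insert, mem_insert, mem_erase, mem_erase, mem_inter]
    rintro (h4 | h4 | h4)
    · exact h.ne h4
    · exact hwu' h4.symm
    · exact G.irr _ h4.2.2.2
  have h4 := card_sdiff_add_card_inter (G.nb w) (insert u (G.nb u))
  have hw7 : (G.nb w).card = 7 := h'.deg
  have h5 : ((((G.nb u).erase v).erase w).erase w' ∪ (G.nb w \ insert u (G.nb u))).card ≤ 5 :=
    (card_union_le _ _).trans (by omega)
  have h6 : ({u, v, w, w'} : Finset V).card ≤ 4 := card_le_four
  refine no5_76 (G := G) (Z := {u, v, w, w'})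
    (T := (((G.nb u).erase v).erase w).erase w' ∪ (G.nb w \ insert u (G.nb u)))
    (insert_nonempty _ _) ?_ ?_ h5 (by omega)
  · rw [disjoint_left]
    intro x hx hx'
    rw [mem_union, mem_erase, mem_erase, mem_erase, mem_sdiff, mem_insert, not_or] at hx'
    rw [mem_insert, mem_insert, mem_insert, mem_singleton] at hx
    rcases hx with h7 | h7 | h7 | h7
    · rcases hx' with h8 | h8
      · rw [h7] at h8
        exact G.irr _ h8.2.2.2
      · exact h8.2.1 h7
    · rcases hx' with h8 | h8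
      · exact h8.2.2.1 h7
      · rw [h7] at h8
        exact h8.2.2 h.adj
    · rcases hx' with h8 | h8
      · exact h8.2.1 h7
      · rw [h7] at h8
        exact h8.2.2 hwu
    · rcases hx' with h8 | h8
      · exact h8.1 h7
      · rw [h7] at h8
        exact h8.2.2 hu'
  · intro x hx y hy
    rw [mem_union, mem_union, mem_erase, mem_erase, mem_erase, mem_sdiff, mem_insert,
      mem_insert, mem_insert, mem_insert, mem_singleton]
    by_cases hyu : y = u
    · exact Or.inl (Or.inl hyu)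
    by_cases hyv : y = v
    · exact Or.inl (Or.inr (Or.inl hyv))
    by_cases hyw : y = w
    · exact Or.inl (Or.inr (Or.inr (Or.inl hyw)))
    by_cases hyw' : y = w'
    · exact Or.inl (Or.inr (Or.inr (Or.inr hyw')))
    right
    rw [mem_insert, mem_insert, mem_insert, mem_singleton] at hx
    have hw : y ∈ G.nb w → y ≠ w' ∧ y ≠ w ∧ y ≠ v ∧ y ∈ G.nb u ∨
        y ∈ G.nb w ∧ ¬ (y = u ∨ y ∈ G.nb u) := by
      intro hy
      by_cases h8 : y ∈ G.nb u
      · exact Or.inl ⟨hyw', hyw, hyv, h8⟩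
      · exact Or.inr ⟨hy, by rw [not_or]; exact ⟨hyu, h8⟩⟩
    rcases hx with h7 | h7 | h7 | h7
    · rw [h7] at hy
      exact Or.inl ⟨hyw', hyw, hyv, hy⟩
    · rw [h7] at hy
      exact Or.inl ⟨hyw', hyw, hyv, (h.iff hyu hyv).2 hy⟩
    · rw [h7] at hy
      exact hw hy
    · rw [h7] at hy
      exact hw ((h'.iff hyw hyw').2 hy)

end CG

end Pool.Agent.Lib.MP_e95c01_co.N
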