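import Pool.Agent.Lib.MP_e95c01_co.N4.Cov36
import Pool.Agent.Lib.MP_e95c01_co.N.Basic37

/-!
# Saturation: adding the edge `b t` of an HL triple
-/

namespace Pool.Agent.Lib.MP_e95c01_co.N

open Finset

variable {V : Type} [Fintype V] [DecidableEq V]

namespace CG

variable {G : CG V}

theorem mCo36 {S : Finset V} {v : V} : v ∈ G.Co S ↔ v ∉ S ∧ v ∉ G.N S := mem_Co37

/-- a vertex of `N E` has a neighbour in `E` and in `Co E` -/
theorem nbr_E36 {E : Finset V} {v : V} (hv : v ∈ G.N E) : ∃ u ∈ E, u ∈ G.nb v := by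
  obtain ⟨-, u, hu, h⟩ := mN36.1 hv
  exact ⟨u, hu, G.sym _ _ h⟩

theorem nbr_Co36 {E : Finset V} (hE : G.Frag E) {v : V} (hv : v ∈ G.N E) :
    ∃ u ∈ G.Co E, u ∈ G.nb v := by
  rw [← (G.stCo_37 E hE).2.1] at hv
  exact nbr_E36 hv

/-- no edge between `E` and `Co E` -/
theorem no_edge36 {E : Finset V} {u v : V} (hu : u ∈ E) (hv : v ∈ G.Co E) : v ∉ G.nb u := by
  intro h
  have h1 := (mCo36.1 hv)
  exact h1.2 (mN36.2 ⟨h1.1, u, hu, h⟩)

theorem no_edge36' {E : Finset V} {u v : V} (hu : u ∈ E) (hv : v ∈ G.Co E) : u ∉ G.nb v :=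
  fun h => no_edge36 hu hv (G.sym _ _ h)

theorem notE36 {E : Finset V} {v : V} (hv : v ∈ G.N E) : v ∉ E := (mN36.1 hv).1

theorem notCo36 {E : Finset V} {v : V} (hv : v ∈ G.N E) : v ∉ G.Co E :=
  fun h => (mCo36.1 h).2 hv

theorem cases36 (E : Finset V) (v : V) : v ∈ E ∨ v ∈ G.N E ∨ v ∈ G.Co E := by
  by_cases h : v ∈ E
  · exact Or.inl h
  by_cases h1 : v ∈ G.N E
  · exact Or.inr (Or.inl h1)
  · exact Or.inr (Or.inr (mCo36.2 ⟨h, h1⟩))

theorem HL_mem {a b t : V} (h : G.HL a b t) (v : V) :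
    v ∈ G.nb a ↔ v = t ∨ v = b ∨ (v ≠ a ∧ v ∈ G.nb b) := by
  rw [h.2.2.2.2, mem_insert, mem_insert, mem_erase]

theorem HL_ta {a b t : V} (h : G.HL a b t) : t ≠ a := by
  rintro rfl
  exact h.2.2.2.1 h.2.1

/-- `b` in `N E` implies `a` in `N E` -/
theorem HL_ba36 {a b t : V} (h : G.HL a b t) {E : Finset V} (hE : G.Frag E) (hb : b ∈ G.N E) :
    a ∈ G.N E := by
  rcases cases36 (G := G) E a with ha | ha | ha
  · exfalso
    obtain ⟨v, hv, hvb⟩ := nbr_Co36 hE hb
    have hva : v ≠ a := by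
      rintro rfl
      exact (mCo36.1 hv).1 ha
    exact no_edge36 ha hv ((HL_mem h v).2 (Or.inr (Or.inr ⟨hva, hvb⟩)))
  · exact ha
  · exfalso
    obtain ⟨v, hv, hvb⟩ := nbr_E36 hb
    have hva : v ≠ a := by
      rintro rfl
      exact (mCo36.1 ha).1 hv
    exact no_edge36' hv ha ((HL_mem h v).2 (Or.inr (Or.inr ⟨hva, hvb⟩)))

/-- `a` and `t` in `N E` imply `b` in `N E` -/
theorem HL_atb36 {a b t : V} (h : G.HL a b t) {E : Finset V} (hE : G.Frag E) (ha : a ∈ G.N E)
    (ht : t ∈ G.N E) : b ∈ G.N E := by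
  rcases cases36 (G := G) E b with hb | hb | hb
  · exfalso
    obtain ⟨v, hv, hva⟩ := nbr_Co36 hE ha
    rcases (HL_mem h v).1 hva with rfl | rfl | ⟨-, h1⟩
    · exact notCo36 ht hv
    · exact (mCo36.1 hv).1 hb
    · exact no_edge36 hb hv h1
  · exact hb
  · exfalso
    obtain ⟨v, hv, hva⟩ := nbr_E36 ha
    rcases (HL_mem h v).1 hva with rfl | rfl | ⟨-, h1⟩
    · exact notE36 ht hv
    · exact (mCo36.1 hb).1 hv
    · exact no_edge36' hv hb h1

/-- the graph with the new edge -/
def addE (G : CG V) (b t : V) (hbt : t ≠ b) : CG V where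
  nb v := if v = b then insert t (G.nb b) else if v = t then insert b (G.nb t) else G.nb v
  irr v := by
    by_cases h1 : v = b
    · subst h1
      rw [if_pos rfl, mem_insert, not_or]
      exact ⟨fun h => hbt h.symm, G.irr v⟩
    · rw [if_neg h1]
      by_cases h2 : v = t
      · subst h2
        rw [if_pos rfl, mem_insert, not_or]
        exact ⟨h1, G.irr v⟩
      · rw [if_neg h2]
        exact G.irr v
  sym u v h := by
    by_cases h1 : u = b
    · subst h1
      rw [if_pos rfl, mem_insert] at h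
      rcases h with h | h
      · subst h
        rw [if_neg hbt, if_pos rfl]
        exact mem_insert_self _ _
      · have hv : v ≠ u := nb_ne36 h
        rw [if_neg hv]
        split_ifs with h3
        · exact mem_insert_self _ _
        · exact G.sym _ _ h
    · rw [if_neg h1] at h
      by_cases h2 : u = t
      · subst h2
        rw [if_pos rfl, mem_insert] at h
        rcases h with h | h
        · subst h
          rw [if_pos rfl]
          exact mem_insert_self _ _
        · have hv : v ≠ u := nb_ne36 h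
          split_ifs with h3
          · exact mem_insert_self _ _
          · exact G.sym _ _ h
      · rw [if_neg h2] at h
        have := G.sym _ _ h
        split_ifs with h3 h4
        · subst h3
          exact mem_insert_of_mem this
        · subst h4
          exact mem_insert_of_mem this
        · exact this
  deg v := by
    split_ifs with h1 h2
    · subst h1
      exact (G.deg v).trans (card_le_card (subset_insert _ _))
    · subst h2
      exact (G.deg v).trans (card_le_card (subset_insert _ _))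
    · exact G.deg v
  conn S T hS hd h hv := by
    refine G.conn S T hS hd ?_ hv
    intro u hu
    refine Subset.trans ?_ (h u hu)
    split_ifs with h1 h2
    · subst h1
      exact subset_insert _ _
    · subst h2
      exact subset_insert _ _
    · exact Subset.rfl

theorem addE_nb (G : CG V) (b t : V) (hbt : t ≠ b) (u v : V) :
    v ∈ (G.addE b t hbt).nb u ↔ v ∈ G.nb u ∨ (u = b ∧ v = t) ∨ (u = t ∧ v = b) := by
  change v ∈ (if u = b then insert t (G.nb b) else if u = t then insert b (G.nb t) else G.nb u) ↔ _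
  by_cases h1 : u = b
  · subst h1
    rw [if_pos rfl, mem_insert]
    constructor
    · rintro (h | h)
      · exact Or.inr (Or.inl ⟨rfl, h⟩)
      · exact Or.inl h
    · rintro (h | ⟨-, h⟩ | ⟨h, -⟩)
      · exact Or.inr h
      · exact Or.inl h
      · exact absurd h.symm hbt
  · rw [if_neg h1]
    by_cases h2 : u = t
    · subst h2
      rw [if_pos rfl, mem_insert]
      constructor
      · rintro (h | h)
        · exact Or.inr (Or.inr ⟨rfl, h⟩)
        · exact Or.inl h
      · rintro (h | ⟨h, -⟩ | ⟨-, h⟩)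
        · exact Or.inr h
        · exact absurd h h1
        · exact Or.inl h
    · rw [if_neg h2]
      constructor
      · exact fun h => Or.inl h
      · rintro (h | ⟨h, -⟩ | ⟨h, -⟩)
        · exact h
        · exact absurd h h1
        · exact absurd h h2

/-- a fragment which does not separate `b` and `t` stays a fragment -/
theorem addE_frag {b t : V} (hbt : t ≠ b) {E : Finset V} (hE : G.Frag E)
    (h1 : b ∈ E → t ∉ G.Co E) (h2 : t ∈ E → b ∉ G.Co E) :
    (G.addE b t hbt).N E = G.N E ∧ (G.addE b t hbt).Frag E := by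
  have hN : (G.addE b t hbt).N E = G.N E := by
    ext v
    rw [mN36, mN36]
    constructor
    · rintro ⟨hv, u, hu, huv⟩
      refine ⟨hv, ?_⟩
      rw [addE_nb] at huv
      rcases huv with h | ⟨rfl, rfl⟩ | ⟨rfl, rfl⟩
      · exact ⟨u, hu, h⟩
      · have h3 := h1 hu
        rcases cases36 (G := G) E v with h4 | h4 | h4
        · exact absurd h4 hv
        · exact (mN36.1 h4).2
        · exact absurd h4 h3
      · have h3 := h2 hu
        rcases cases36 (G := G) E v with h4 | h4 | h4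
        · exact absurd h4 hv
        · exact (mN36.1 h4).2
        · exact absurd h4 h3
    · rintro ⟨hv, u, hu, huv⟩
      exact ⟨hv, u, hu, (addE_nb G b t hbt u v).2 (Or.inl huv)⟩
  refine ⟨hN, hE.1, by rw [hN]; exact hE.2.1, ?_⟩
  have : (G.addE b t hbt).Co E = G.Co E := by
    unfold Co
    rw [hN]
  rw [this]
  exact hE.2.2

/-- a fragment with `b` inside and `t` on the other side can be replaced -/
theorem addE_sep {a b t : V} (h : G.HL a b t) (ht : ¬ G.Low t) {E : Finset V} (hE : G.Frag E)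
    (hb : b ∈ E) (htE : t ∈ G.Co E) {x y : V} (hx : x ∈ G.N E) (hy : y ∈ G.N E) (hxa : x ≠ a)
    (hya : y ≠ a) :
    ∃ E', (G.addE b t h.2.2.1).Frag E' ∧ x ∈ (G.addE b t h.2.2.1).N E' ∧
      y ∈ (G.addE b t h.2.2.1).N E' := by
  obtain ⟨hC, hCN, hCC⟩ := G.stCo_37 E hE
  have haE : a ∈ G.N E := by
    rcases cases36 (G := G) E a with ha | ha | ha
    · exact absurd ((HL_mem h t).2 (Or.inl rfl)) (no_edge36 ha htE)
    · exact ha
    · exact absurd ((HL_mem h b).2 (Or.inr (Or.inl rfl))) (no_edge36' hb ha)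
  -- the neighbours of a in Co E
  have haC : ∀ v ∈ G.Co E, v ∈ G.nb a → v = t := by
    intro v hv hva
    rcases (HL_mem h v).1 hva with h1 | h1 | ⟨-, h1⟩
    · exact h1
    · subst h1
      exact absurd hb (mCo36.1 hv).1
    · exact absurd h1 (no_edge36 hb hv)
  have hne : ((G.Co E).erase t).Nonempty := by
    rw [nonempty_iff_ne_empty]
    intro hemp
    have h1 : G.Co E = {t} := by
      rw [erase_eq_empty_iff] at hemp
      rcases hemp with h2 | h2
      · rw [h2] at htE
        exact absurd htE (notMem_empty _)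
      · exact h2
    apply ht
    have h2 : G.nb t ⊆ G.N (G.Co E) := by
      intro v hv
      rw [mN36]
      refine ⟨?_, t, htE, hv⟩
      rw [h1, mem_singleton]
      exact nb_ne36 hv
    have h3 := card_le_card h2
    rw [hC.2.1] at h3
    exact le_antisymm h3 (G.deg t)
  set G1 := G.addE b t h.2.2.1 with hG1
  have hsub : G1.N ((G.Co E).erase t) ⊆ insert t ((G.N E).erase a) := by
    intro v hv
    obtain ⟨h1, u, hu, huv⟩ := mN36.1 hv
    rw [mem_erase] at hu
    rw [mem_insert, mem_erase]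
    by_cases hvt : v = t
    · exact Or.inl hvt
    right
    rw [hG1, addE_nb] at huv
    have hub : u ≠ b := by
      rintro rfl
      exact (mCo36.1 hu.2).1 hb
    have huv' : v ∈ G.nb u := by
      rcases huv with h2 | ⟨h2, -⟩ | ⟨h2, -⟩
      · exact h2
      · exact absurd h2 hub
      · exact absurd h2 hu.1
    have hvC : v ∉ G.Co E := fun h2 => h1 (mem_erase.2 ⟨hvt, h2⟩)
    constructor
    · rintro rfl
      exact hu.1 (haC u hu.2 (G.sym _ _ huv'))
    · rw [← hCN, mN36]
      exact ⟨hvC, u, hu.2, huv'⟩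
  have hcard : (insert t ((G.N E).erase a)).card ≤ 6 := by
    have h1 := card_insert_le t ((G.N E).erase a)
    have h2 := card_erase_add_one haE
    have h3 := hE.2.1
    omega
  have hCo : (G1.Co ((G.Co E).erase t)).Nonempty := by
    refine ⟨b, mCo36.2 ⟨?_, ?_⟩⟩
    · intro h1
      exact (mCo36.1 (mem_erase.1 h1).2).1 hb
    · intro h1
      have := hsub h1
      rw [mem_insert, mem_erase] at this
      rcases this with h2 | ⟨-, h2⟩
      · exact h.2.2.1 h2.symm
      · exact notE36 h2 hb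
  have h6 : 6 ≤ (G1.N ((G.Co E).erase t)).card := G1.stN6_37 _ hne hCo
  have heq : G1.N ((G.Co E).erase t) = insert t ((G.N E).erase a) :=
    eq_of_subset_of_card_le hsub (hcard.trans h6)
  have hle := card_le_card hsub
  refine ⟨(G.Co E).erase t, ⟨hne, by omega, hCo⟩, ?_, ?_⟩
  · rw [heq]
    exact mem_insert_of_mem (mem_erase.2 ⟨hxa, hx⟩)
  · rw [heq]
    exact mem_insert_of_mem (mem_erase.2 ⟨hya, hy⟩)

theorem addE_crit {a b t : V} (hc : G.Crit) (h : G.HL a b t) (ht : ¬ G.Low t) :
    (G.addE b t h.2.2.1).Crit := by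
  set G1 := G.addE b t h.2.2.1 with hG1
  -- covers with b in the neighbourhood
  have hgood : ∀ E, G.Frag E → b ∈ G.N E → G1.N E = G.N E ∧ G1.Frag E := by
    intro E hE hb
    exact addE_frag h.2.2.1 hE (fun h1 => absurd h1 (notE36 hb)) (fun _ h1 => notCo36 hb h1)
  have hat : t ∈ G.nb a := (HL_mem h t).2 (Or.inl rfl)
  have hab : b ∈ G.nb a := (HL_mem h b).2 (Or.inr (Or.inl rfl))
  -- edges at a
  have ha : ∀ y, y ∈ G.nb a → ∃ E, G1.Frag E ∧ a ∈ G1.N E ∧ y ∈ G1.N E ∧ b ∈ G1.N E := by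
    intro y hy
    rcases (HL_mem h y).1 hy with rfl | rfl | ⟨-, h1⟩
    · obtain ⟨E, hE, h1, h2⟩ := hc a y hat
      have h3 := HL_atb36 h hE h1 h2
      obtain ⟨h4, h5⟩ := hgood E hE h3
      exact ⟨E, h5, by rwa [h4], by rwa [h4], by rwa [h4]⟩
    · obtain ⟨E, hE, h1, h2⟩ := hc a y hab
      obtain ⟨h4, h5⟩ := hgood E hE h2
      exact ⟨E, h5, by rwa [h4], by rwa [h4], by rwa [h4]⟩
    · obtain ⟨E, hE, h2, h3⟩ := hc b y h1
      obtain ⟨h4, h5⟩ := hgood E hE h2
      exact ⟨E, h5, by rw [h4]; exact HL_ba36 h hE h2, by rwa [h4], by rwa [h4]⟩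
  obtain ⟨E0, hE0, h01, h02, h03⟩ := ha t hat
  intro x y hxy
  rw [hG1, addE_nb] at hxy
  rcases hxy with hxy | ⟨rfl, rfl⟩ | ⟨rfl, rfl⟩
  · by_cases hxa : x = a
    · subst hxa
      obtain ⟨E, h1, h2, h3, -⟩ := ha y hxy
      exact ⟨E, h1, h2, h3⟩
    by_cases hya : y = a
    · subst hya
      obtain ⟨E, h1, h2, h3, -⟩ := ha x (G.sym _ _ hxy)
      exact ⟨E, h1, h3, h2⟩
    obtain ⟨E, hE, h1, h2⟩ := hc x y hxy
    by_cases s1 : b ∈ E ∧ t ∈ G.Co E
    · exact addE_sep h ht hE s1.1 s1.2 h1 h2 hxa hya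
    by_cases s2 : t ∈ E ∧ b ∈ G.Co E
    · obtain ⟨hC, hCN, hCC⟩ := G.stCo_37 E hE
      refine addE_sep h ht hC s2.2 (by rw [hCC]; exact s2.1) ?_ ?_ hxa hya
      · rwa [hCN]
      · rwa [hCN]
    obtain ⟨h3, h4⟩ := addE_frag h.2.2.1 hE (fun g1 g2 => s1 ⟨g1, g2⟩) (fun g1 g2 => s2 ⟨g1, g2⟩)
    exact ⟨E, h4, by rwa [h3], by rwa [h3]⟩
  · exact ⟨E0, hE0, h03, h02⟩
  · exact ⟨E0, hE0, h02, h03⟩

theorem addE_le (G : CG V) (b t : V) (hbt : t ≠ b) (v : V) :
    G.nb v ⊆ (G.addE b t hbt).nb v := fun u hu => (addE_nb G b t hbt v u).2 (Or.inl hu)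

theorem addE_low {a b t : V} (h : G.HL a b t) :
    (G.addE b t h.2.2.1).l univ < G.l univ := by
  unfold l
  apply card_lt_card
  rw [ssubset_iff_of_subset]
  · refine ⟨b, mem_filter.2 ⟨mem_univ _, h.1⟩, ?_⟩
    intro h1
    have h2 : ((G.addE b t h.2.2.1).nb b).card = 6 := (mem_filter.1 h1).2
    have h3 : insert t (G.nb b) ⊆ (G.addE b t h.2.2.1).nb b := by
      intro v hv
      rw [addE_nb]
      rcases mem_insert.1 hv with h4 | h4
      · exact Or.inr (Or.inl ⟨rfl, h4⟩)
      · exact Or.inl h4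
    have h4 := card_le_card h3
    rw [card_insert_of_notMem h.2.2.2.1, h2] at h4
    have : (G.nb b).card = 6 := h.1
    omega
  · intro v hv
    have h2 : ((G.addE b t h.2.2.1).nb v).card = 6 := (mem_filter.1 hv).2
    refine mem_filter.2 ⟨mem_univ _, ?_⟩
    have h3 := card_le_card (addE_le G b t h.2.2.1 v)
    have h4 := G.deg v
    change (G.nb v).card = 6
    omega

/-- the number of edges, doubled -/
def mu36 (G : CG V) : ℕ := ∑ v, (G.nb v).card

theorem addE_mu {a b t : V} (h : G.HL a b t) : G.mu36 < (G.addE b t h.2.2.1).mu36 := by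
  unfold mu36
  apply sum_lt_sum
  · intro v _
    exact card_le_card (addE_le G b t h.2.2.1 v)
  · refine ⟨b, mem_univ _, ?_⟩
    apply card_lt_card
    rw [ssubset_iff_of_subset (addE_le G b t h.2.2.1 b)]
    exact ⟨t, (addE_nb G b t h.2.2.1 b t).2 (Or.inr (Or.inl ⟨rfl, rfl⟩)), h.2.2.2.1⟩

theorem mu_le36 (G : CG V) : G.mu36 ≤ Fintype.card V * Fintype.card V := by
  unfold mu36
  calc ∑ v, (G.nb v).card ≤ ∑ _v : V, Fintype.card V := sum_le_sum (fun v _ => card_le_univ _)
    _ = Fintype.card V * Fintype.card V := by simp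

/-- every HL pair has a low third vertex -/
def HLlow (G : CG V) : Prop := ∀ a b t, G.HL a b t → G.Low t

/-- a counterexample with a maximal number of edges -/
theorem exSat_36 (c : ℕ) (h : ∃ G : CG V, G.Crit ∧ c * G.l univ < Fintype.card V) :
    ∃ G : CG V, G.Crit ∧ c * G.l univ < Fintype.card V ∧ G.HLlow := by
  classical
  have key : ∀ k : ℕ, ∀ G : CG V, G.Crit → c * G.l univ < Fintype.card V →
      Fintype.card V * Fintype.card V ≤ G.mu36 + k →
      ∃ G : CG V, G.Crit ∧ c * G.l univ < Fintype.card V ∧ G.HLlow := by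
    intro k
    induction k with
    | zero =>
      intro G h1 h2 h3
      refine ⟨G, h1, h2, ?_⟩
      intro a b t hHL
      by_contra ht
      have h4 := addE_mu hHL
      have h5 := mu_le36 (G.addE b t hHL.2.2.1)
      omega
    | succ k ih =>
      intro G h1 h2 h3
      by_cases hs : G.HLlow
      · exact ⟨G, h1, h2, hs⟩
      unfold HLlow at hs
      push Not at hs
      obtain ⟨a, b, t, hHL, ht⟩ := hs
      refine ih (G.addE b t hHL.2.2.1) (addE_crit h1 hHL ht) ?_ ?_
      · refine lt_of_le_of_lt (Nat.mul_le_mul_left c (addE_low hHL).le) h2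
      · have := addE_mu hHL
        omega
  obtain ⟨G, h1, h2⟩ := h
  exact key (Fintype.card V * Fintype.card V) G h1 h2 (by omega)

end CG

end Pool.Agent.Lib.MP_e95c01_co.N
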