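import Pool.Agent.Lib.MP_e95c01_co.N.Basic37

/-!
# Saturation: an edge can be added at a fragment `{a, b}` with `b` of degree 6, `a` of degree 7
-/

namespace Pool.Agent.Lib.MP_e95c01_co.N

open Finset

variable {V : Type} [Fintype V] [DecidableEq V]

namespace CG

/-- `a` is adjacent to `b`, to all neighbours of `b` and to one further vertex `t`, nothing else -/
structure HL76 (G : CG V) (a b t : V) : Prop where
  ab : a ∈ G.nb b
  tb : t ≠ b
  nt : t ∉ G.nb b
  eq : G.nb a = insert t (insert b ((G.nb b).erase a))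

/-- `t` has degree 6 in all such cases with `b` of degree 6 -/
def Sat76 (G : CG V) : Prop := ∀ a b t, G.HL76 a b t → G.Low b → G.Low t

section

variable {G : CG V} {a b t : V}

theorem N_mono76 {nb' : V → Finset V} (S T : Finset V) (h : ∀ v, G.nb v ⊆ nb' v)
    (hS : S.Nonempty) (hd : Disjoint S T) (hN : ∀ u ∈ S, nb' u ⊆ S ∪ T)
    (hc : ∃ v, v ∉ S ∪ T) : 6 ≤ T.card :=
  G.conn S T hS hd (fun u hu => (h u).trans (hN u hu)) hc

/-- the neighbour sets with the edge `bt` -/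
def nb76 (G : CG V) (b t : V) (v : V) : Finset V :=
  if v = b then insert t (G.nb v) else if v = t then insert b (G.nb v) else G.nb v

theorem mem_nb76 {v x : V} (hbt : t ≠ b) :
    x ∈ G.nb76 b t v ↔ x ∈ G.nb v ∨ (v = b ∧ x = t) ∨ (v = t ∧ x = b) := by
  unfold nb76
  split_ifs with h1 h2
  · subst h1
    rw [mem_insert]
    constructor
    · rintro (h | h)
      · exact Or.inr (Or.inl ⟨rfl, h⟩)
      · exact Or.inl h
    · rintro (h | h | h)
      · exact Or.inr h
      · exact Or.inl h.2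
      · exact absurd h.1.symm hbt
  · subst h2
    rw [mem_insert]
    constructor
    · rintro (h | h)
      · exact Or.inr (Or.inr ⟨rfl, h⟩)
      · exact Or.inl h
    · rintro (h | h | h)
      · exact Or.inr h
      · exact absurd h.1 h1
      · exact Or.inl h.2
  · constructor
    · exact Or.inl
    · rintro (h | h | h)
      · exact h
      · exact absurd h.1 h1
      · exact absurd h.1 h2

theorem sub_nb76 (hbt : t ≠ b) (v : V) : G.nb v ⊆ G.nb76 b t v := fun _ h =>
  (mem_nb76 hbt).2 (Or.inl h)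

/-- `G` with the additional edge `bt` -/
def add76 (G : CG V) (b t : V) (hbt : t ≠ b) : CG V where
  nb := G.nb76 b t
  irr v h := by
    rw [mem_nb76 hbt] at h
    rcases h with h | h | h
    · exact G.irr v h
    · exact hbt (h.2.symm.trans h.1)
    · exact hbt (h.1.symm.trans h.2)
  sym u v h := by
    rw [mem_nb76 hbt] at h ⊢
    rcases h with h | h | h
    · exact Or.inl (G.sym _ _ h)
    · exact Or.inr (Or.inr ⟨h.2, h.1⟩)
    · exact Or.inr (Or.inl ⟨h.2, h.1⟩)
  deg v := (G.deg v).trans (card_le_card (sub_nb76 hbt v))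
  conn S T h1 h2 h3 h4 := N_mono76 S T (sub_nb76 hbt) h1 h2 h3 h4

theorem keep76 (hbt : t ≠ b) {E : Finset V} (hE : G.Frag E) (h1 : ¬ (b ∈ E ∧ t ∈ G.Co E))
    (h2 : ¬ (t ∈ E ∧ b ∈ G.Co E)) :
    (G.add76 b t hbt).N E = G.N E ∧ (G.add76 b t hbt).Frag E := by
  have key : (G.add76 b t hbt).N E = G.N E := by
    ext v
    rw [mem_N37, mem_N37]
    constructor
    · rintro ⟨h3, u, hu, hv⟩
      refine ⟨h3, ?_⟩
      rcases (mem_nb76 hbt).1 hv with h | h | h
      · exact ⟨u, hu, h⟩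
      · obtain ⟨rfl, rfl⟩ := h
        by_contra h4
        exact h1 ⟨hu, mem_Co37.2 ⟨h3, fun h => h4 (mem_N37.1 h).2⟩⟩
      · obtain ⟨rfl, rfl⟩ := h
        by_contra h4
        exact h2 ⟨hu, mem_Co37.2 ⟨h3, fun h => h4 (mem_N37.1 h).2⟩⟩
    · rintro ⟨h3, u, hu, hv⟩
      exact ⟨h3, u, hu, (mem_nb76 hbt).2 (Or.inl hv)⟩
  refine ⟨key, hE.1, by rw [key]; exact hE.2.1, ?_⟩
  have h3 : (G.add76 b t hbt).Co E = G.Co E := by
    rw [Co, Co, key]
  rw [h3]
  exact hE.2.2

/-- the swap of `a` -/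
theorem swapS76 (h : G.HL76 a b t) (h7 : ¬ G.Low t) {E : Finset V} (hE : G.Frag E) (hb : b ∈ E)
    (ht : t ∈ G.Co E) : G.Frag (insert a E) ∧ G.N (insert a E) = insert t ((G.N E).erase a) := by
  obtain ⟨hCf, hCN, hCC⟩ := G.stCo_37 E hE
  have hta : t ∈ G.nb a := by rw [h.eq]; exact mem_insert_self _ _
  have hat : a ∈ G.nb t := G.sym _ _ hta
  have haE : a ∉ E := by
    intro haE
    exact (mem_Co37'.1 ht).2 a haE hta
  have haN : a ∈ G.N E := mem_N37.2 ⟨haE, b, hb, h.ab⟩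
  have hsub : G.N (insert a E) ⊆ insert t ((G.N E).erase a) := by
    intro v hv
    obtain ⟨h1, u, hu, hvu⟩ := mem_N37.1 hv
    rw [mem_insert, not_or] at h1
    rw [mem_insert, mem_erase]
    rcases mem_insert.1 hu with rfl | hu
    · rw [h.eq, mem_insert, mem_insert, mem_erase] at hvu
      rcases hvu with h2 | h2 | h2
      · exact Or.inl h2
      · rw [h2] at h1
        exact absurd hb h1.2
      · exact Or.inr ⟨h1.1, mem_N37.2 ⟨h1.2, b, hb, h2.2⟩⟩
    · exact Or.inr ⟨h1.1, mem_N37.2 ⟨h1.2, u, hu, hvu⟩⟩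
  have hcard : (insert t ((G.N E).erase a)).card = 6 := by
    rw [card_insert_of_notMem, card_erase_of_mem haN, hE.2.1]
    intro h1
    exact (mem_Co37.1 ht).2 (mem_of_mem_erase h1)
  have hCo : (G.Co (insert a E)).Nonempty := by
    have h1 : ∃ c ∈ G.Co E, c ≠ t := by
      by_contra hcon
      push Not at hcon
      have h2 : G.Co E = {t} := by
        ext c
        rw [mem_singleton]
        exact ⟨hcon c, fun h => by rw [h]; exact ht⟩
      apply h7
      have h3 : G.N {t} = G.nb t := by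
        ext v
        rw [mem_N37, mem_singleton]
        constructor
        · rintro ⟨-, u, hu, hv⟩
          rw [mem_singleton] at hu
          rwa [hu] at hv
        · intro hv
          refine ⟨?_, t, mem_singleton_self _, hv⟩
          rintro rfl
          exact G.irr _ hv
      have h4 := hCf.2.1
      rw [h2, h3] at h4
      exact h4
    obtain ⟨c, hc, hct⟩ := h1
    refine ⟨c, mem_Co37.2 ⟨?_, ?_⟩⟩
    · rw [mem_insert, not_or]
      refine ⟨?_, (mem_Co37.1 hc).1⟩
      rintro rfl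
      exact (mem_Co37.1 hc).2 haN
    · intro h2
      rcases mem_insert.1 (hsub h2) with h3 | h3
      · exact hct h3
      · exact (mem_Co37.1 hc).2 (mem_of_mem_erase h3)
  have h6 := G.stN6_37 _ (insert_nonempty a E) hCo
  have heq : G.N (insert a E) = insert t ((G.N E).erase a) :=
    eq_of_subset_of_card_le hsub (by rw [hcard]; exact h6)
  exact ⟨⟨insert_nonempty a E, by rw [heq, hcard], hCo⟩, heq⟩

theorem key76 (h : G.HL76 a b t) (h7 : ¬ G.Low t) {E : Finset V} (hE : G.Frag E) {x y : V}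
    (hx : x ∈ G.N E) (hy : y ∈ G.N E) (hxa : x ≠ a) (hya : y ≠ a) :
    ∃ E', (G.add76 b t h.tb).Frag E' ∧ x ∈ (G.add76 b t h.tb).N E' ∧
      y ∈ (G.add76 b t h.tb).N E' := by
  have main : ∀ E : Finset V, G.Frag E → x ∈ G.N E → y ∈ G.N E → b ∈ E → t ∈ G.Co E →
      ∃ E', (G.add76 b t h.tb).Frag E' ∧ x ∈ (G.add76 b t h.tb).N E' ∧
        y ∈ (G.add76 b t h.tb).N E' := by
    intro E hE hx hy hb ht
    obtain ⟨h1, h2⟩ := swapS76 h h7 hE hb ht
    have htN : t ∈ G.N (insert a E) := by rw [h2]; exact mem_insert_self _ _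
    obtain ⟨h3, h4⟩ := keep76 h.tb h1 (fun hh => (mem_Co37.1 hh.2).2 htN)
      (fun hh => (mem_N37.1 htN).1 hh.1)
    refine ⟨_, h4, ?_, ?_⟩
    · rw [h3, h2]
      exact mem_insert_of_mem (mem_erase.2 ⟨hxa, hx⟩)
    · rw [h3, h2]
      exact mem_insert_of_mem (mem_erase.2 ⟨hya, hy⟩)
  by_cases h1 : b ∈ E ∧ t ∈ G.Co E
  · exact main E hE hx hy h1.1 h1.2
  by_cases h2 : t ∈ E ∧ b ∈ G.Co E
  · obtain ⟨hCf, hCN, hCC⟩ := G.stCo_37 E hE
    exact main (G.Co E) hCf (by rw [hCN]; exact hx) (by rw [hCN]; exact hy) h2.2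
      (by rw [hCC]; exact h2.1)
  obtain ⟨h3, h4⟩ := keep76 h.tb hE h1 h2
  exact ⟨E, h4, by rw [h3]; exact hx, by rw [h3]; exact hy⟩

/-- `N E` contains `a` as soon as it contains `b` -/
theorem aN76 (h : G.HL76 a b t) {E : Finset V} (hE : G.Frag E) (hb : b ∈ G.N E) :
    a ∈ G.N E := by
  have main : ∀ E : Finset V, G.Frag E → b ∈ G.N E → a ∉ E := by
    intro E hE hb ha
    obtain ⟨hCf, hCN, hCC⟩ := G.stCo_37 E hE
    obtain ⟨u, hu, hub⟩ := nbr_in37 (F := G.Co E) (by rw [hCN]; exact hb)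
    rw [mem_Co37'] at hu
    have hua : u ≠ a := fun h1 => hu.1 (by rw [h1]; exact ha)
    apply hu.2 a ha
    rw [h.eq, mem_insert, mem_insert, mem_erase]
    exact Or.inr (Or.inr ⟨hua, hub⟩)
  obtain ⟨hCf, hCN, hCC⟩ := G.stCo_37 E hE
  have h1 := main E hE hb
  have h2 := main (G.Co E) hCf (by rw [hCN]; exact hb)
  by_contra h3
  exact h2 (mem_Co37.2 ⟨h1, h3⟩)

/-- `N E` contains `b` as soon as it contains `a` and `t` -/
theorem bN76 (h : G.HL76 a b t) {E : Finset V} (hE : G.Frag E) (ha : a ∈ G.N E)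
    (ht : t ∈ G.N E) : b ∈ G.N E := by
  have main : ∀ E : Finset V, G.Frag E → a ∈ G.N E → t ∈ G.N E → b ∉ E := by
    intro E hE ha ht hb
    obtain ⟨hCf, hCN, hCC⟩ := G.stCo_37 E hE
    obtain ⟨u, hu, hua⟩ := nbr_in37 (F := G.Co E) (by rw [hCN]; exact ha)
    have hu' := mem_Co37'.1 hu
    rw [h.eq, mem_insert, mem_insert, mem_erase] at hua
    rcases hua with h1 | h1 | h1
    · rw [h1] at hu
      exact (mem_Co37.1 hu).2 ht
    · rw [h1] at hu'
      exact hu'.1 hb
    · exact hu'.2 b hb h1.2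
  obtain ⟨hCf, hCN, hCC⟩ := G.stCo_37 E hE
  have h1 := main E hE ha ht
  have h2 := main (G.Co E) hCf (by rw [hCN]; exact ha) (by rw [hCN]; exact ht)
  by_contra h3
  exact h2 (mem_Co37.2 ⟨h1, h3⟩)

theorem crit76 (h : G.HL76 a b t) (h7 : ¬ G.Low t) (hc : G.Crit) :
    (G.add76 b t h.tb).Crit := by
  have hta : t ∈ G.nb a := by rw [h.eq]; exact mem_insert_self _ _
  -- keep a fragment whose neighbourhood contains `b` or `t`
  have kp : ∀ E : Finset V, G.Frag E → (b ∈ G.N E ∨ t ∈ G.N E) →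
      (G.add76 b t h.tb).N E = G.N E ∧ (G.add76 b t h.tb).Frag E := by
    intro E hE hor
    apply keep76 h.tb hE
    · rintro ⟨h1, h2⟩
      rcases hor with h3 | h3
      · exact (mem_N37.1 h3).1 h1
      · exact (mem_Co37.1 h2).2 h3
    · rintro ⟨h1, h2⟩
      rcases hor with h3 | h3
      · exact (mem_Co37.1 h2).2 h3
      · exact (mem_N37.1 h3).1 h1
  -- the edges at `a`
  have ea : ∀ y, y ∈ G.nb a → ∃ E, (G.add76 b t h.tb).Frag E ∧ a ∈ (G.add76 b t h.tb).N E ∧
      y ∈ (G.add76 b t h.tb).N E := by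
    intro y hy
    by_cases hyt : y = t
    · obtain ⟨E, hE, h1, h2⟩ := hc a y hy
      obtain ⟨h3, h4⟩ := kp E hE (Or.inr (by rw [← hyt]; exact h2))
      exact ⟨E, h4, by rw [h3]; exact h1, by rw [h3]; exact h2⟩
    by_cases hyb : y = b
    · obtain ⟨E, hE, h1, h2⟩ := hc a y hy
      obtain ⟨h3, h4⟩ := kp E hE (Or.inl (by rw [← hyb]; exact h2))
      exact ⟨E, h4, by rw [h3]; exact h1, by rw [h3]; exact h2⟩
    · rw [h.eq, mem_insert, mem_insert, mem_erase] at hy
      have hyb' : y ∈ G.nb b := by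
        rcases hy with h1 | h1 | h1
        · exact absurd h1 hyt
        · exact absurd h1 hyb
        · exact h1.2
      obtain ⟨E, hE, h1, h2⟩ := hc b y hyb'
      obtain ⟨h3, h4⟩ := kp E hE (Or.inl h1)
      exact ⟨E, h4, by rw [h3]; exact aN76 h hE h1, by rw [h3]; exact h2⟩
  -- the edge `bt`
  have ebt : ∃ E, (G.add76 b t h.tb).Frag E ∧ b ∈ (G.add76 b t h.tb).N E ∧
      t ∈ (G.add76 b t h.tb).N E := by
    obtain ⟨E, hE, h1, h2⟩ := hc a t hta
    obtain ⟨h3, h4⟩ := kp E hE (Or.inr h2)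
    exact ⟨E, h4, by rw [h3]; exact bN76 h hE h1 h2, by rw [h3]; exact h2⟩
  intro x y hxy
  rcases (mem_nb76 h.tb).1 hxy with h1 | h1 | h1
  · by_cases hxa : x = a
    · rw [hxa] at h1 ⊢
      exact ea y h1
    by_cases hya : y = a
    · rw [hya] at h1 ⊢
      obtain ⟨E, h2, h3, h4⟩ := ea x (G.sym _ _ h1)
      exact ⟨E, h2, h4, h3⟩
    obtain ⟨E, hE, h2, h3⟩ := hc x y h1
    exact key76 h h7 hE h2 h3 hxa hya
  · rw [h1.1, h1.2]
    exact ebt
  · rw [h1.1, h1.2]
    obtain ⟨E, h2, h3, h4⟩ := ebt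
    exact ⟨E, h2, h4, h3⟩

end

/-- it suffices to prove a bound on the number of vertices of degree 6 for saturated graphs -/
theorem sat_red76 (c : ℕ) (h : ∀ G : CG V, G.Crit → G.Sat76 → Fintype.card V ≤ c * G.l univ)
    (G : CG V) (hG : G.Crit) : Fintype.card V ≤ c * G.l univ := by
  classical
  -- number of non-adjacent ordered pairs
  induction hn : (∑ v : V, ((G.nb v)ᶜ).card) using Nat.strong_induction_on generalizing G with
  | _ n ih =>
  by_cases hs : G.Sat76
  · exact h G hG hs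
  unfold Sat76 at hs
  push Not at hs
  obtain ⟨a, b, t, hab, -, ht⟩ := hs
  have h1 := crit76 hab ht hG
  have hle : ∀ v, (G.nb v) ⊆ (G.add76 b t hab.tb).nb v := sub_nb76 hab.tb
  have hlt : (∑ v : V, (((G.add76 b t hab.tb).nb v)ᶜ).card) < n := by
    rw [← hn]
    apply sum_lt_sum
    · intro v _
      exact card_le_card (compl_subset_compl.2 (hle v))
    · refine ⟨b, mem_univ _, card_lt_card ?_⟩
      rw [ssubset_iff_of_subset (compl_subset_compl.2 (hle b))]
      refine ⟨t, mem_compl.2 hab.nt, ?_⟩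
      rw [mem_compl, not_not]
      exact (mem_nb76 hab.tb).2 (Or.inr (Or.inl ⟨rfl, rfl⟩))
  have h2 := ih _ hlt (G.add76 b t hab.tb) h1 rfl
  have h3 : (G.add76 b t hab.tb).l univ ≤ G.l univ := by
    unfold l
    apply card_le_card
    intro v hv
    rw [mem_filter] at hv ⊢
    refine ⟨hv.1, ?_⟩
    have h4 := card_le_card (hle v)
    have h5 := G.deg v
    have h6 : ((G.add76 b t hab.tb).nb v).card = 6 := hv.2
    exact le_antisymm (by omega) h5
  exact h2.trans (Nat.mul_le_mul_left c h3)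

end CG

end Pool.Agent.Lib.MP_e95c01_co.N
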