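import Pool.Agent.Lib.MP_e95c01_co.N4.Closed76

/-!
# The general lemma for `4 n_6 ≥ n`: statements
-/

namespace Pool.Agent.Lib.MP_e95c01_co.N

open Finset

variable {V : Type} [Fintype V] [DecidableEq V]

namespace CG

/-- twin vertex -/
def TV76 (G : CG V) (u : V) : Prop := ∃ v, G.Tw76 u v

/-- neither low nor twin -/
def Hub76 (G : CG V) (x : V) : Prop := ¬ G.Low x ∧ ¬ G.TV76 x

open Classical in
/-- weight: 2 for vertices of degree 6, 1 for twin vertices -/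
noncomputable def cw76 (G : CG V) (z : V) : ℤ := if G.Low z then 2 else if G.TV76 z then 1 else 0

/-- base charge -/
noncomputable def b76 (G : CG V) (Fa : Finset (Finset V)) (z : V) : ℤ :=
  2 * (((G.I Fa z).card : ℤ) - 2) +
    (if G.Low z then 16 - 8 * ((G.I Fa z).card : ℤ) else 0) +
    G.cw76 z * ((((G.I Fa z).card : ℤ) - 2) * ((G.nb z).card : ℤ) +
      ∑ x ∈ G.nR Fa z, (2 - (G.m Fa x z : ℤ)))

/-- charge after the first rule: each vertex `x` gives `cw x` to each neighbour `z` of smaller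
weight with `m x z ≤ 1` -/
noncomputable def ch76 (G : CG V) (Fa : Finset (Finset V)) (z : V) : ℤ :=
  G.b76 Fa z + ∑ x ∈ G.nR Fa z, (if G.cw76 z < G.cw76 x ∧ G.m Fa x z ≤ 1 then G.cw76 x else 0) -
    ∑ x ∈ G.nR Fa z, (if G.cw76 x < G.cw76 z ∧ G.m Fa x z ≤ 1 then G.cw76 z else 0)

/-- total weight of the neighbours in `R` -/
noncomputable def W76 (G : CG V) (Fa : Finset (Finset V)) (z : V) : ℤ :=
  ∑ x ∈ G.nR Fa z, G.cw76 x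

/-- the setting of the general lemma -/
structure Set76 (G : CG V) (Fa : Finset (Finset V)) : Prop where
  sat : G.Sat76
  card : 10 ≤ Fintype.card V
  reg : G.Reg Fa
  big : ∀ B ∈ Fa, G.Big B
  c0 : ∀ z ∈ R Fa, G.I Fa z = ∅ → ∀ x ∈ G.nb z, G.SCov z x
  c1 : ∀ z ∈ R Fa, ∀ B, G.I Fa z = {B} → ∀ x ∈ G.nb z ∩ G.Co B, G.SCov z x
  e0 : ∀ Z : Finset V, 3 ≤ Z.card → Z.card ≤ 4 → (∀ z ∈ Z, z ∈ R Fa ∧ G.I Fa z = ∅) →
    7 ≤ (G.N Z).card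
  e1 : ∀ B ∈ Fa, ∀ Z : Finset V, Z ⊆ G.K Fa B → Z.Nonempty → Z.card ≤ 3 →
    Z.card < (G.N Z ∩ G.Co B).card

/-- G1: the first rule is balanced -/
def StG1 (G : CG V) : Prop := ∀ Fa : Finset (Finset V),
  ∑ z ∈ R Fa, G.b76 Fa z = ∑ z ∈ R Fa, G.ch76 Fa z

/-- G2: the charges -/
def StG2 (G : CG V) : Prop := ∀ Fa : Finset (Finset V), G.Reg Fa → ∀ z ∈ R Fa,
  (G.I Fa z = ∅ →
    (G.Low z → G.ch76 Fa z = 2 * (G.s Fa z : ℤ)) ∧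
    (G.TV76 z → G.ch76 Fa z = G.W76 Fa z + (G.s Fa z : ℤ) - 11) ∧
    (G.Hub76 z → G.ch76 Fa z = G.W76 Fa z - 4)) ∧
  (∀ B, G.I Fa z = {B} →
    (G.Low z → G.ch76 Fa z = 2 * ((G.d z (G.Co B) : ℤ) + (G.s Fa z : ℤ) - 3)) ∧
    (G.TV76 z → G.ch76 Fa z = (G.d z (G.Co B) : ℤ) + G.W76 Fa z + (G.s Fa z : ℤ) - 9) ∧
    (G.Hub76 z → G.ch76 Fa z = G.W76 Fa z - 2)) ∧
  (2 ≤ (G.I Fa z).card → 0 ≤ G.ch76 Fa z ∧
    (G.Hub76 z → ∑ x ∈ (G.nR Fa z).filter (fun x => G.m Fa x z ≤ 1), G.cw76 x ≤ G.ch76 Fa z))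

/-- G3: mates lie in the same neighbourhoods; a twin pair in `N B` has two neighbours in `B` -/
def StG3 (G : CG V) : Prop := ∀ Fa : Finset (Finset V), G.Reg Fa → (∀ B ∈ Fa, G.Big B) →
  ∀ u v, G.Tw76 u v → u ∈ R Fa →
    v ∈ R Fa ∧ G.I Fa v = G.I Fa u ∧ ∀ B ∈ G.I Fa u, 2 ≤ (G.nb u ∩ B).card

/-- G4: hubs see class vertices -/
def StG4 (G : CG V) : Prop := ∀ Fa : Finset (Finset V), G.Set76 Fa → ∀ z ∈ R Fa, G.Hub76 z →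
  (G.I Fa z = ∅ → 4 ≤ G.W76 Fa z) ∧ (∀ B, G.I Fa z = {B} → 2 ≤ G.W76 Fa z)

/-- the head `a` pays 2 to the bad low `l` -/
def Head76 (G : CG V) (Fa : Finset (Finset V)) (a l : V) : Prop :=
  a ∈ R Fa ∧ G.Hub76 a ∧ l ∈ R Fa ∧ G.Low l ∧ G.s Fa l = 0 ∧
    (∃ B, G.I Fa l = {B} ∧ G.d l (G.Co B) = 2) ∧ ∃ b, G.HL76 a b l ∧ G.Low b ∧ b ∈ R Fa

/-- G5: lows in `K B` -/
def StG5 (G : CG V) : Prop := ∀ Fa : Finset (Finset V), G.Set76 Fa → ∀ z ∈ R Fa, G.Low z →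
  ∀ B, G.I Fa z = {B} → 3 ≤ G.d z (G.Co B) + G.s Fa z ∨
    (G.d z (G.Co B) = 2 ∧ G.s Fa z = 0 ∧ ∃ a, G.Head76 Fa a z)

/-- G6: twins in `K B` -/
def StG6 (G : CG V) : Prop := ∀ Fa : Finset (Finset V), G.Set76 Fa → ∀ z ∈ R Fa, G.TV76 z →
  ∀ B, G.I Fa z = {B} → 9 ≤ (G.d z (G.Co B) : ℤ) + G.W76 Fa z + (G.s Fa z : ℤ)

/-- a bad twin vertex -/
def Bad76 (G : CG V) (Fa : Finset (Finset V)) (u : V) : Prop :=
  u ∈ R Fa ∧ G.TV76 u ∧ G.I Fa u = ∅ ∧ G.W76 Fa u + (G.s Fa u : ℤ) ≤ 10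

/-- `x` pays 1 to the bad twin vertex `u` -/
def Pay76 (G : CG V) (Fa : Finset (Finset V)) (x u : V) : Prop :=
  x ∈ G.nb u ∧ x ∈ R Fa ∧ G.Hub76 x ∧ G.Bad76 Fa u ∧ 2 ≤ G.ch76 Fa x ∧
    ∃ d, d ∈ G.nb x ∧ d ∈ G.nb u ∧ d ∈ R Fa ∧ (G.Low d ∨ (G.TV76 d ∧ G.I Fa d ≠ ∅)) ∧
      ∀ p, G.TV76 p → p ∈ R Fa → G.I Fa p = ∅ → p ∈ G.nb x → p ∈ G.nb d →
        p = u ∨ G.Tw76 u p

/-- `x` pays 1 more to the bad twin vertex `u` -/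
def More76 (G : CG V) (Fa : Finset (Finset V)) (x u : V) : Prop :=
  x ∈ G.nb u ∧ x ∈ R Fa ∧ G.Hub76 x ∧ G.Bad76 Fa u ∧ ∃ b t w, G.HL76 x b t ∧ G.Low b ∧ G.Low t ∧ b ∈ G.nb u ∧
    t ∈ G.nb u ∧ G.TV76 w ∧ w ∈ G.nb u ∧ w ∈ G.nb x ∧ ¬ G.Tw76 u w

/-- the low vertex `l` pays 1 to the bad twin vertex `u` -/
def LPay76 (G : CG V) (Fa : Finset (Finset V)) (l u : V) : Prop :=
  l ∈ G.nb u ∧ l ∈ R Fa ∧ G.Low l ∧ G.Bad76 Fa u ∧ 2 ≤ G.ch76 Fa l ∧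
    ∃ v, G.Tw76 u v ∧ ((G.nb l ∩ G.nb u).erase v).card = 3

open Classical in
/-- G7: bad twin vertices are paid -/
def StG7 (G : CG V) : Prop := ∀ Fa : Finset (Finset V), G.Set76 Fa → ∀ u, G.Bad76 Fa u →
  11 ≤ G.W76 Fa u + (G.s Fa u : ℤ) +
    (((univ : Finset V).filter fun x => G.Pay76 Fa x u).card : ℤ) +
    (((univ : Finset V).filter fun x => G.More76 Fa x u).card : ℤ) +
    (((univ : Finset V).filter fun l => G.LPay76 Fa l u).card : ℤ)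

open Classical in
/-- G8: the budget of a hub -/
def StG8 (G : CG V) : Prop := ∀ Fa : Finset (Finset V), G.Set76 Fa → ∀ x ∈ R Fa, G.Hub76 x →
  (((univ : Finset V).filter fun u => G.Pay76 Fa x u).card : ℤ) +
    (((univ : Finset V).filter fun u => G.More76 Fa x u).card : ℤ) +
    2 * (((univ : Finset V).filter fun l => G.Head76 Fa x l).card : ℤ) ≤ G.ch76 Fa x

open Classical in
/-- G9: the budget of a low vertex -/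
def StG9 (G : CG V) : Prop := ∀ Fa : Finset (Finset V), G.Set76 Fa → ∀ l ∈ R Fa, G.Low l →
  (((univ : Finset V).filter fun u => G.LPay76 Fa l u).card : ℤ) ≤ max 0 (G.ch76 Fa l)

/-- G10: the general lemma -/
def StG10 (G : CG V) : Prop := ∀ Fa : Finset (Finset V), G.Set76 Fa →
  0 ≤ ∑ z ∈ R Fa, G.b76 Fa z

end CG

end Pool.Agent.Lib.MP_e95c01_co.N
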