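import Pool.Agent.Lib.MP_e95c01_co.N4.Tool36
import Pool.Agent.Lib.MP_e95c01_co.N.StThree36

/-!
# Fragments with three vertices: covers
-/

namespace Pool.Agent.Lib.MP_e95c01_co.N

open Finset

variable {V : Type} [Fintype V] [DecidableEq V]

namespace CG

variable {G : CG V}

/-- a fragment with three vertices, all edges to its neighbourhood have a small cover -/
structure T3 (G : CG V) (F : Finset V) : Prop where
  big : G.Big F
  c3 : F.card = 3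
  sat : G.Sat76
  cov : ∀ z ∈ F, ∀ t ∈ G.N F, t ∈ G.nb z → G.Cls76 z t

variable {F : Finset V}

/-- a vertex of `F` which is not low misses at most one vertex -/
theorem T3.miss (h : G.T3 F) {z : V} (hz : z ∈ F) (hl : ¬ G.Low z) {x y : V} (hxy : x ≠ y)
    (hx : x ∈ F ∪ G.N F) (hy : y ∈ F ∪ G.N F) (hxz : x ≠ z) (hyz : y ≠ z) :
    x ∈ G.nb z ∨ y ∈ G.nb z := by
  by_contra hcon
  rw [not_or] at hcon
  have h1 : G.nb z ⊆ (((F ∪ G.N F).erase z).erase x).erase y := by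
    intro v hv
    rw [mem_erase, mem_erase, mem_erase]
    refine ⟨fun e => hcon.2 (e ▸ hv), fun e => hcon.1 (e ▸ hv), nb_ne76 hv, ?_⟩
    rcases nbF36 hz hv with h2 | h2
    · exact mem_union_left _ h2
    · exact mem_union_right _ h2
  have h2 := card_le_card h1
  have h3 : (F ∪ G.N F).card ≤ 9 := by
    have := card_union_le F (G.N F)
    rw [h.c3, h.big.1.2.1] at this
    exact this
  have h4 := card_erase_add_one (mem_union_left (G.N F) hz)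
  have h5 : x ∈ (F ∪ G.N F).erase z := mem_erase.2 ⟨hxz, hx⟩
  have h6 := card_erase_add_one h5
  have h7 : y ∈ ((F ∪ G.N F).erase z).erase x := mem_erase.2 ⟨hxy.symm, mem_erase.2 ⟨hyz, hy⟩⟩
  have h8 := card_erase_add_one h7
  have h9 := G.deg z
  have h10 : (G.nb z).card ≠ 6 := hl
  omega

theorem T3.ne (_h : G.T3 F) {z t : V} (hz : z ∈ F) (ht : t ∈ G.N F) : t ≠ z := by
  rintro rfl
  exact nE36 ht hz

theorem T3.missT (h : G.T3 F) {z : V} (hz : z ∈ F) (hl : ¬ G.Low z) {x y : V} (hxy : x ≠ y)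
    (hx : x ∈ G.N F) (hy : y ∈ G.N F) : x ∈ G.nb z ∨ y ∈ G.nb z :=
  h.miss hz hl hxy (mem_union_right _ hx) (mem_union_right _ hy) (h.ne hz hx) (h.ne hz hy)

theorem T3.missF (h : G.T3 F) {z : V} (hz : z ∈ F) (hl : ¬ G.Low z) {x y : V} (hx : x ∈ F)
    (hxz : x ≠ z) (hy : y ∈ G.N F) : x ∈ G.nb z ∨ y ∈ G.nb z :=
  h.miss hz hl (h.ne hx hy).symm (mem_union_left _ hx) (mem_union_right _ hy) hxz (h.ne hz hy)

theorem T3.tw (h : G.T3 F) {z : V} (hz : z ∈ F) (hl : ¬ G.Low z) {p q : V} (hp : G.Tw76 p q)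
    (hpT : p ∈ G.N F) : p ∈ G.nb z := by
  have hq := twN36 h.big.1 hp hpT
  rcases h.missT hz hl hp.ne hpT hq with h1 | h1
  · exact h1
  · apply G.sym
    rw [hp.iff (h.ne hz hpT).symm (h.ne hz hq).symm]
    exact G.sym _ _ h1

/-- the covers of an edge from a vertex of `F` which is not low -/
theorem T3.cover (h : G.T3 F) (hL : ∀ v ∈ F, ∀ w ∈ F, G.Low v → G.Low w → v = w) {z t : V}
    (hz : z ∈ F) (hzl : ¬ G.Low z) (ht : t ∈ G.N F) (hzt : t ∈ G.nb z) :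
    (∃ w ∈ G.N F, G.Low w ∧ w ∈ G.nb z ∧ w ∈ G.nb t) ∨
    (∃ w ∈ F, G.Low w ∧ w ∈ G.nb z ∧ w ∈ G.nb t) ∨
    (∃ p q, G.Tw76 p q ∧ p ∈ G.N F ∧ q ∈ G.N F ∧ p ∈ G.nb t ∧ t ≠ q) ∨
    (∃ p q, G.Tw76 p q ∧ p ∈ F ∧ q ∈ F ∧ p ∈ G.nb t ∧ z ≠ p ∧ z ≠ q) ∨
    (G.Low t ∧ ∃ a b, G.HL76 a b t ∧ G.Low b ∧ a ∈ G.N F ∧ b ∈ G.N F ∧ b ∈ G.nb z ∧
      a ∈ G.nb z) ∨
    (G.Low t ∧ ∃ a b, G.HL76 a b t ∧ G.Low b ∧ a ∈ F ∧ b ∈ F ∧ b ∈ G.nb z ∧ a ∈ G.nb z) ∨
    (∃ b c, G.Low b ∧ G.Low c ∧ b ∈ G.N F ∧ c ∈ G.N F ∧ c ∈ G.nb b ∧ b ∈ G.nb z ∧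
      c ∉ G.nb z ∧ c ∈ G.nb t ∧ b ∉ G.nb t ∧ b ≠ t) ∨
    (∃ b, G.Low b ∧ b ∈ G.N F ∧ b ∈ G.nb z ∧ (∀ v ∈ F, v ∈ G.nb b → v = z) ∧
      b ∉ G.nb t ∧ b ≠ t) := by
  have hF := h.big.1
  rcases h.cov z hz t ht hzt with ⟨w, hw, h1, h2⟩ | ⟨p, q, hpq, h1, h2, h3, h4⟩ |
    ⟨a, b, t0, hHL, hb, h1, h2, h3, h4, h5⟩ |
    ⟨b, c, hb, hc, h1, h2, h3, h4, h5, h6, h7, h8, h9⟩
  · have hwz := G.sym _ _ h1
    rcases nbF36 hz hwz with h3 | h3
    · exact Or.inr (Or.inl ⟨w, h3, hw, hwz, G.sym _ _ h2⟩)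
    · exact Or.inl ⟨w, h3, hw, hwz, G.sym _ _ h2⟩
  · have hpz := G.sym _ _ h1
    rcases nbF36 hz hpz with h5 | h5
    · exact Or.inr (Or.inr (Or.inr (Or.inl ⟨p, q, hpq, h5, twE36 hF hpq h5, G.sym _ _ h2,
        (nb_ne76 h1), h3⟩)))
    · exact Or.inr (Or.inr (Or.inl ⟨p, q, hpq, h5, twN36 hF hpq h5, G.sym _ _ h2, h4⟩))
  · have ht0 := h.sat a b t0 hHL hb
    have h6 : t = t0 := by
      rcases h5 with h5 | h5
      · exact absurd (h5 ▸ ht0) hzl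
      · exact h5
    subst h6
    have hzb : z ∈ G.nb b := by
      rcases (mem_HL36 hHL z).1 h1 with h6 | h6 | h6
      · exact absurd h6 (h.ne hz ht).symm
      · exact absurd h6 h3
      · exact h6.2
    have hbz := G.sym _ _ hzb
    rcases nbF36 hz hbz with h6 | h6
    · have haF : a ∈ F := by
        rcases nbF36 h6 hHL.ab with h7 | h7
        · exact h7
        · exfalso
          obtain ⟨v, hv, hva⟩ := nbrCo36 hF h7
          rcases (mem_HL36 hHL v).1 hva with h8 | h8 | h8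
          · subst h8
            exact coN36 hv ht
          · subst h8
            exact coE36 hv h6
          · exact noed36 h6 hv h8.2
      exact Or.inr (Or.inr (Or.inr (Or.inr (Or.inr (Or.inl ⟨ht0, a, b, hHL, hb, haF, h6, hbz,
        G.sym _ _ h1⟩)))))
    · exact Or.inr (Or.inr (Or.inr (Or.inr (Or.inl ⟨ht0, a, b, hHL, hb, hlN36 hF hHL h6, h6, hbz,
        G.sym _ _ h1⟩))))
  · have hbz := G.sym _ _ h2
    rcases nbF36 hz hbz with h10 | h10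
    · exfalso
      rcases nbF36 h10 h1 with h11 | h11
      · have := hL b h10 c h11 hb hc
        exact nb_ne76 h1 this.symm
      · obtain ⟨v, hv, hvc⟩ := nbrCo36 hF h11
        refine noed36 h10 hv (h9 v hvc ?_ ?_)
        · rintro rfl
          exact coE36 hv h10
        · rintro rfl
          exact coN36 hv ht
    · rcases G.cas36 F c with h11 | h11 | h11
      · exfalso
        obtain ⟨v, hv, hvb⟩ := nbrCo36 hF h10
        refine noed36 h11 hv (h8 v hvb ?_ ?_)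
        · rintro rfl
          exact coE36 hv h11
        · rintro rfl
          exact coE36 hv hz
      · exact Or.inr (Or.inr (Or.inr (Or.inr (Or.inr (Or.inr (Or.inl ⟨b, c, hb, hc, h10, h11, h1,
          hbz, fun g => h4 (G.sym _ _ g), G.sym _ _ h3, fun g => h5 (G.sym _ _ g),
            fun g => h7 g.symm⟩))))))
      · refine Or.inr (Or.inr (Or.inr (Or.inr (Or.inr (Or.inr (Or.inr ⟨b, hb, h10, hbz, ?_,
          fun g => h5 (G.sym _ _ g), fun g => h7 g.symm⟩))))))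
        intro v hv hvb
        by_contra hvz
        refine noed36' hv h11 (h8 v hvb ?_ hvz)
        rintro rfl
        exact coE36 h11 hv

/-- the covers of an edge to a twin -/
theorem T3.coverT (h : G.T3 F) (hL : ∀ v ∈ F, ∀ w ∈ F, G.Low v → G.Low w → v = w) {z t s : V}
    (hz : z ∈ F) (hzl : ¬ G.Low z) (ht : t ∈ G.N F) (hts : G.Tw76 t s) :
    (∃ w ∈ G.N F, G.Low w ∧ w ∈ G.nb z ∧ w ∈ G.nb t) ∨
    (∃ w ∈ F, G.Low w ∧ w ∈ G.nb z ∧ w ∈ G.nb t) ∨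
    (∃ p q, G.Tw76 p q ∧ p ∈ G.N F ∧ q ∈ G.N F ∧ p ∈ G.nb t ∧ t ≠ q) ∨
    (∃ p q, G.Tw76 p q ∧ p ∈ F ∧ q ∈ F ∧ p ∈ G.nb t ∧ z ≠ p ∧ z ≠ q) := by
  have hF := h.big.1
  have hzt := h.tw hz hzl hts ht
  rcases h.cov z hz t ht hzt with ⟨w, hw, h1, h2⟩ | ⟨p, q, hpq, h1, h2, h3, h4⟩ |
    ⟨a, b, t0, hHL, hb, h1, h2, h3, h4, h5⟩ |
    ⟨b, c, hb, hc, h1, h2, h3, h4, h5, h6, h7, h8, h9⟩
  · have hwz := G.sym _ _ h1
    rcases nbF36 hz hwz with h3 | h3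
    · exact Or.inr (Or.inl ⟨w, h3, hw, hwz, G.sym _ _ h2⟩)
    · exact Or.inl ⟨w, h3, hw, hwz, G.sym _ _ h2⟩
  · have hpz := G.sym _ _ h1
    rcases nbF36 hz hpz with h5 | h5
    · exact Or.inr (Or.inr (Or.inr ⟨p, q, hpq, h5, twE36 hF hpq h5, G.sym _ _ h2,
        (nb_ne76 h1), h3⟩))
    · exact Or.inr (Or.inr (Or.inl ⟨p, q, hpq, h5, twN36 hF hpq h5, G.sym _ _ h2, h4⟩))
  · exfalso
    have ht0 := h.sat a b t0 hHL hb
    rcases h5 with h5 | h5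
    · exact hzl (h5 ▸ ht0)
    · exact hts.not_low (h5 ▸ ht0)
  · exact absurd (twLL36 hts hb hc h3 h5 h9) not_false

/-- the covers of an edge at the only low vertex of `F`, when it sees no low vertex -/
theorem T3.coverU (h : G.T3 F) {u : V} (hu : u ∈ F) (hul : G.Low u)
    (hL : ∀ v ∈ F, G.Low v → v = u) (hno : ∀ w ∈ G.N F, G.Low w → w ∉ G.nb u) {t : V}
    (ht : t ∈ G.N F) (htl : ¬ G.Low t) (hut : t ∈ G.nb u) :
    (∃ p q, G.Tw76 p q ∧ p ∈ G.N F ∧ q ∈ G.N F ∧ p ∈ G.nb t ∧ t ≠ q) ∨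
    (∃ p q, G.Tw76 p q ∧ p ∈ F ∧ q ∈ F ∧ p ∈ G.nb u ∧ u ≠ p ∧ u ≠ q) ∨
    (∃ a b, G.HL76 a b u ∧ G.Low b ∧ a ∈ G.N F ∧ b ∈ G.N F ∧ b ∈ G.nb t ∧ a ∈ G.nb t) ∨
    (∃ a ∈ G.N F, ∀ v ∈ F, v ∈ G.nb a → v = u) := by
  have hF := h.big.1
  rcases h.cov u hu t ht hut with ⟨w, hw, h1, h2⟩ | ⟨p, q, hpq, h1, h2, h3, h4⟩ |
    ⟨a, b, t0, hHL, hb, h1, h2, h3, h4, h5⟩ |
    ⟨b, c, hb, hc, h1, h2, h3, h4, h5, h6, h7, h8, h9⟩
  · exfalso
    have hwz := G.sym _ _ h1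
    rcases nbF36 hu hwz with h3 | h3
    · exact nb_ne76 hwz (hL w h3 hw)
    · exact hno w h3 hw hwz
  · have hpz := G.sym _ _ h1
    rcases nbF36 hu hpz with h5 | h5
    · exact Or.inr (Or.inl ⟨p, q, hpq, h5, twE36 hF hpq h5, hpz, (nb_ne76 h1), h3⟩)
    · exact Or.inl ⟨p, q, hpq, h5, twN36 hF hpq h5, G.sym _ _ h2, h4⟩
  · have ht0 := h.sat a b t0 hHL hb
    have h6 : u = t0 := by
      rcases h5 with h5 | h5
      · exact h5
      · exact absurd (h5 ▸ ht0) htl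
    subst h6
    have htb : t ∈ G.nb b := by
      rcases (mem_HL36 hHL t).1 h2 with h6 | h6 | h6
      · exact absurd h6 (h.ne hu ht)
      · exact absurd h6 h4
      · exact h6.2
    rcases G.cas36 F b with h6 | h6 | h6
    · exfalso
      exact hHL.tb (hL b h6 hb).symm
    · exact Or.inr (Or.inr (Or.inl ⟨a, b, hHL, hb, hlN36 hF hHL h6, h6, G.sym _ _ htb,
        G.sym _ _ h2⟩))
    · have haN : a ∈ G.N F := by
        rcases G.cas36 F a with h7 | h7 | h7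
        · exact absurd hHL.ab (noed36' h7 h6)
        · exact h7
        · exact absurd ((mem_HL36 hHL u).2 (Or.inl rfl)) (noed36' hu h7)
      refine Or.inr (Or.inr (Or.inr ⟨a, haN, ?_⟩))
      intro v hv hva
      rcases (mem_HL36 hHL v).1 hva with h7 | h7 | h7
      · exact h7
      · subst h7
        exact absurd hv (coE36 h6)
      · exact absurd h7.2 (noed36' hv h6)
  · exfalso
    have hbz := G.sym _ _ h2
    rcases nbF36 hu hbz with h10 | h10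
    · exact nb_ne76 hbz (hL b h10 hb)
    · exact hno b h10 hb hbz

/-- the contribution of a vertex of `N F` -/
noncomputable def ct36 (G : CG V) (F : Finset V) (t : V) : ℤ := by
  classical exact
  (if G.Low t then 4 * ((G.nb t ∩ F).card : ℤ) + 2 * ((G.nb t ∩ G.N F).card : ℤ) - 4 else 0) +
  (if ∃ s, G.Tw76 t s then 2 * ((G.nb t ∩ F).card : ℤ) + ((G.nb t ∩ G.N F).card : ℤ) - 7 else 0)

theorem ct_low36 {t : V} (h : G.Low t) : G.ct36 F t =
    4 * ((G.nb t ∩ F).card : ℤ) + 2 * ((G.nb t ∩ G.N F).card : ℤ) - 4 := by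
  unfold ct36
  rw [if_pos h, if_neg, add_zero]
  rintro ⟨s, hs⟩
  exact hs.not_low h

theorem ct_tw36 {t s : V} (h : G.Tw76 t s) : G.ct36 F t =
    2 * ((G.nb t ∩ F).card : ℤ) + ((G.nb t ∩ G.N F).card : ℤ) - 7 := by
  unfold ct36
  rw [if_neg h.not_low, if_pos ⟨s, h⟩, zero_add]

theorem ct_hub36 {t : V} (h : ¬ G.Low t) (h' : ¬ ∃ s, G.Tw76 t s) : G.ct36 F t = 0 := by
  unfold ct36
  rw [if_neg h, if_neg h', zero_add]

/-- a lower bound by a part of the sum -/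
theorem sum_ge36 {c : V → ℤ} {T S : Finset V} (hS : S ⊆ T) (h : ∀ t ∈ T, t ∉ S → 0 ≤ c t) :
    ∑ t ∈ S, c t ≤ ∑ t ∈ T, c t :=
  sum_le_sum_of_subset_of_nonneg hS h

theorem sum1_36 {c : V → ℤ} {T : Finset V} {a : V} (ha : a ∈ T) (h : ∀ t ∈ T, 0 ≤ c t) :
    c a ≤ ∑ t ∈ T, c t := single_le_sum (f := c) h ha

theorem sum2_36 {c : V → ℤ} {T : Finset V} {a b : V} (ha : a ∈ T) (hb : b ∈ T) (hab : a ≠ b)
    (h : ∀ t ∈ T, t ≠ a → t ≠ b → 0 ≤ c t) : c a + c b ≤ ∑ t ∈ T, c t := by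
  rw [← sum_pair hab]
  apply sum_ge36
  · intro x hx
    rw [mem_insert, mem_singleton] at hx
    rcases hx with rfl | rfl <;> assumption
  · intro t ht h1
    rw [mem_insert, mem_singleton, not_or] at h1
    exact h t ht h1.1 h1.2

theorem sum3_36 {c : V → ℤ} {T : Finset V} {a b d : V} (ha : a ∈ T) (hb : b ∈ T) (hd : d ∈ T)
    (hab : a ≠ b) (had : a ≠ d) (hbd : b ≠ d)
    (h : ∀ t ∈ T, t ≠ a → t ≠ b → t ≠ d → 0 ≤ c t) : c a + c b + c d ≤ ∑ t ∈ T, c t := by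
  have h1 : c a + c b + c d = ∑ t ∈ ({a, b, d} : Finset V), c t := by
    rw [sum_insert, sum_pair hbd, add_assoc]
    rw [mem_insert, mem_singleton, not_or]
    exact ⟨hab, had⟩
  rw [h1]
  apply sum_ge36
  · intro x hx
    rw [mem_insert, mem_insert, mem_singleton] at hx
    rcases hx with rfl | rfl | rfl <;> assumption
  · intro t ht h1
    rw [mem_insert, mem_insert, mem_singleton, not_or, not_or] at h1
    exact h t ht h1.1 h1.2.1 h1.2.2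

theorem sum4_36 {c : V → ℤ} {T : Finset V} {a b d e : V} (ha : a ∈ T) (hb : b ∈ T) (hd : d ∈ T)
    (he : e ∈ T) (hab : a ≠ b) (had : a ≠ d) (hae : a ≠ e) (hbd : b ≠ d) (hbe : b ≠ e)
    (hde : d ≠ e) (h : ∀ t ∈ T, t ≠ a → t ≠ b → t ≠ d → t ≠ e → 0 ≤ c t) :
    c a + c b + c d + c e ≤ ∑ t ∈ T, c t := by
  have h1 : c a + c b + c d + c e = ∑ t ∈ ({a, b, d, e} : Finset V), c t := by
    rw [sum_insert, sum_insert, sum_pair hde]
    · ring
    · rw [mem_insert, mem_singleton, not_or]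
      exact ⟨hbd, hbe⟩
    · rw [mem_insert, mem_insert, mem_singleton, not_or, not_or]
      exact ⟨hab, had, hae⟩
  rw [h1]
  apply sum_ge36
  · intro x hx
    rw [mem_insert, mem_insert, mem_insert, mem_singleton] at hx
    rcases hx with rfl | rfl | rfl | rfl <;> assumption
  · intro t ht h1
    rw [mem_insert, mem_insert, mem_insert, mem_singleton, not_or, not_or, not_or] at h1
    exact h t ht h1.1 h1.2.1 h1.2.2.1 h1.2.2.2

end CG

end Pool.Agent.Lib.MP_e95c01_co.N
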