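import Pool.Agent.Lib.MP_e95c01_co.N4.Th36a
import Pool.Agent.Lib.MP_e95c01_co.N4.Dom76

/-!
# Fragments with three vertices, exactly one of them low
-/

namespace Pool.Agent.Lib.MP_e95c01_co.N

open Finset

variable {V : Type} [Fintype V] [DecidableEq V]

namespace CG

variable {G : CG V} {F : Finset V}

theorem big9_36 (hF : G.Big F) : 9 ≤ Fintype.card V := by
  have h1 := card_union_of_disjoint (s := F) (t := G.N F) (by
    rw [disjoint_left]
    intro v h1 h2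
    exact nE36 h2 h1)
  have h2 := card_le_univ (F ∪ G.N F)
  have h3 := hF.1.2.1
  have h4 := hF.2.1
  omega

/-- a twin in `N F` with three neighbours in `F` has at most one other neighbour in `N F` -/
theorem tw_one36 (hF : G.Big F) {q q' : V} (hq : G.Tw76 q q') (hqT : q ∈ G.N F)
    (hf : 3 ≤ (G.nb q ∩ F).card) {s s' : V} (hs : s ∈ G.N F) (hsq : s ∈ G.nb q) (hne : s ≠ q')
    (hs' : s' ∈ G.N F) (hsq' : s' ∈ G.nb q) (hne' : s' ≠ q') : s = s' := by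
  by_contra hss
  have h1 := twh36 hF.1 (by have := hF.2.2; omega) hq hqT
  have h2 := G.part36 F q
  have h3 := hq.deg
  have h4 : ({q', s, s'} : Finset V) ⊆ G.nb q ∩ G.N F := by
    intro x hx
    rw [mem_insert, mem_insert, mem_singleton] at hx
    rw [mem_inter]
    rcases hx with rfl | rfl | rfl
    · exact ⟨hq.adj, twN36 hF.1 hq hqT⟩
    · exact ⟨hsq, hs⟩
    · exact ⟨hsq', hs'⟩
  have h5 := card_le_card h4
  rw [card_insert_of_notMem, card_pair hss] at h5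
  · omega
  · rw [mem_insert, mem_singleton, not_or]
    exact ⟨hne.symm, hne'.symm⟩

theorem tw_not36 (hF : G.Big F) {q q' : V} (hq : G.Tw76 q q') (hqT : q ∈ G.N F)
    (hf : 3 ≤ (G.nb q ∩ F).card) {s s' : V} (hs : s ∈ G.N F) (hsq : s ∈ G.nb q) (hne : s ≠ q')
    (hss : G.Tw76 s s') : False := by
  have h9 := big9_36 hF
  have h1 : s' ≠ q := by
    rintro rfl
    exact hne (mate76 h9 hss.symm hq)
  have h2 : s' ∈ G.nb q := by
    apply G.sym
    rw [← hss.iff (nb_ne76 hsq).symm h1.symm]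
    exact G.sym _ _ hsq
  have h3 : s' ≠ q' := by
    rintro rfl
    have h4 := mate76 h9 hss.symm hq.symm
    exact nb_ne76 hsq h4
  exact hss.ne (tw_one36 hF hq hqT hf hs hsq hne (twN36 hF.1 hss hs) h2 h3)

theorem tw_g36 (hF : G.Big F) {q q' : V} (hq : G.Tw76 q q') (hqT : q ∈ G.N F) :
    1 ≤ (G.nb q ∩ G.N F).card := by
  apply card_pos.2
  exact ⟨q', mem_inter.2 ⟨hq.adj, twN36 hF.1 hq hqT⟩⟩

theorem tw_g2_36 (hF : G.Big F) {q q' : V} (hq : G.Tw76 q q') (hqT : q ∈ G.N F) {s : V}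
    (hs : s ∈ G.N F) (hsq : s ∈ G.nb q) (hne : s ≠ q') : 2 ≤ (G.nb q ∩ G.N F).card := by
  have h4 : ({q', s} : Finset V) ⊆ G.nb q ∩ G.N F := by
    intro x hx
    rw [mem_insert, mem_singleton] at hx
    rw [mem_inter]
    rcases hx with rfl | rfl
    · exact ⟨hq.adj, twN36 hF.1 hq hqT⟩
    · exact ⟨hsq, hs⟩
  have h5 := card_le_card h4
  rwa [card_pair hne.symm] at h5

/-- a vertex of `N F` next to a twin pair has two neighbours in `N F` -/
theorem g_tw36 (hF : G.Big F) {q q' : V} (hq : G.Tw76 q q') (hqT : q ∈ G.N F) {t : V}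
    (hqt : q ∈ G.nb t) (hne : t ≠ q') : q' ∈ G.nb t ∧ 2 ≤ (G.nb t ∩ G.N F).card := by
  have h1 : q' ∈ G.nb t := by
    apply G.sym
    rw [← hq.iff (nb_ne76 hqt).symm hne]
    exact G.sym _ _ hqt
  refine ⟨h1, ?_⟩
  have h4 : ({q, q'} : Finset V) ⊆ G.nb t ∩ G.N F := by
    intro x hx
    rw [mem_insert, mem_singleton] at hx
    rw [mem_inter]
    rcases hx with rfl | rfl
    · exact ⟨hqt, hqT⟩
    · exact ⟨h1, twN36 hF.1 hq hqT⟩
  have h5 := card_le_card h4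
  rwa [card_pair hq.ne] at h5

theorem g1_36 {t w : V} (hw : w ∈ G.N F) (hwt : w ∈ G.nb t) :
    1 ≤ (G.nb t ∩ G.N F).card := card_pos.2 ⟨w, mem_inter.2 ⟨hwt, hw⟩⟩

/-- exactly one low vertex -/
structure L1 (G : CG V) (F : Finset V) (u z y : V) : Prop where
  t3 : G.T3 F
  fe : F = {u, z, y}
  uz : u ≠ z
  uy : u ≠ y
  zy : z ≠ y
  lu : G.Low u
  lz : ¬ G.Low z
  ly : ¬ G.Low y

variable {u z y : V}

theorem L1.swap (h : G.L1 F u z y) : G.L1 F u y z := by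
  refine ⟨h.t3, ?_, h.uy, h.uz, h.zy.symm, h.lu, h.ly, h.lz⟩
  rw [h.fe, pair_comm z y]

theorem L1.muF (h : G.L1 F u z y) : u ∈ F := by
  rw [h.fe]; exact mem_insert_self _ _

theorem L1.mzF (h : G.L1 F u z y) : z ∈ F := by
  rw [h.fe]; exact mem_insert_of_mem (mem_insert_self _ _)

theorem L1.myF (h : G.L1 F u z y) : y ∈ F := h.swap.mzF

theorem L1.casF (h : G.L1 F u z y) {v : V} (hv : v ∈ F) : v = u ∨ v = z ∨ v = y := by
  rw [h.fe, mem_insert, mem_insert, mem_singleton] at hv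
  exact hv

theorem L1.low (h : G.L1 F u z y) : ∀ v ∈ F, G.Low v → v = u := by
  intro v hv hl
  rcases h.casF hv with rfl | rfl | rfl
  · rfl
  · exact absurd hl h.lz
  · exact absurd hl h.ly

theorem L1.hL (h : G.L1 F u z y) : ∀ v ∈ F, ∀ w ∈ F, G.Low v → G.Low w → v = w := by
  intro v hv w hw h1 h2
  rw [h.low v hv h1, h.low w hw h2]

theorem L1.f (h : G.L1 F u z y) (t : V) : (G.nb t ∩ F).card =
    (if t ∈ G.nb u then 1 else 0) + (if t ∈ G.nb z then 1 else 0) +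
      (if t ∈ G.nb y then 1 else 0) := by
  rw [h.fe, three36 h.uz h.uy h.zy]
  have e : ∀ v, v ∈ G.nb t ↔ t ∈ G.nb v := fun v => ⟨G.sym _ _, G.sym _ _⟩
  simp only [e]

theorem L1.fpos (h : G.L1 F u z y) {t : V} (ht : t ∈ G.N F) :
    t ∈ G.nb u ∨ t ∈ G.nb z ∨ t ∈ G.nb y := by
  have h1 := fpos36 ht
  rw [h.f] at h1
  by_contra hcon
  rw [not_or, not_or] at hcon
  rw [if_neg hcon.1, if_neg hcon.2.1, if_neg hcon.2.2] at h1
  omega

/-- the vertices of `N F` missed by `u` -/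
theorem L1.cU (h : G.L1 F u z y) : (G.N F \ G.nb u).card =
    (if z ∈ G.nb u then 1 else 0) + (if y ∈ G.nb u then 1 else 0) := by
  have h1 := G.part36 F u
  have h2 : (G.nb u ∩ G.Co F).card = 0 := by
    rw [card_eq_zero]
    apply eq_empty_of_forall_notMem
    intro x hx
    rw [mem_inter] at hx
    exact noed36 h.muF hx.2 hx.1
  have h3 := card_sdiff_add_card_inter (G.N F) (G.nb u)
  have h4 : (G.nb u).card = 6 := h.lu
  have h5 := h.t3.big.1.2.1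
  have h6 := h.f u
  rw [if_neg (G.irr u)] at h6
  have e1 : u ∈ G.nb z ↔ z ∈ G.nb u := ⟨G.sym _ _, G.sym _ _⟩
  have e2 : u ∈ G.nb y ↔ y ∈ G.nb u := ⟨G.sym _ _, G.sym _ _⟩
  simp only [e1, e2] at h6
  rw [inter_comm] at h3
  omega

theorem L1.z_all (h : G.L1 F u z y) (h1 : u ∉ G.nb z) {t : V} (ht : t ∈ G.N F) : t ∈ G.nb z :=
  (h.t3.missF h.mzF h.lz h.muF h.uz ht).resolve_left h1

theorem L1.zm (h : G.L1 F u z y) {s t : V} (hst : s ≠ t) (hs : s ∈ G.N F) (ht : t ∈ G.N F)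
    (h1 : s ∉ G.nb z) : t ∈ G.nb z := (h.t3.missT h.mzF h.lz hst hs ht).resolve_left h1

theorem L1.noF (h : G.L1 F u z y) {p q : V} (hpq : G.Tw76 p q) (hp : p ∈ F) (hq : q ∈ F)
    (h1 : z ≠ p) (h2 : z ≠ q) : False := by
  have hpu : p ≠ u := fun e => hpq.not_low (e ▸ h.lu)
  have hqu : q ≠ u := fun e => hpq.symm.not_low (e ▸ h.lu)
  rcases h.casF hp with e | e | e
  · exact hpu e
  · exact h1 e.symm
  · rcases h.casF hq with e' | e' | e'
    · exact hqu e'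
    · exact h2 e'.symm
    · exact hpq.ne (e.trans e'.symm)

/-- covers of `z t`, `t` not adjacent to `u` -/
theorem L1.cov (h : G.L1 F u z y) {t : V} (ht : t ∈ G.N F) (hzt : t ∈ G.nb z)
    (hut : t ∉ G.nb u) :
    (∃ w ∈ G.N F, G.Low w ∧ w ∈ G.nb z ∧ w ∈ G.nb t) ∨
    (∃ p q, G.Tw76 p q ∧ p ∈ G.N F ∧ q ∈ G.N F ∧ p ∈ G.nb t ∧ t ≠ q) ∨
    (G.Low t ∧ ∃ a b, G.HL76 a b t ∧ G.Low b ∧ a ∈ G.N F ∧ b ∈ G.N F ∧ b ∈ G.nb z ∧
      a ∈ G.nb z) ∨
    (G.Low t ∧ G.HL76 y u t) ∨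
    (∃ b c, G.Low b ∧ G.Low c ∧ b ∈ G.N F ∧ c ∈ G.N F ∧ c ∈ G.nb b ∧ b ∈ G.nb z ∧
      c ∉ G.nb z ∧ c ∈ G.nb t ∧ b ∉ G.nb t ∧ b ≠ t) ∨
    (∃ b, G.Low b ∧ b ∈ G.N F ∧ b ∈ G.nb z ∧ b ∉ G.nb u ∧ b ∉ G.nb y ∧ b ∉ G.nb t ∧ b ≠ t) := by
  rcases h.t3.cover h.hL h.mzF h.lz ht hzt with h1 | ⟨w, hw, h1, h2, h3⟩ | h1 |
    ⟨p, q, hpq, hp, hq, h1, h2, h3⟩ | h1 | ⟨h1, a, b, h2, h3, h4, h5, h6, h7⟩ | h1 |
    ⟨b, h1, h2, h3, h4, h5, h6⟩
  · exact Or.inl h1
  · exfalso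
    rw [h.low w hw h1] at h3
    exact hut (G.sym _ _ h3)
  · exact Or.inr (Or.inl h1)
  · exact absurd (h.noF hpq hp hq h2 h3) not_false
  · exact Or.inr (Or.inr (Or.inl h1))
  · have e1 := h.low b h5 h3
    subst e1
    have e2 : a = y := by
      rcases h.casF h4 with e | e | e
      · exact absurd e (nb_ne76 h2.ab)
      · exact absurd e (nb_ne76 h7)
      · exact e
    subst e2
    exact Or.inr (Or.inr (Or.inr (Or.inl ⟨h1, h2⟩)))
  · exact Or.inr (Or.inr (Or.inr (Or.inr (Or.inl h1))))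
  · refine Or.inr (Or.inr (Or.inr (Or.inr (Or.inr ⟨b, h1, h2, h3, ?_, ?_, h5, h6⟩))))
    · intro h7
      exact h.uz (h4 u h.muF (G.sym _ _ h7))
    · intro h7
      exact h.zy (h4 y h.myF (G.sym _ _ h7)).symm

/-- covers of `z q`, `q` a twin -/
theorem L1.covT (h : G.L1 F u z y) {t s : V} (ht : t ∈ G.N F) (hts : G.Tw76 t s) :
    (∃ w ∈ G.N F, G.Low w ∧ w ∈ G.nb z ∧ w ∈ G.nb t) ∨ (u ∈ G.nb z ∧ u ∈ G.nb t) ∨
    (∃ p q, G.Tw76 p q ∧ p ∈ G.N F ∧ q ∈ G.N F ∧ p ∈ G.nb t ∧ t ≠ q) := by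
  rcases h.t3.coverT h.hL h.mzF h.lz ht hts with h1 | ⟨w, hw, h1, h2, h3⟩ | h1 |
    ⟨p, q, hpq, hp, hq, h1, h2, h3⟩
  · exact Or.inl h1
  · rw [h.low w hw h1] at h2 h3
    exact Or.inr (Or.inl ⟨h2, h3⟩)
  · exact Or.inr (Or.inr h1)
  · exact absurd (h.noF hpq hp hq h2 h3) not_false

/-- contributions are nonnegative, except for twins missed by `u` -/
theorem L1.ct0 (h : G.L1 F u z y) {t : V} (ht : t ∈ G.N F) (h1 : ∀ s, G.Tw76 t s → t ∈ G.nb u) :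
    0 ≤ G.ct36 F t := by
  by_cases hl : G.Low t
  · rw [ct_low36 hl]
    have := fpos36 ht
    omega
  by_cases hs : ∃ s, G.Tw76 t s
  · obtain ⟨s, hs⟩ := hs
    rw [ct_tw36 hs, h.f, if_pos (h1 s hs), if_pos (h.t3.tw h.mzF h.lz hs ht),
      if_pos (h.t3.tw h.myF h.ly hs ht)]
    have := tw_g36 h.t3.big hs ht
    push_cast
    omega
  · rw [ct_hub36 hl hs]

theorem L1.ftw (h : G.L1 F u z y) {q q' : V} (hq : G.Tw76 q q') (hqT : q ∈ G.N F)
    (hu : q ∈ G.nb u) : (G.nb q ∩ F).card = 3 := by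
  rw [h.f, if_pos hu, if_pos (h.t3.tw h.mzF h.lz hq hqT), if_pos (h.t3.tw h.myF h.ly hq hqT)]

/-- a pair missed by `u` -/
theorem L1.caseA (h : G.L1 F u z y) {p q : V} (hpq : G.Tw76 p q) (hp : p ∈ G.N F)
    (hu : p ∉ G.nb u) : 8 ≤ ∑ t ∈ G.N F, G.ct36 F t ∧
    ∀ c ∈ G.N F, c ∉ G.nb z → c ∉ G.nb y → G.Low c → 2 ≤ (G.nb c ∩ G.N F).card →
      12 ≤ ∑ t ∈ G.N F, G.ct36 F t := by
  have hF := h.t3.big
  have h9 := big9_36 hF
  have hq := twN36 hF.1 hpq hp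
  have huq : q ∉ G.nb u := by
    intro h1
    apply hu
    apply G.sym
    rw [hpq.iff (h.t3.ne h.muF hp).symm (h.t3.ne h.muF hq).symm]
    exact G.sym _ _ h1
  have hcard := h.cU
  have hle : (G.N F \ G.nb u).card ≤ 2 := by
    rw [hcard]
    split_ifs <;> omega
  have hU : ∀ t ∈ G.N F, t ≠ p → t ≠ q → t ∈ G.nb u := by
    intro t ht h1 h2
    by_contra h3
    have h4 : ({t, p, q} : Finset V) ⊆ G.N F \ G.nb u := by
      intro x hx
      rw [mem_insert, mem_insert, mem_singleton] at hx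
      rw [mem_sdiff]
      rcases hx with rfl | rfl | rfl
      · exact ⟨ht, h3⟩
      · exact ⟨hp, hu⟩
      · exact ⟨hq, huq⟩
    have h5 := card_le_card h4
    rw [card_insert_of_notMem, card_pair hpq.ne] at h5
    · omega
    · rw [mem_insert, mem_singleton, not_or]
      exact ⟨h1, h2⟩
  have hcp : -2 ≤ G.ct36 F p := by
    rw [ct_tw36 hpq]
    have := twf36 hF.1 (by have := hF.2.1; omega) hpq hp
    have := tw_g36 hF hpq hp
    omega
  have hcq : -2 ≤ G.ct36 F q := by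
    rw [ct_tw36 hpq.symm]
    have := twf36 hF.1 (by have := hF.2.1; omega) hpq.symm hq
    have := tw_g36 hF hpq.symm hq
    omega
  have hnn : ∀ t ∈ G.N F, t ≠ p → t ≠ q → 0 ≤ G.ct36 F t :=
    fun t ht h1 h2 => h.ct0 ht (fun s _ => hU t ht h1 h2)
  -- the cover of `z p`
  have key : ∀ z y : V, G.L1 F u z y → ∃ w ∈ G.N F, G.Low w ∧ w ∈ G.nb z ∧ w ∈ G.nb p := by
    intro z y h
    rcases h.covT hp hpq with h1 | h1 | ⟨r, r', hr, hrT, hrT', h1, h2⟩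
    · exact h1
    · exact absurd (G.sym _ _ h1.2) hu
    · exfalso
      have hrp : r ≠ p := nb_ne76 h1
      have hrq : r ≠ q := by
        rintro rfl
        exact h2 (mate76 h9 hpq.symm hr)
      exact tw_not36 hF hr hrT (by rw [h.ftw hr hrT (hU r hrT hrp hrq)]) hp (G.sym _ _ h1) h2 hpq
  obtain ⟨w, hw, hwl, hwz, hwp⟩ := key z y h
  obtain ⟨w', hw', hwl', hwz', hwp'⟩ := key y z h.swap
  have hc : ∀ w ∈ G.N F, G.Low w → w ∈ G.nb p → w ∈ G.nb z ∨ w ∈ G.nb y →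
      8 ≤ G.ct36 F w ∧ (w ∈ G.nb z → w ∈ G.nb y → 12 ≤ G.ct36 F w) := by
    intro w hw hwl hwp hzy
    have hwp1 : w ≠ p := nb_ne76 hwp
    have hwq : w ≠ q := fun e => hpq.symm.not_low (e ▸ hwl)
    have h1 := (g_tw36 hF hpq hp (G.sym _ _ hwp) hwq).2
    rw [ct_low36 hwl, h.f, if_pos (hU w hw hwp1 hwq)]
    constructor
    · rcases hzy with h2 | h2
      · rw [if_pos h2]
        push_cast
        split_ifs <;> omega
      · rw [if_pos h2]
        push_cast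
        split_ifs <;> omega
    · intro h2 h3
      rw [if_pos h2, if_pos h3]
      push_cast
      omega
  have hwp1 : w ≠ p := nb_ne76 hwp
  have hwq : w ≠ q := fun e => hpq.symm.not_low (e ▸ hwl)
  have hwp1' : w' ≠ p := nb_ne76 hwp'
  have hwq' : w' ≠ q := fun e => hpq.symm.not_low (e ▸ hwl')
  constructor
  · by_cases hww : w = w'
    · subst hww
      have h1 := (hc w hw hwl hwp (Or.inl hwz)).2 hwz hwz'
      have h2 := sum3_36 (c := G.ct36 F) hp hq hw hpq.ne hwp1.symm hwq.symm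
        (fun t ht h1 h2 _ => hnn t ht h1 h2)
      omega
    · have h1 := (hc w hw hwl hwp (Or.inl hwz)).1
      have h1' := (hc w' hw' hwl' hwp' (Or.inr hwz')).1
      have h2 := sum4_36 (c := G.ct36 F) hp hq hw hw' hpq.ne hwp1.symm hwp1'.symm hwq.symm
        hwq'.symm hww (fun t ht h1 h2 _ _ => hnn t ht h1 h2)
      omega
  · intro c hcT hcz hcy hcl hcg
    have hcw : c ≠ w := fun e => hcz (e ▸ hwz)
    have hwy : w ∈ G.nb y := h.swap.zm hcw hcT hw hcy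
    have h1 := (hc w hw hwl hwp (Or.inl hwz)).2 hwz hwy
    have h2 := sum4_36 (c := G.ct36 F) hp hq hw hcT hpq.ne hwp1.symm
      (fun e => hpq.not_low (e ▸ hcl)) hwq.symm (fun e => hpq.symm.not_low (e ▸ hcl)) hcw.symm
      (fun t ht h1 h2 _ _ => hnn t ht h1 h2)
    have h3 : 4 ≤ G.ct36 F c := by
      rw [ct_low36 hcl]
      have := fpos36 hcT
      omega
    omega

end CG

end Pool.Agent.Lib.MP_e95c01_co.N
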