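import Pool.Agent.Lib.MP_e95c01_co.N4.Th36b

/-!
# Fragments with three vertices, exactly one of them low: no pair missed by `u`
-/

namespace Pool.Agent.Lib.MP_e95c01_co.N

open Finset

variable {V : Type} [Fintype V] [DecidableEq V]

namespace CG

variable {G : CG V} {F : Finset V} {u z y : V}

theorem sum5_36 {c : V → ℤ} {T : Finset V} {a b d e k : V} (ha : a ∈ T) (hb : b ∈ T)
    (hd : d ∈ T) (he : e ∈ T) (hk : k ∈ T) (hnd : [a, b, d, e, k].Nodup)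
    (h : ∀ t ∈ T, 0 ≤ c t) : c a + c b + c d + c e + c k ≤ ∑ t ∈ T, c t := by
  have h1 : ∑ t ∈ ([a, b, d, e, k] : List V).toFinset, c t =
      c a + c b + c d + c e + c k := by
    rw [List.sum_toFinset c hnd]
    simp only [List.map_cons, List.map_nil, List.sum_cons, List.sum_nil]
    ring
  rw [← h1]
  apply sum_ge36
  · intro x hx
    rw [List.mem_toFinset] at hx
    simp only [List.mem_cons, List.not_mem_nil, or_false] at hx
    rcases hx with rfl | rfl | rfl | rfl | rfl <;> assumption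
  · intro t ht _
    exact h t ht

/-- a twin next to `t` contributes, and `t` has two neighbours in `N F` -/
theorem L1.tw1 (h : G.L1 F u z y) (hA : ∀ p q, G.Tw76 p q → p ∈ G.N F → p ∈ G.nb u)
    {p q t : V} (hpq : G.Tw76 p q) (hp : p ∈ G.N F) (ht : t ∈ G.N F) (hpt : p ∈ G.nb t)
    (htq : t ≠ q) : 1 ≤ G.ct36 F p ∧ 1 ≤ G.ct36 F q ∧ 2 ≤ (G.nb t ∩ G.N F).card ∧
      q ∈ G.N F ∧ q ∈ G.nb t ∧ (∀ s ∈ G.N F, s ∈ G.nb p → s ≠ q → s = t) := by
  have hF := h.t3.big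
  have hq := twN36 hF.1 hpq hp
  obtain ⟨h1, h2⟩ := g_tw36 hF hpq hp hpt htq
  have h3 := h.ftw hpq hp (hA p q hpq hp)
  have h4 := h.ftw hpq.symm hq (hA q p hpq.symm hq)
  have h5 := tw_g2_36 hF hpq hp ht (G.sym _ _ hpt) htq
  have h6 := tw_g2_36 hF hpq.symm hq ht (G.sym _ _ h1) (nb_ne76 hpt).symm
  refine ⟨?_, ?_, h2, hq, h1, ?_⟩
  · rw [ct_tw36 hpq]
    omega
  · rw [ct_tw36 hpq.symm]
    omega
  · intro s hs hsp hsq
    exact tw_one36 hF hpq hp (by omega) hs hsp hsq ht (G.sym _ _ hpt) htq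

/-- a twin in `N F` sees a low vertex of `N F` if `u` does not help at `z` -/
theorem L1.twlow (h : G.L1 F u z y) (hA : ∀ p q, G.Tw76 p q → p ∈ G.N F → p ∈ G.nb u)
    (huz : u ∉ G.nb z) {p q : V} (hpq : G.Tw76 p q) (hp : p ∈ G.N F) :
    ∃ w ∈ G.N F, G.Low w ∧ w ∈ G.nb z ∧ w ∈ G.nb p := by
  rcases h.covT hp hpq with h1 | h1 | ⟨r, r', hr, hrT, hrT', h1, h2⟩
  · exact h1
  · exact absurd h1.1 huz
  · exfalso
    exact tw_not36 h.t3.big hr hrT (by rw [h.ftw hr hrT (hA r r' hr hrT)]) hp (G.sym _ _ h1) h2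
      hpq

theorem L1.d0 (h : G.L1 F u z y) (hA : ∀ p q, G.Tw76 p q → p ∈ G.N F → p ∈ G.nb u)
    (hB : ∀ w ∈ G.N F, G.Low w → (G.nb w ∩ F).card ≤ 2) (h1 : z ∉ G.nb u) (h2 : y ∉ G.nb u) :
    False := by
  have hF := h.t3.big
  have hz : ∀ t ∈ G.N F, t ∈ G.nb z := fun t ht => h.z_all (fun e => h1 (G.sym _ _ e)) ht
  have hy : ∀ t ∈ G.N F, t ∈ G.nb y := fun t ht => h.swap.z_all (fun e => h2 (G.sym _ _ e)) ht
  have hu : ∀ t ∈ G.N F, t ∈ G.nb u := by
    intro t ht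
    by_contra h3
    have h4 := h.cU
    rw [if_neg h1, if_neg h2, card_eq_zero] at h4
    have : t ∈ G.N F \ G.nb u := mem_sdiff.2 ⟨ht, h3⟩
    rw [h4] at this
    exact absurd this (notMem_empty _)
  have hnl : ∀ t ∈ G.N F, ¬ G.Low t := by
    intro t ht hl
    have h3 := hB t ht hl
    rw [h.f, if_pos (hu t ht), if_pos (hz t ht), if_pos (hy t ht)] at h3
    omega
  obtain ⟨t, ht⟩ : (G.N F).Nonempty := by
    rw [← card_pos, hF.1.2.1]
    omega
  have key : ∀ t ∈ G.N F, ∃ p q, G.Tw76 p q ∧ p ∈ G.N F ∧ q ∈ G.N F ∧ p ∈ G.nb t ∧ t ≠ q := by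
    intro t ht
    rcases h.t3.coverU h.muF h.lu h.low (fun w hw hl => absurd hl (hnl w hw)) ht (hnl t ht)
      (hu t ht) with h3 | ⟨p, q, hpq, hp, hq, h3, h4, h5⟩ | ⟨a, b, h3, h4, h5, h6, h7, h8⟩ |
      ⟨a, ha, h3⟩
    · exact h3
    · rcases h.casF hp with e | e | e
      · exact absurd e.symm h4
      · exact absurd (e ▸ h3) h1
      · exact absurd (e ▸ h3) h2
    · exact absurd h4 (hnl b h6)
    · exact absurd (h3 z h.mzF (G.sym _ _ (hz a ha))).symm h.uz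
  obtain ⟨p, q, hpq, hp, hq, hpt, htq⟩ := key t ht
  obtain ⟨r, s, hrs, hr, hs, hrp, hps⟩ := key p hp
  exact tw_not36 hF hrs hr (by rw [h.ftw hrs hr (hu r hr)]) hp (G.sym _ _ hrp) hps hpq

theorem L1.nn (h : G.L1 F u z y) (hA : ∀ p q, G.Tw76 p q → p ∈ G.N F → p ∈ G.nb u) :
    ∀ t ∈ G.N F, 0 ≤ G.ct36 F t := fun t ht => h.ct0 ht (fun s hs => hA t s hs ht)

/-- two low vertices with two neighbours in `F` are enough -/
theorem L1.two (h : G.L1 F u z y) (hA : ∀ p q, G.Tw76 p q → p ∈ G.N F → p ∈ G.nb u)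
    {w w' : V} (hw : w ∈ G.N F) (hw' : w' ∈ G.N F) (hl : G.Low w) (hl' : G.Low w')
    (hne : w ≠ w') (h1 : 4 ≤ (G.nb w ∩ F).card + (G.nb w' ∩ F).card) :
    8 ≤ ∑ t ∈ G.N F, G.ct36 F t := by
  have h2 := sum2_36 (c := G.ct36 F) hw hw' hne (fun t ht _ _ => h.nn hA t ht)
  rw [ct_low36 hl, ct_low36 hl'] at h2
  omega

/-- `u` is adjacent to `z` only -/
theorem L1.d1 (h : G.L1 F u z y) (hA : ∀ p q, G.Tw76 p q → p ∈ G.N F → p ∈ G.nb u)
    (hB : ∀ w ∈ G.N F, G.Low w → (G.nb w ∩ F).card ≤ 2) (h1 : z ∈ G.nb u) (h2 : y ∉ G.nb u) :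
    8 ≤ ∑ t ∈ G.N F, G.ct36 F t ∧
      ∀ w ∈ G.N F, G.Low w → (∀ w' ∈ G.N F, G.Low w' → w' = w) → w ∉ G.nb u → w ∉ G.nb z →
        False := by
  have hF := h.t3.big
  have huy : u ∉ G.nb y := fun e => h2 (G.sym _ _ e)
  have hy : ∀ t ∈ G.N F, t ∈ G.nb y := fun t ht => h.swap.z_all huy ht
  have hU : ∀ s ∈ G.N F, ∀ t ∈ G.N F, s ∉ G.nb u → t ∉ G.nb u → s = t := by
    intro s hs t ht h3 h4
    have h5 := h.cU
    rw [if_pos h1, if_neg h2] at h5
    have h6 : (G.N F \ G.nb u).card ≤ 1 := by omega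
    rw [card_le_one] at h6
    exact h6 s (mem_sdiff.2 ⟨hs, h3⟩) t (mem_sdiff.2 ⟨ht, h4⟩)
  have hT2 : ∀ w ∈ G.N F, ∃ t ∈ G.N F, t ≠ w := by
    intro w hw
    have h3 : 0 < ((G.N F).erase w).card := by
      rw [card_erase_of_mem hw, hF.1.2.1]
      omega
    obtain ⟨t, ht⟩ := card_pos.1 h3
    exact ⟨t, mem_of_mem_erase ht, ne_of_mem_erase ht⟩
  -- the single low vertex
  have single : ∀ w ∈ G.N F, G.Low w → (∀ w' ∈ G.N F, G.Low w' → w' = w) → w ∉ G.nb u →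
      w ∉ G.nb z → False := by
    intro w hw hl hone hwu hwz
    obtain ⟨t, ht, htw⟩ := hT2 w hw
    have htu : t ∈ G.nb u := by
      by_contra h3
      exact htw (hU t ht w hw h3 hwu)
    have htl : ¬ G.Low t := fun e => htw (hone t ht e)
    rcases h.t3.coverU h.muF h.lu h.low (fun w' hw' hl' => by rw [hone w' hw' hl']; exact hwu)
      ht htl htu with ⟨p, q, hpq, hp, hq, h3, h4⟩ | ⟨p, q, hpq, hp, hq, h3, h4, h5⟩ |
      ⟨a, b, h3, h4, h5, h6, h7, h8⟩ | ⟨a, ha, h3⟩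
    · obtain ⟨w', hw', hl', -, h5⟩ := h.swap.twlow hA huy hpq hp
      rw [hone w' hw' hl'] at h5
      have h6 := (h.tw1 hA hpq hp ht h3 h4).2.2.2.2.2 w hw h5
        (fun e => hpq.symm.not_low (e ▸ hl))
      exact htw h6.symm
    · have hp1 : p ∈ G.nb u := h3
      rcases h.casF hp with e | e | e
      · exact h4 e.symm
      · rcases h.casF hq with e' | e' | e'
        · exact h5 e'.symm
        · exact hpq.ne (e.trans e'.symm)
        · subst e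
          subst e'
          exact huy ((hpq.iff h.uz h.uy).1 (G.sym _ _ h1))
      · exact h2 (e ▸ h3)
    · have e1 := hone b h6 h4
      subst e1
      have haw : a ≠ b := nb_ne76 h3.ab
      have haz : a ∈ G.nb z := h.zm haw.symm hw h5 hwz
      rcases (mem_HL36 h3 z).1 (G.sym _ _ haz) with e | e | e
      · exact h.uz e.symm
      · exact h.t3.ne h.mzF h6 e.symm
      · exact hwz (G.sym _ _ e.2)
    · exact h.uy (h3 y h.myF (G.sym _ _ (hy a ha))).symm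
  refine ⟨?_, single⟩
  by_cases htwo : ∃ w ∈ G.N F, ∃ w' ∈ G.N F, w ≠ w' ∧ G.Low w ∧ G.Low w'
  · obtain ⟨w, hw, w', hw', hne, hl, hl'⟩ := htwo
    apply h.two hA hw hw' hl hl' hne
    have c1 : w ∈ G.nb u ∨ w' ∈ G.nb u := by
      by_contra h3
      rw [not_or] at h3
      exact hne (hU w hw w' hw' h3.1 h3.2)
    have c2 : w ∈ G.nb z ∨ w' ∈ G.nb z := h.t3.missT h.mzF h.lz hne hw hw'
    rw [h.f, h.f, if_pos (hy w hw), if_pos (hy w' hw')]
    rcases c1 with c1 | c1 <;> rcases c2 with c2 | c2 <;> rw [if_pos c1, if_pos c2] <;>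
      (split_ifs <;> omega)
  have hone : ∀ w ∈ G.N F, G.Low w → ∀ w' ∈ G.N F, G.Low w' → w' = w := by
    intro w hw hl w' hw' hl'
    by_contra h3
    exact htwo ⟨w, hw, w', hw', fun e => h3 e.symm, hl, hl'⟩
  by_cases hex : ∃ w ∈ G.N F, G.Low w
  swap
  · exfalso
    have hnl : ∀ w ∈ G.N F, ¬ G.Low w := fun w hw hl => hex ⟨w, hw, hl⟩
    obtain ⟨t, ht, htu⟩ : ∃ t ∈ G.N F, t ∉ G.nb u := by
      have h5 := h.cU
      rw [if_pos h1, if_neg h2] at h5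
      obtain ⟨t, ht⟩ := card_pos.1 (by omega : 0 < (G.N F \ G.nb u).card)
      exact ⟨t, (mem_sdiff.1 ht).1, (mem_sdiff.1 ht).2⟩
    rcases h.swap.cov ht (hy t ht) htu with ⟨w, hw, hl, -⟩ | ⟨p, q, hpq, hp, -⟩ | ⟨hl, -⟩ |
      ⟨hl, -⟩ | ⟨b, c, hl, -, hb, -⟩ | ⟨b, hl, hb, -⟩
    · exact hnl w hw hl
    · obtain ⟨w, hw, hl, -⟩ := h.swap.twlow hA huy hpq hp
      exact hnl w hw hl
    · exact hnl t ht hl
    · exact hnl t ht hl
    · exact hnl b hb hl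
    · exact hnl b hb hl
  obtain ⟨w, hw, hl⟩ := hex
  have hone' := hone w hw hl
  by_cases h3 : w ∉ G.nb u ∧ w ∉ G.nb z
  · exact absurd (single w hw hl hone' h3.1 h3.2) not_false
  -- `w` dominates everything
  have hdom : ∀ t ∈ G.N F, t ≠ w → w ∈ G.nb t := by
    intro t ht htw
    have htl : ¬ G.Low t := fun e => htw (hone' t ht e)
    rcases h.t3.cover h.hL h.myF h.ly ht (hy t ht) with ⟨w', hw', hl', h4, h5⟩ |
      ⟨w', hw', hl', h4, h5⟩ | ⟨p, q, hpq, hp, hq, h4, h5⟩ | ⟨p, q, hpq, hp, hq, h4, h5, h6⟩ |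
      ⟨h4, -⟩ | ⟨h4, -⟩ | ⟨b, c, hb, hc, h4, h5, h6, h7, h8, h9, h10⟩ |
      ⟨b, hb, hbT, h4, h5, h6, h7⟩
    · rw [hone' w' hw' hl'] at h5
      exact h5
    · exact absurd h4 (by rw [h.low w' hw' hl']; exact huy)
    · exfalso
      obtain ⟨w', hw', hl', -, h6⟩ := h.swap.twlow hA huy hpq hp
      rw [hone' w' hw' hl'] at h6
      have h7 := (h.tw1 hA hpq hp ht h4 h5).2.2.2.2.2 w hw h6
        (fun e => hpq.symm.not_low (e ▸ hl))
      exact htw h7.symm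
    · exact absurd (h.swap.noF hpq hp hq h5 h6) not_false
    · exact absurd h4 htl
    · exact absurd h4 htl
    · exfalso
      have e1 := hone' b h4 hb
      have e2 := hone' c h5 hc
      rw [e1, e2] at h6
      exact G.irr _ h6
    · exfalso
      have e1 := hone' b hbT hb
      subst e1
      apply h3
      constructor
      · intro h8
        exact h.uy (h5 u h.muF (G.sym _ _ h8))
      · intro h8
        exact h.zy (h5 z h.mzF (G.sym _ _ h8))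
  have hg : 5 ≤ (G.nb w ∩ G.N F).card := by
    have h4 : (G.N F).erase w ⊆ G.nb w ∩ G.N F := by
      intro t ht
      rw [mem_erase] at ht
      exact mem_inter.2 ⟨G.sym _ _ (hdom t ht.2 ht.1), ht.2⟩
    have h5 := card_le_card h4
    rw [card_erase_of_mem hw, hF.1.2.1] at h5
    omega
  have h4 := sum1_36 (c := G.ct36 F) hw (h.nn hA)
  rw [ct_low36 hl] at h4
  have := fpos36 hw
  omega

end CG

end Pool.Agent.Lib.MP_e95c01_co.N
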