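import Pool.Agent.Lib.MP_e95c01_co.N4.Th36c

/-!
# Fragments with three vertices: `u` low and adjacent to both other vertices
-/

namespace Pool.Agent.Lib.MP_e95c01_co.N

open Finset

variable {V : Type} [Fintype V] [DecidableEq V]

namespace CG

variable {G : CG V} {F : Finset V}

/-- the situation of case (i) -/
structure L2 (G : CG V) (F : Finset V) (u z y s t : V) : Prop where
  l : G.L1 F u z y
  hA : ∀ p q, G.Tw76 p q → p ∈ G.N F → p ∈ G.nb u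
  hB : ∀ w ∈ G.N F, G.Low w → (G.nb w ∩ F).card ≤ 2
  hz : z ∈ G.nb u
  hy : y ∈ G.nb u
  st : s ≠ t
  hs : s ∈ G.N F
  ht : t ∈ G.N F
  su : s ∉ G.nb u
  tu : t ∉ G.nb u
  cas : ∀ x ∈ G.N F, x ∉ G.nb u → x = s ∨ x = t

variable {u z y s t : V}

theorem L2.swz (h : G.L2 F u z y s t) : G.L2 F u y z s t :=
  ⟨h.l.swap, h.hA, h.hB, h.hy, h.hz, h.st, h.hs, h.ht, h.su, h.tu, h.cas⟩

theorem L2.sws (h : G.L2 F u z y s t) : G.L2 F u z y t s :=
  ⟨h.l, h.hA, h.hB, h.hz, h.hy, h.st.symm, h.ht, h.hs, h.tu, h.su,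
    fun x hx hxu => (h.cas x hx hxu).symm⟩

theorem L2.zm (h : G.L2 F u z y s t) {x x' : V} (hne : x ≠ x') (hx : x ∈ G.N F)
    (hx' : x' ∈ G.N F) (h1 : x ∉ G.nb z) : x' ∈ G.nb z := h.l.zm hne hx hx' h1

/-- a low vertex next to `u` misses `z` or `y` -/
theorem L2.lowA (h : G.L2 F u z y s t) {w : V} (hw : w ∈ G.N F) (hl : G.Low w)
    (hu : w ∈ G.nb u) (hz : w ∈ G.nb z) (hy : w ∈ G.nb y) : False := by
  have h1 := h.hB w hw hl
  rw [h.l.f, if_pos hu, if_pos hz, if_pos hy] at h1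
  omega

theorem L2.lowU (h : G.L2 F u z y s t) {w : V} (hw : w ∈ G.N F) (hws : w ≠ s) (hwt : w ≠ t) :
    w ∈ G.nb u := by
  by_contra h1
  rcases h.cas w hw h1 with e | e
  · exact hws e
  · exact hwt e

/-- the covers of `z s` -/
theorem L2.cov (h : G.L2 F u z y s t) (hzs : s ∈ G.nb z) :
    (∃ w ∈ G.N F, G.Low w ∧ w ∈ G.nb z ∧ w ∈ G.nb s) ∨
    (∃ p q, G.Tw76 p q ∧ p ∈ G.N F ∧ q ∈ G.N F ∧ p ∈ G.nb s ∧ s ≠ q) ∨
    (G.Low s ∧ ∃ a b, G.HL76 a b s ∧ G.Low b ∧ a ∈ G.N F ∧ b ∈ G.N F ∧ b ∈ G.nb z ∧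
      a ∈ G.nb z) ∨
    (G.Low s ∧ G.HL76 y u s) ∨
    (∃ b c, G.Low b ∧ G.Low c ∧ b ∈ G.N F ∧ c ∈ G.N F ∧ c ∈ G.nb b ∧ b ∈ G.nb z ∧
      c ∉ G.nb z ∧ c ∈ G.nb s ∧ b ∉ G.nb s ∧ b ≠ s) ∨
    (G.Low t ∧ t ∈ G.nb z ∧ t ∉ G.nb y ∧ t ∉ G.nb s) := by
  rcases h.l.cov h.hs hzs h.su with h1 | h1 | h1 | h1 | h1 | ⟨b, h1, h2, h3, h4, h5, h6, h7⟩
  · exact Or.inl h1
  · exact Or.inr (Or.inl h1)
  · exact Or.inr (Or.inr (Or.inl h1))
  · exact Or.inr (Or.inr (Or.inr (Or.inl h1)))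
  · exact Or.inr (Or.inr (Or.inr (Or.inr (Or.inl h1))))
  · have e : b = t := by
      rcases h.cas b h2 h4 with e | e
      · exact absurd e h7
      · exact e
    subst e
    exact Or.inr (Or.inr (Or.inr (Or.inr (Or.inr ⟨h1, h3, h5, h6⟩))))

/-- `s` seen by `y` only: the low vertices of `N F` at `y` are absent, so a twin covers `y s` -/
theorem L2.tw_y (h : G.L2 F u z y s t) (hsz : s ∉ G.nb z) (hsy : s ∈ G.nb y)
    (hty : G.Low t → t ∉ G.nb y) :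
    ∃ p q, G.Tw76 p q ∧ p ∈ G.N F ∧ q ∈ G.N F ∧ p ∈ G.nb s ∧ s ≠ q := by
  -- no low vertex of `N F` different from `s` at `y`
  have hno : ∀ w ∈ G.N F, G.Low w → w ≠ s → w ∉ G.nb y := by
    intro w hw hl hws hwy
    have hwt : w ≠ t := fun e => hty (e ▸ hl) (e ▸ hwy)
    exact h.lowA hw hl (h.lowU hw hws hwt) (h.zm hws.symm h.hs hw hsz) hwy
  rcases h.swz.cov hsy with ⟨w, hw, hl, h1, h2⟩ | h1 | ⟨hl, a, b, h1, h2, h3, h4, h5, h6⟩ |
    ⟨hl, h1⟩ | ⟨b, c, h1, h2, h3, h4, h5, h6, h7, h8, h9, h10⟩ | ⟨hl, h1, -⟩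
  · exact absurd h1 (hno w hw hl (nb_ne76 h2))
  · exact h1
  · exact absurd h5 (hno b h4 h2 h1.tb.symm)
  · exact absurd ((mem_HL36 h1 s).2 (Or.inl rfl)) hsz
  · exact absurd h6 (hno b h3 h1 h10)
  · exact absurd h1 (hty hl)


theorem L2.fs (h : G.L2 F u z y s t) : (G.nb s ∩ F).card =
    (if s ∈ G.nb z then 1 else 0) + (if s ∈ G.nb y then 1 else 0) := by
  rw [h.l.f, if_neg h.su, zero_add]

theorem L2.g1a (h : G.L2 F u z y s t) (hsy : s ∈ G.nb y) (htz : t ∈ G.nb z)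
    (hty : t ∉ G.nb y) : 1 ≤ (G.nb s ∩ G.N F).card := by
  rcases h.swz.cov hsy with ⟨w, hw, hl, h1, h2⟩ | ⟨p, q, hpq, hp, hq, h1, h2⟩ |
    ⟨hl, a, b, h1, h2, h3, h4, h5, h6⟩ | ⟨hl, h1⟩ |
    ⟨b, c, h1, h2, h3, h4, h5, h6, h7, h8, h9, h10⟩ | ⟨hl, h1, -⟩
  · exact g1_36 hw h2
  · exact g1_36 hp h1
  · exact g1_36 h3 (G.sym _ _ ((mem_HL36 h1 s).2 (Or.inl rfl)))
  · exfalso
    rcases (mem_HL36 h1 t).1 htz with e | e | e
    · exact h.st e.symm
    · exact h.l.t3.ne h.l.muF h.ht e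
    · exact h.tu e.2
  · exact g1_36 h4 h8
  · exact absurd h1 hty

theorem L2.g1b (h : G.L2 F u z y s t) (htz : t ∈ G.nb z) (hty : t ∉ G.nb y)
    (hsy : s ∈ G.nb y) : 1 ≤ (G.nb t ∩ G.N F).card := by
  rcases h.sws.cov htz with ⟨w, hw, hl, h1, h2⟩ | ⟨p, q, hpq, hp, hq, h1, h2⟩ |
    ⟨hl, a, b, h1, h2, h3, h4, h5, h6⟩ | ⟨hl, h1⟩ |
    ⟨b, c, h1, h2, h3, h4, h5, h6, h7, h8, h9, h10⟩ | ⟨hl, h1, h2, h3⟩
  · exact g1_36 hw h2
  · exact g1_36 hp h1
  · exact g1_36 h3 (G.sym _ _ ((mem_HL36 h1 t).2 (Or.inl rfl)))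
  · exact absurd ((mem_HL36 h1 t).2 (Or.inl rfl)) hty
  · exact g1_36 h4 h8
  · exact absurd hsy h2

/-- three of the four edges -/
theorem L2.LL3 (h : G.L2 F u z y s t) (hs : G.Low s) (ht : G.Low t) (hsz : s ∈ G.nb z)
    (hsy : s ∈ G.nb y) (htz : t ∈ G.nb z) (hty : t ∉ G.nb y) :
    8 ≤ ∑ x ∈ G.N F, G.ct36 F x := by
  have h1 := sum2_36 (c := G.ct36 F) h.hs h.ht h.st (fun x hx _ _ => h.l.nn h.hA x hx)
  rw [ct_low36 hs, ct_low36 ht, h.fs, h.sws.fs, if_pos hsz, if_pos hsy, if_pos htz,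
    if_neg hty] at h1
  have h2 := h.g1a hsy htz hty
  have h3 := h.g1b htz hty hsy
  push_cast at h1
  omega

theorem L2.LL2 (h : G.L2 F u z y s t) (hs : G.Low s) (ht : G.Low t) (hsz : s ∉ G.nb z)
    (hsy : s ∈ G.nb y) (htz : t ∈ G.nb z) (hty : t ∉ G.nb y) :
    8 ≤ ∑ x ∈ G.N F, G.ct36 F x := by
  have h1 := sum2_36 (c := G.ct36 F) h.hs h.ht h.st (fun x hx _ _ => h.l.nn h.hA x hx)
  rw [ct_low36 hs, ct_low36 ht, h.fs, h.sws.fs, if_neg hsz, if_pos hsy, if_pos htz,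
    if_neg hty] at h1
  obtain ⟨p, q, hpq, hp, hq, h2, h3⟩ := h.tw_y hsz hsy (fun _ => hty)
  have h4 := (h.l.tw1 h.hA hpq hp h.hs h2 h3).2.2.1
  obtain ⟨p', q', hpq', hp', hq', h2', h3'⟩ := h.sws.swz.tw_y hty htz (fun _ => hsz)
  have h4' := (h.l.tw1 h.hA hpq' hp' h.ht h2' h3').2.2.1
  push_cast at h1
  omega

theorem L2.LL (h : G.L2 F u z y s t) (hs : G.Low s) (ht : G.Low t) :
    8 ≤ ∑ x ∈ G.N F, G.ct36 F x := by
  by_cases hsz : s ∈ G.nb z <;> by_cases hsy : s ∈ G.nb y <;> by_cases htz : t ∈ G.nb z <;>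
    by_cases hty : t ∈ G.nb y
  · have h1 := sum2_36 (c := G.ct36 F) h.hs h.ht h.st (fun x hx _ _ => h.l.nn h.hA x hx)
    rw [ct_low36 hs, ct_low36 ht, h.fs, h.sws.fs, if_pos hsz, if_pos hsy, if_pos htz,
      if_pos hty] at h1
    push_cast at h1
    omega
  · exact h.LL3 hs ht hsz hsy htz hty
  · exact h.swz.LL3 hs ht hsy hsz hty htz
  · have := h.sws.fs
    rw [if_neg htz, if_neg hty] at this
    have := fpos36 h.ht
    omega
  · exact h.sws.LL3 ht hs htz hty hsz hsy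
  · exact absurd (h.swz.zm h.st h.hs h.ht hsy) hty
  · exact h.swz.LL2 hs ht hsy hsz hty htz
  · exact absurd (h.swz.zm h.st h.hs h.ht hsy) hty
  · exact h.sws.swz.LL3 ht hs hty htz hsy hsz
  · exact h.LL2 hs ht hsz hsy htz hty
  · exact absurd (h.zm h.st h.hs h.ht hsz) htz
  · exact absurd (h.zm h.st h.hs h.ht hsz) htz
  · have := h.fs
    rw [if_neg hsz, if_neg hsy] at this
    have := fpos36 h.hs
    omega
  · exact absurd (h.swz.zm h.st h.hs h.ht hsy) hty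
  · exact absurd (h.zm h.st h.hs h.ht hsz) htz
  · exact absurd (h.zm h.st h.hs h.ht hsz) htz

/-- two low vertices next to `u` -/
theorem L2.twoA (h : G.L2 F u z y s t) {w w' : V} (hw : w ∈ G.N F) (hw' : w' ∈ G.N F)
    (hl : G.Low w) (hl' : G.Low w') (hne : w ≠ w') (hu : w ∈ G.nb u) (hu' : w' ∈ G.nb u) :
    8 ≤ ∑ x ∈ G.N F, G.ct36 F x := by
  apply h.l.two h.hA hw hw' hl hl' hne
  rw [h.l.f, h.l.f, if_pos hu, if_pos hu']
  have c1 := h.l.t3.missT h.l.mzF h.l.lz hne hw hw'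
  have c2 := h.l.t3.missT h.l.myF h.l.ly hne hw hw'
  rcases c1 with c1 | c1 <;> rcases c2 with c2 | c2 <;> rw [if_pos c1, if_pos c2] <;>
    (split_ifs <;> omega)

/-- `s` low, `t` not, exactly one more low vertex `w`, missed by `y` -/
theorem L2.LNb (h : G.L2 F u z y s t) (hs : G.Low s) (ht : ¬ G.Low t) {w : V}
    (hw : w ∈ G.N F) (hl : G.Low w) (hws : w ≠ s)
    (hone : ∀ x ∈ G.N F, G.Low x → x = s ∨ x = w) (hwy : w ∉ G.nb y) :
    8 ≤ ∑ x ∈ G.N F, G.ct36 F x := by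
  have hwt : w ≠ t := fun e => ht (e ▸ hl)
  have hwu := h.lowU hw hws hwt
  have hsy : s ∈ G.nb y := h.swz.zm hws hw h.hs hwy
  by_cases hwz : w ∈ G.nb z
  · have h1 := sum2_36 (c := G.ct36 F) h.hs hw hws.symm (fun x hx _ _ => h.l.nn h.hA x hx)
    rw [ct_low36 hs, ct_low36 hl, h.fs, h.l.f w, if_pos hsy, if_pos hwu, if_pos hwz,
      if_neg hwy] at h1
    by_cases hsz : s ∈ G.nb z
    · rw [if_pos hsz] at h1
      push_cast at h1
      omega
    · rw [if_neg hsz] at h1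
      obtain ⟨p, q, hpq, hp, hq, h2, h3⟩ := h.tw_y hsz hsy (fun e => absurd e ht)
      have h4 := (h.l.tw1 h.hA hpq hp h.hs h2 h3).2.2.1
      push_cast at h1
      omega
  · have hsz : s ∈ G.nb z := h.zm hws hw h.hs hwz
    have h1 := sum1_36 (c := G.ct36 F) h.hs (h.l.nn h.hA)
    rw [ct_low36 hs, h.fs, if_pos hsy, if_pos hsz] at h1
    have hno : ∀ x ∈ G.N F, G.Low x → x ≠ s → x ∉ G.nb z := by
      intro x hx hxl hxs
      rcases hone x hx hxl with e | e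
      · exact absurd e hxs
      · rw [e]; exact hwz
    have hg : 2 ≤ (G.nb s ∩ G.N F).card := by
      rcases h.cov hsz with ⟨x, hx, hxl, h2, h3⟩ | ⟨p, q, hpq, hp, hq, h2, h3⟩ |
        ⟨-, a, b, h2, h3, h4, h5, h6, h7⟩ | ⟨-, h2⟩ |
        ⟨b, c, h1, h2, h3, h4, h5, h6, h7, h8, h9, h10⟩ | ⟨h2, -⟩
      · exact absurd h2 (hno x hx hxl (nb_ne76 h3))
      · exact (h.l.tw1 h.hA hpq hp h.hs h2 h3).2.2.1
      · exact absurd h6 (hno b h5 h3 h2.tb.symm)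
      · exact absurd ((mem_HL36 h2 w).2 (Or.inr (Or.inr ⟨h.l.t3.ne h.l.myF hw, hwu⟩))) hwy
      · exact absurd h6 (hno b h3 h1 h10)
      · exact absurd h2 ht
    push_cast at h1
    omega

/-- `s` is the only low vertex of `N F`, seen by `y` only -/
theorem L2.LNc (h : G.L2 F u z y s t) (hs : G.Low s) (ht : ¬ G.Low t)
    (hone : ∀ x ∈ G.N F, G.Low x → x = s) (hsz : s ∉ G.nb z) (hsy : s ∈ G.nb y) :
    8 ≤ ∑ x ∈ G.N F, G.ct36 F x := by
  have hF := h.l.t3.big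
  have h9 := big9_36 hF
  have htz : t ∈ G.nb z := h.zm h.st h.hs h.ht hsz
  obtain ⟨p, q, hpq, hp, hq, h2, h3⟩ := h.tw_y hsz hsy (fun e => absurd e ht)
  obtain ⟨a1, a2, a3, a4, a5, a6⟩ := h.l.tw1 h.hA hpq hp h.hs h2 h3
  obtain ⟨p', q', hpq', hp', hq', h2', h3'⟩ : ∃ p q, G.Tw76 p q ∧ p ∈ G.N F ∧ q ∈ G.N F ∧
      p ∈ G.nb t ∧ t ≠ q := by
    rcases h.sws.cov htz with ⟨x, hx, hxl, h2, h3⟩ | h1 | ⟨h1, -⟩ | ⟨h1, -⟩ |
      ⟨b, c, h1, h2, h3, h4, h5, h6, h7, h8, h9, h10⟩ | ⟨-, h1, -⟩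
    · rw [hone x hx hxl] at h2
      exact absurd h2 hsz
    · exact h1
    · exact absurd h1 ht
    · exact absurd h1 ht
    · rw [hone b h3 h1] at h6
      exact absurd h6 hsz
    · exact absurd h1 hsz
  obtain ⟨b1, b2, b3, b4, b5, b6⟩ := h.l.tw1 h.hA hpq' hp' h.ht h2' h3'
  have htp : t ≠ p := fun e => h.tu (e ▸ h.hA p q hpq hp)
  have htq : t ≠ q := fun e => h.tu (e ▸ h.hA q p hpq.symm hq)
  have hpt : p ∉ G.nb t := fun e => h.st (a6 t h.ht (G.sym _ _ e) htq).symm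
  have hqt : q ∉ G.nb t := by
    intro e
    apply hpt
    apply G.sym
    rw [hpq.iff htp htq]
    exact G.sym _ _ e
  have hpp : p ≠ p' := fun e => hpt (e ▸ h2')
  have hpq1 : p ≠ q' := fun e => hpt (e ▸ b5)
  have hqp : q ≠ p' := fun e => hqt (e ▸ h2')
  have hqq : q ≠ q' := fun e => hqt (e ▸ b5)
  have h1 := sum5_36 (c := G.ct36 F) h.hs hp hq hp' hq' (by
    simp only [List.nodup_cons, List.mem_cons, List.not_mem_nil, or_false, not_or,
      not_false_eq_true, List.nodup_nil, and_true]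
    exact ⟨⟨hpq.ne_low hs, hpq.symm.ne_low hs, hpq'.ne_low hs, hpq'.symm.ne_low hs⟩,
      ⟨hpq.ne, hpp, hpq1⟩, ⟨hqp, hqq⟩, hpq'.ne⟩) (h.l.nn h.hA)
  rw [ct_low36 hs] at h1
  have := fpos36 h.hs
  omega

theorem L2.LN (h : G.L2 F u z y s t) (hs : G.Low s) (ht : ¬ G.Low t) :
    8 ≤ ∑ x ∈ G.N F, G.ct36 F x := by
  by_cases h2 : ∃ w ∈ G.N F, ∃ w' ∈ G.N F, w ≠ w' ∧ G.Low w ∧ G.Low w' ∧ w ≠ s ∧ w' ≠ s
  · obtain ⟨w, hw, w', hw', hne, hl, hl', h3, h4⟩ := h2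
    exact h.twoA hw hw' hl hl' hne (h.lowU hw h3 (fun e => ht (e ▸ hl)))
      (h.lowU hw' h4 (fun e => ht (e ▸ hl')))
  by_cases h3 : ∃ w ∈ G.N F, G.Low w ∧ w ≠ s
  · obtain ⟨w, hw, hl, hws⟩ := h3
    have hone : ∀ x ∈ G.N F, G.Low x → x = s ∨ x = w := by
      intro x hx hxl
      by_contra hcon
      rw [not_or] at hcon
      exact h2 ⟨x, hx, w, hw, hcon.2, hxl, hl, hcon.1, hws⟩
    have hwu := h.lowU hw hws (fun e => ht (e ▸ hl))
    by_cases hwy : w ∈ G.nb y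
    · have hwz : w ∉ G.nb z := fun e => h.lowA hw hl hwu e hwy
      exact h.swz.LNb hs ht hw hl hws hone hwz
    · exact h.LNb hs ht hw hl hws hone hwy
  have hone : ∀ x ∈ G.N F, G.Low x → x = s := by
    intro x hx hxl
    by_contra hcon
    exact h3 ⟨x, hx, hxl, hcon⟩
  by_cases hsz : s ∈ G.nb z
  swap
  · have hsy : s ∈ G.nb y := by
      rcases h.l.fpos h.hs with e | e | e
      · exact absurd e h.su
      · exact absurd e hsz
      · exact e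
    exact h.LNc hs ht hone hsz hsy
  by_cases hsy : s ∈ G.nb y
  swap
  · exact h.swz.LNc hs ht hone hsy hsz
  -- both
  have key : ∀ z y : V, G.L2 F u z y s t → s ∈ G.nb z →
      (2 ≤ (G.nb s ∩ G.N F).card) ∨ t ∉ G.nb y := by
    intro z y h hsz
    rcases h.cov hsz with ⟨x, hx, hxl, h2, h3⟩ | ⟨p, q, hpq, hp, hq, h2, h3⟩ |
      ⟨-, a, b, h2, h3, h4, h5, h6, h7⟩ | ⟨-, h2⟩ |
      ⟨b, c, h1, h2, h3, h4, h5, h6, h7, h8, h9, h10⟩ | ⟨h2, -⟩
    · exact absurd (hone x hx hxl) (nb_ne76 h3)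
    · exact Or.inl (h.l.tw1 h.hA hpq hp h.hs h2 h3).2.2.1
    · exact absurd (hone b h5 h3) h2.tb.symm
    · right
      intro e
      rcases (mem_HL36 h2 t).1 e with e | e | e
      · exact h.st e.symm
      · exact h.l.t3.ne h.l.muF h.ht e
      · exact h.tu e.2
    · exact absurd (hone b h3 h1) h10
    · exact absurd h2 ht
  have hg : 2 ≤ (G.nb s ∩ G.N F).card := by
    rcases key z y h hsz with h4 | h4
    · exact h4
    rcases key y z h.swz hsy with h5 | h5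
    · exact h5
    exfalso
    rcases h.l.fpos h.ht with e | e | e
    · exact h.tu e
    · exact h5 e
    · exact h4 e
  have h1 := sum1_36 (c := G.ct36 F) h.hs (h.l.nn h.hA)
  rw [ct_low36 hs, h.fs, if_pos hsy, if_pos hsz] at h1
  push_cast at h1
  omega

/-- `s` not low, no low vertex of `N F` at `z`: a twin covers `z s` -/
theorem L2.tw_n (h : G.L2 F u z y s t) (hs : ¬ G.Low s) (ht : ¬ G.Low t)
    (hno : ∀ w ∈ G.N F, G.Low w → w ∉ G.nb z) (hsz : s ∈ G.nb z) :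
    ∃ p q, G.Tw76 p q ∧ p ∈ G.N F ∧ q ∈ G.N F ∧ p ∈ G.nb s ∧ s ≠ q := by
  rcases h.cov hsz with ⟨x, hx, hxl, h2, h3⟩ | h1 | ⟨h1, -⟩ | ⟨h1, -⟩ |
    ⟨b, c, h1, h2, h3, h4, h5, h6, h7, h8, h9, h10⟩ | ⟨h1, -⟩
  · exact absurd h2 (hno x hx hxl)
  · exact h1
  · exact absurd h1 hs
  · exact absurd h1 hs
  · exact absurd h6 (hno b h3 h1)
  · exact absurd h1 ht

/-- two twin pairs at `s` and `t` -/
theorem L2.six (h : G.L2 F u z y s t) {p q p' q' : V} (hpq : G.Tw76 p q) (hp : p ∈ G.N F)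
    (h2 : p ∈ G.nb s) (h3 : s ≠ q) (hpq' : G.Tw76 p' q') (hp' : p' ∈ G.N F)
    (h2' : p' ∈ G.nb t) (h3' : t ≠ q') : [s, t, p, q, p', q'].Nodup ∧
      ∀ x ∈ [s, t, p, q, p', q'], x ∈ G.N F := by
  have hF := h.l.t3.big
  obtain ⟨a1, a2, a3, a4, a5, a6⟩ := h.l.tw1 h.hA hpq hp h.hs h2 h3
  obtain ⟨b1, b2, b3, b4, b5, b6⟩ := h.l.tw1 h.hA hpq' hp' h.ht h2' h3'
  have htp : t ≠ p := fun e => h.tu (e ▸ h.hA p q hpq hp)
  have htq : t ≠ q := fun e => h.tu (e ▸ h.hA q p hpq.symm a4)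
  have hsp : s ≠ p := fun e => h.su (e ▸ h.hA p q hpq hp)
  have hsp' : s ≠ p' := fun e => h.su (e ▸ h.hA p' q' hpq' hp')
  have hsq' : s ≠ q' := fun e => h.su (e ▸ h.hA q' p' hpq'.symm b4)
  have htp' : t ≠ p' := fun e => h.tu (e ▸ h.hA p' q' hpq' hp')
  have hpt : p ∉ G.nb t := fun e => h.st (a6 t h.ht (G.sym _ _ e) htq).symm
  have hqt : q ∉ G.nb t := by
    intro e
    apply hpt
    apply G.sym
    rw [hpq.iff htp htq]
    exact G.sym _ _ e
  have hpp : p ≠ p' := fun e => hpt (e ▸ h2')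
  have hpq1 : p ≠ q' := fun e => hpt (e ▸ b5)
  have hqp : q ≠ p' := fun e => hqt (e ▸ h2')
  have hqq : q ≠ q' := fun e => hqt (e ▸ b5)
  constructor
  · simp only [List.nodup_cons, List.mem_cons, List.not_mem_nil, or_false, not_or,
      not_false_eq_true, List.nodup_nil, and_true]
    exact ⟨⟨h.st, hsp, h3, hsp', hsq'⟩, ⟨htp, htq, htp', h3'⟩, ⟨hpq.ne, hpp, hpq1⟩,
      ⟨hqp, hqq⟩, hpq'.ne⟩
  · intro x hx
    simp only [List.mem_cons, List.not_mem_nil, or_false] at hx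
    rcases hx with rfl | rfl | rfl | rfl | rfl | rfl
    · exact h.hs
    · exact h.ht
    · exact hp
    · exact a4
    · exact hp'
    · exact b4

theorem L2.NNb (h : G.L2 F u z y s t) (hs : ¬ G.Low s) (ht : ¬ G.Low t) {w : V}
    (hw : w ∈ G.N F) (hl : G.Low w) (hone : ∀ x ∈ G.N F, G.Low x → x = w)
    (hwz : w ∉ G.nb z) : False := by
  have hF := h.l.t3.big
  have hno : ∀ x ∈ G.N F, G.Low x → x ∉ G.nb z := by
    intro x hx hxl
    rw [hone x hx hxl]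
    exact hwz
  have hws : w ≠ s := fun e => hs (e ▸ hl)
  have hwt : w ≠ t := fun e => ht (e ▸ hl)
  obtain ⟨p, q, hpq, hp, hq, h2, h3⟩ := h.tw_n hs ht hno (h.zm hws hw h.hs hwz)
  obtain ⟨p', q', hpq', hp', hq', h2', h3'⟩ := h.sws.tw_n ht hs hno (h.zm hwt hw h.ht hwz)
  obtain ⟨h4, h5⟩ := h.six hpq hp h2 h3 hpq' hp' h2' h3'
  have h6 : (w :: [s, t, p, q, p', q']).Nodup := by
    rw [List.nodup_cons]
    refine ⟨?_, h4⟩
    simp only [List.mem_cons, List.not_mem_nil, or_false, not_or]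
    exact ⟨hws, hwt, hpq.ne_low hl, hpq.symm.ne_low hl, hpq'.ne_low hl, hpq'.symm.ne_low hl⟩
  have h7 : ((w :: [s, t, p, q, p', q']).toFinset).card ≤ (G.N F).card := by
    apply card_le_card
    intro x hx
    rw [List.mem_toFinset, List.mem_cons] at hx
    rcases hx with rfl | hx
    · exact hw
    · exact h5 x hx
  rw [List.toFinset_card_of_nodup h6, hF.1.2.1] at h7
  simp only [List.length_cons, List.length_nil] at h7
  omega

theorem L2.NNc (h : G.L2 F u z y s t) (hno : ∀ x ∈ G.N F, ¬ G.Low x) : False := by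
  have hF := h.l.t3.big
  have key : ∀ s t : V, G.L2 F u z y s t →
      ∃ p q, G.Tw76 p q ∧ p ∈ G.N F ∧ q ∈ G.N F ∧ p ∈ G.nb s ∧ s ≠ q := by
    intro s t h
    rcases h.l.fpos h.hs with e | e | e
    · exact absurd e h.su
    · exact h.tw_n (hno s h.hs) (hno t h.ht) (fun w hw hl => absurd hl (hno w hw)) e
    · exact h.swz.tw_n (hno s h.hs) (hno t h.ht) (fun w hw hl => absurd hl (hno w hw)) e
  obtain ⟨p, q, hpq, hp, hq, h2, h3⟩ := key s t h
  obtain ⟨p', q', hpq', hp', hq', h2', h3'⟩ := key t s h.sws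
  obtain ⟨h4, h5⟩ := h.six hpq hp h2 h3 hpq' hp' h2' h3'
  have hT : ∀ x ∈ G.N F, x = s ∨ x = t ∨ ∃ r, G.Tw76 x r := by
    have h6 : [s, t, p, q, p', q'].toFinset = G.N F := by
      apply eq_of_subset_of_card_le
      · intro x hx
        rw [List.mem_toFinset] at hx
        exact h5 x hx
      · rw [List.toFinset_card_of_nodup h4, hF.1.2.1]
        exact le_refl _
    intro x hx
    rw [← h6, List.mem_toFinset] at hx
    simp only [List.mem_cons, List.not_mem_nil, or_false] at hx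
    rcases hx with e | e | e | e | e | e
    · exact Or.inl e
    · exact Or.inr (Or.inl e)
    · exact Or.inr (Or.inr ⟨q, e ▸ hpq⟩)
    · exact Or.inr (Or.inr ⟨p, e ▸ hpq.symm⟩)
    · exact Or.inr (Or.inr ⟨q', e ▸ hpq'⟩)
    · exact Or.inr (Or.inr ⟨p', e ▸ hpq'.symm⟩)
  rcases h.l.t3.coverU h.l.muF h.l.lu h.l.low (fun w hw hl => absurd hl (hno w hw)) hp
    (hno p hp) (h.hA p q hpq hp) with ⟨r, r', hr, hrT, -, h6, h7⟩ |
    ⟨r, r', hr, hrF, hrF', h6, h7, h8⟩ | ⟨a, b, h6, h7, h8, h9, -⟩ | ⟨a, ha, h6⟩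
  · exact tw_not36 hF hr hrT (by rw [h.l.ftw hr hrT (h.hA r r' hr hrT)]) hp (G.sym _ _ h6) h7
      hpq
  · -- twins `z y`
    have hzy : G.Tw76 z y := by
      rcases h.l.casF hrF with e | e | e
      · exact absurd e.symm h7
      · rcases h.l.casF hrF' with e' | e' | e'
        · exact absurd e'.symm h8
        · exact absurd (e.trans e'.symm) hr.ne
        · rw [← e, ← e']; exact hr
      · rcases h.l.casF hrF' with e' | e' | e'
        · exact absurd e'.symm h8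
        · rw [← e, ← e']; exact hr.symm
        · exact absurd (e.trans e'.symm) hr.ne
    obtain ⟨x, hx, hxz⟩ : ∃ x ∈ G.N F, x ∉ G.nb z := by
      by_contra hcon
      push Not at hcon
      have h9 := G.part36 F z
      have h10 : (G.nb z ∩ G.N F).card = 6 := by
        rw [inter_eq_right.2 (fun x hx => hcon x hx), hF.1.2.1]
      have h11 := h.l.f z
      rw [if_pos h.hz, if_neg (G.irr z), if_pos (G.sym _ _ hzy.adj)] at h11
      have h12 := hzy.deg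
      omega
    have hxy : x ∉ G.nb y := by
      intro e
      apply hxz
      rw [hzy.iff (h.l.t3.ne h.l.mzF hx) (h.l.t3.ne h.l.myF hx)]
      exact e
    rcases hT x hx with e | e | ⟨r0, e⟩
    · subst e
      rcases h.l.fpos hx with e | e | e
      · exact h.su e
      · exact hxz e
      · exact hxy e
    · subst e
      rcases h.l.fpos hx with e | e | e
      · exact h.tu e
      · exact hxz e
      · exact hxy e
    · exact hxz (h.l.t3.tw h.l.mzF h.l.lz e hx)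
  · exact hno b h9 h7
  · have haz : a ∉ G.nb z := fun e => h.l.uz (h6 z h.l.mzF (G.sym _ _ e)).symm
    have hay : a ∉ G.nb y := fun e => h.l.uy (h6 y h.l.myF (G.sym _ _ e)).symm
    rcases hT a ha with e | e | ⟨r0, e⟩
    · subst e
      rcases h.l.fpos ha with e | e | e
      · exact h.su e
      · exact haz e
      · exact hay e
    · subst e
      rcases h.l.fpos ha with e | e | e
      · exact h.tu e
      · exact haz e
      · exact hay e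
    · exact haz (h.l.t3.tw h.l.mzF h.l.lz e ha)

theorem L2.NN (h : G.L2 F u z y s t) (hs : ¬ G.Low s) (ht : ¬ G.Low t) :
    8 ≤ ∑ x ∈ G.N F, G.ct36 F x := by
  by_cases h2 : ∃ w ∈ G.N F, ∃ w' ∈ G.N F, w ≠ w' ∧ G.Low w ∧ G.Low w'
  · obtain ⟨w, hw, w', hw', hne, hl, hl'⟩ := h2
    exact h.twoA hw hw' hl hl' hne (h.lowU hw (fun e => hs (e ▸ hl)) (fun e => ht (e ▸ hl)))
      (h.lowU hw' (fun e => hs (e ▸ hl')) (fun e => ht (e ▸ hl')))
  exfalso
  by_cases h3 : ∃ w ∈ G.N F, G.Low w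
  · obtain ⟨w, hw, hl⟩ := h3
    have hone : ∀ x ∈ G.N F, G.Low x → x = w := by
      intro x hx hxl
      by_contra hcon
      exact h2 ⟨x, hx, w, hw, hcon, hxl, hl⟩
    have hwu := h.lowU hw (fun e => hs (e ▸ hl)) (fun e => ht (e ▸ hl))
    by_cases hwz : w ∈ G.nb z
    · exact h.swz.NNb hs ht hw hl hone (fun e => h.lowA hw hl hwu hwz e)
    · exact h.NNb hs ht hw hl hone hwz
  · exact h.NNc (fun x hx hl => h3 ⟨x, hx, hl⟩)

theorem L2.main (h : G.L2 F u z y s t) : 8 ≤ ∑ x ∈ G.N F, G.ct36 F x := by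
  by_cases hs : G.Low s
  · by_cases ht : G.Low t
    · exact h.LL hs ht
    · exact h.LN hs ht
  · by_cases ht : G.Low t
    · exact h.sws.LN ht hs
    · exact h.NN hs ht

/-- exactly one low vertex in `F` -/
theorem L1.main (h : G.L1 F u z y) : 8 ≤ ∑ x ∈ G.N F, G.ct36 F x := by
  by_cases hA : ∀ p q, G.Tw76 p q → p ∈ G.N F → p ∈ G.nb u
  swap
  · push Not at hA
    obtain ⟨p, q, hpq, hp, hu⟩ := hA
    exact (h.caseA hpq hp hu).1
  by_cases hB : ∀ w ∈ G.N F, G.Low w → (G.nb w ∩ F).card ≤ 2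
  swap
  · push Not at hB
    obtain ⟨w, hw, hl, h1⟩ := hB
    have h2 := sum1_36 (c := G.ct36 F) hw (h.nn hA)
    rw [ct_low36 hl] at h2
    omega
  by_cases hz : z ∈ G.nb u
  · by_cases hy : y ∈ G.nb u
    · have h1 := h.cU
      rw [if_pos hz, if_pos hy] at h1
      obtain ⟨s, t, hst, h2⟩ := card_eq_two.1 h1
      have hs : s ∈ G.N F \ G.nb u := by rw [h2]; exact mem_insert_self _ _
      have ht : t ∈ G.N F \ G.nb u := by
        rw [h2]; exact mem_insert_of_mem (mem_singleton_self _)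
      rw [mem_sdiff] at hs ht
      have hL2 : G.L2 F u z y s t := ⟨h, hA, hB, hz, hy, hst, hs.1, ht.1, hs.2, ht.2, by
        intro x hx hxu
        have : x ∈ G.N F \ G.nb u := mem_sdiff.2 ⟨hx, hxu⟩
        rw [h2, mem_insert, mem_singleton] at this
        exact this⟩
      exact hL2.main
    · exact (h.d1 hA hB hz hy).1
  · by_cases hy : y ∈ G.nb u
    · exact (h.swap.d1 hA hB hy hz).1
    · exact absurd (h.d0 hA hB hz hy) not_false

end CG

end Pool.Agent.Lib.MP_e95c01_co.N
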