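import Pool.Agent.Lib.MP_e95c01_co.N4.Th36b

/-!
# Fragments with three vertices, none of them low
-/

namespace Pool.Agent.Lib.MP_e95c01_co.N

open Finset

variable {V : Type} [Fintype V] [DecidableEq V]

namespace CG

variable {G : CG V} {F : Finset V}

/-- no low vertex in `F` -/
structure L0 (G : CG V) (F : Finset V) : Prop where
  t3 : G.T3 F
  nl : ∀ v ∈ F, ¬ G.Low v

theorem L0.hL (h : G.L0 F) : ∀ v ∈ F, ∀ w ∈ F, G.Low v → G.Low w → v = w :=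
  fun v hv _ _ h1 _ => absurd h1 (h.nl v hv)

theorem L0.third (h : G.L0 F) {x y : V} (hx : x ∈ F) (hy : y ∈ F) (hxy : x ≠ y) :
    ∃ z ∈ F, z ≠ x ∧ z ≠ y ∧ ∀ v ∈ F, v = x ∨ v = y ∨ v = z := by
  have h1 : ((F.erase x).erase y).card = 1 := by
    rw [card_erase_of_mem (mem_erase.2 ⟨hxy.symm, hy⟩), card_erase_of_mem hx, h.t3.c3]
  obtain ⟨z, hz⟩ := card_eq_one.1 h1
  have h2 : z ∈ (F.erase x).erase y := by rw [hz]; exact mem_singleton_self _
  rw [mem_erase, mem_erase] at h2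
  refine ⟨z, h2.2.2, h2.2.1, h2.1, ?_⟩
  intro v hv
  by_contra hcon
  rw [not_or, not_or] at hcon
  have h3 : v ∈ (F.erase x).erase y := mem_erase.2 ⟨hcon.2.1, mem_erase.2 ⟨hcon.1, hv⟩⟩
  rw [hz, mem_singleton] at h3
  exact hcon.2.2 h3

theorem L0.cov (h : G.L0 F) {z t : V} (hz : z ∈ F) (ht : t ∈ G.N F) (hzt : t ∈ G.nb z) :
    (∃ w ∈ G.N F, G.Low w ∧ w ∈ G.nb z ∧ w ∈ G.nb t) ∨
    (∃ p q, G.Tw76 p q ∧ p ∈ G.N F ∧ q ∈ G.N F ∧ p ∈ G.nb t ∧ t ≠ q) ∨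
    (∃ p q, G.Tw76 p q ∧ p ∈ F ∧ q ∈ F ∧ p ∈ G.nb t ∧ z ≠ p ∧ z ≠ q) ∨
    (G.Low t ∧ ∃ a b, G.HL76 a b t ∧ G.Low b ∧ a ∈ G.N F ∧ b ∈ G.N F ∧ b ∈ G.nb z ∧
      a ∈ G.nb z) ∨
    (∃ b c, G.Low b ∧ G.Low c ∧ b ∈ G.N F ∧ c ∈ G.N F ∧ c ∈ G.nb b ∧ b ∈ G.nb z ∧
      c ∉ G.nb z ∧ c ∈ G.nb t ∧ b ∉ G.nb t ∧ b ≠ t) ∨
    (∃ b, G.Low b ∧ b ∈ G.N F ∧ b ∈ G.nb z ∧ (∀ v ∈ F, v ∈ G.nb b → v = z) ∧
      b ∉ G.nb t ∧ b ≠ t) := by
  rcases h.t3.cover h.hL hz (h.nl z hz) ht hzt with h1 | ⟨w, hw, h1, -⟩ | h1 | h1 | h1 |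
    ⟨-, a, b, -, h1, -, h2, -⟩ | h1 | h1
  · exact Or.inl h1
  · exact absurd h1 (h.nl w hw)
  · exact Or.inr (Or.inl h1)
  · exact Or.inr (Or.inr (Or.inl h1))
  · exact Or.inr (Or.inr (Or.inr (Or.inl h1)))
  · exact absurd h1 (h.nl b h2)
  · exact Or.inr (Or.inr (Or.inr (Or.inr (Or.inl h1))))
  · exact Or.inr (Or.inr (Or.inr (Or.inr (Or.inr h1))))

theorem L0.covT (h : G.L0 F) {z t s : V} (hz : z ∈ F) (ht : t ∈ G.N F) (hts : G.Tw76 t s) :
    (∃ w ∈ G.N F, G.Low w ∧ w ∈ G.nb z ∧ w ∈ G.nb t) ∨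
    (∃ p q, G.Tw76 p q ∧ p ∈ F ∧ q ∈ F ∧ p ∈ G.nb t ∧ z ≠ p ∧ z ≠ q) := by
  have hF := h.t3.big
  rcases h.t3.coverT h.hL hz (h.nl z hz) ht hts with h1 | ⟨w, hw, h1, -⟩ |
    ⟨p, q, hpq, hp, hq, h1, h2⟩ | h1
  · exact Or.inl h1
  · exact absurd h1 (h.nl w hw)
  · exfalso
    have h3 : 3 ≤ (G.nb p ∩ F).card := by
      rw [inter_eq_right.2 (fun v hv => G.sym _ _ (h.t3.tw hv (h.nl v hv) hpq hp)), h.t3.c3]
    exact tw_not36 hF hpq hp h3 ht (G.sym _ _ h1) h2 hts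
  · exact Or.inr h1

theorem L0.ftw (h : G.L0 F) {p q : V} (hpq : G.Tw76 p q) (hp : p ∈ G.N F) :
    (G.nb p ∩ F).card = 3 := by
  rw [inter_eq_right.2 (fun v hv => G.sym _ _ (h.t3.tw hv (h.nl v hv) hpq hp)), h.t3.c3]

theorem L0.one (h : G.L0 F) {p q s t : V} (hpq : G.Tw76 p q) (hp : p ∈ G.N F) (hs : s ∈ G.N F)
    (hsp : s ∈ G.nb p) (hsq : s ≠ q) (ht : t ∈ G.N F) (htp : t ∈ G.nb p) (htq : t ≠ q) :
    s = t := tw_one36 h.t3.big hpq hp (by rw [h.ftw hpq hp]) hs hsp hsq ht htp htq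

theorem L0.mT (h : G.L0 F) {z s t : V} (hz : z ∈ F) (hst : s ≠ t) (hs : s ∈ G.N F)
    (ht : t ∈ G.N F) (h1 : s ∉ G.nb z) : t ∈ G.nb z :=
  (h.t3.missT hz (h.nl z hz) hst hs ht).resolve_left h1

/-- a twin pair of `F` which avoids `z` contains every other vertex of `F` -/
theorem L0.pair (h : G.L0 F) {z p q x : V} (hz : z ∈ F) (hpq : G.Tw76 p q) (hp : p ∈ F)
    (hq : q ∈ F) (hzp : z ≠ p) (hzq : z ≠ q) (hx : x ∈ F) (hxz : x ≠ z) :
    ∃ x', G.Tw76 x x' ∧ x' ∈ F ∧ x' ≠ z ∧ (x = p ∨ x = q) := by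
  obtain ⟨r, hr, h1, h2, h3⟩ := h.third hp hq hpq.ne
  have hzr : z = r := by
    rcases h3 z hz with e | e | e
    · exact absurd e hzp
    · exact absurd e hzq
    · exact e
  rcases h3 x hx with e | e | e
  · exact ⟨q, e ▸ hpq, hq, hzq.symm, Or.inl e⟩
  · exact ⟨p, e ▸ hpq.symm, hp, hzp.symm, Or.inr e⟩
  · exact absurd (e.trans hzr.symm) hxz

/-- there is no twin pair avoiding `z` if `x` and `y` are different and adjacent differently -/
theorem L0.nopair (h : G.L0 F) {z p q x y w : V} (hz : z ∈ F) (hpq : G.Tw76 p q) (hp : p ∈ F)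
    (hq : q ∈ F) (hzp : z ≠ p) (hzq : z ≠ q) (hx : x ∈ F) (hxz : x ≠ z) (hy : y ∈ F)
    (hyz : y ≠ z) (hw : w ∈ G.N F) (hwx : w ∈ G.nb x) (hwy : w ∉ G.nb y) : False := by
  have hxy : x ≠ y := by rintro rfl; exact hwy hwx
  obtain ⟨x', -, -, -, h1⟩ := h.pair hz hpq hp hq hzp hzq hx hxz
  obtain ⟨y', -, -, -, h2⟩ := h.pair hz hpq hp hq hzp hzq hy hyz
  have hwp := h.t3.ne hp hw
  have hwq := h.t3.ne hq hw
  have h3 := hpq.iff hwp hwq
  rcases h1 with e | e <;> rcases h2 with e' | e'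
  · exact hxy (e.trans e'.symm)
  · rw [e] at hwx
    rw [e'] at hwy
    exact hwy (h3.1 hwx)
  · rw [e] at hwx
    rw [e'] at hwy
    exact hwy (h3.2 hwx)
  · exact hxy (e.trans e'.symm)

/-- some vertex of `F` is in no twin pair avoided by ... -/
theorem L0.good (h : G.L0 F) {z : V} (hz : z ∈ F) :
    (∀ p q, G.Tw76 p q → p ∈ F → q ∈ F → z ≠ p → z ≠ q → False) ∨
    (∀ z' ∈ F, z' ≠ z → ∀ p q, G.Tw76 p q → p ∈ F → q ∈ F → z' ≠ p → z' ≠ q → False) := by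
  have h9 := big9_36 h.t3.big
  by_cases h1 : ∀ p q, G.Tw76 p q → p ∈ F → q ∈ F → z ≠ p → z ≠ q → False
  · exact Or.inl h1
  right
  push Not at h1
  obtain ⟨p, q, hpq, hp, hq, h2, h3, -⟩ := h1
  intro z' hz' hne r s hrs hr hs h4 h5
  obtain ⟨z'', h6, h7, h8, -⟩ := h.pair hz hpq hp hq h2 h3 hz' hne
  obtain ⟨y, hy1, hy2, hy3, -⟩ := h.pair hz' hrs hr hs h4 h5 h7 h6.ne.symm
  have h10 := mate76 h9 h6.symm hy1
  exact hy3 h10.symm

/-- at most one low vertex in `N F`: contradiction at a vertex that does not see it -/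
theorem L0.few (h : G.L0 F) {z t : V} (hz : z ∈ F) (ht : t ∈ G.N F) (hzt : t ∈ G.nb z)
    (htl : ¬ G.Low t) (hno : ∀ w ∈ G.N F, G.Low w → w ∉ G.nb z)
    (hgood : ∀ p q, G.Tw76 p q → p ∈ F → q ∈ F → z ≠ p → z ≠ q → False) : False := by
  rcases h.cov hz ht hzt with ⟨w, hw, hl, h1, -⟩ | ⟨p, q, hpq, hp, hq, h1, h2⟩ |
    ⟨p, q, hpq, hp, hq, h1, h2, h3⟩ | ⟨h1, -⟩ | ⟨b, c, hb, hc, h1, h2, h3, h4, -⟩ |
    ⟨b, hb, h1, h2, -⟩
  · exact hno w hw hl h1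
  · rcases h.covT hz hp hpq with ⟨w, hw, hl, h3, -⟩ | ⟨r, s, hrs, hr, hs, -, h3, h4⟩
    · exact hno w hw hl h3
    · exact hgood r s hrs hr hs h3 h4
  · exact hgood p q hpq hp hq h2 h3
  · exact htl h1
  · exact hno b h1 hb h4
  · exact hno b h1 hb h2

theorem L0.exT (h : G.L0 F) (w : V) : ∃ t ∈ G.N F, t ≠ w := by
  have h3 : 0 < ((G.N F).erase w).card := by
    have := pred_card_le_card_erase (s := G.N F) (a := w)
    rw [h.t3.big.1.2.1] at this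
    omega
  obtain ⟨t, ht⟩ := card_pos.1 h3
  exact ⟨t, mem_of_mem_erase ht, ne_of_mem_erase ht⟩

/-- there are two low vertices in `N F` -/
theorem L0.twolow (h : G.L0 F) (w : V)
    (hone : ∀ x ∈ G.N F, G.Low x → x = w) : False := by
  have hF := h.t3.big
  by_cases hw : w ∈ G.N F ∧ G.Low w
  swap
  · -- no low vertex
    have hno : ∀ x ∈ G.N F, ¬ G.Low x := by
      intro x hx hl
      exact hw (by rw [← hone x hx hl]; exact ⟨hx, hl⟩)
    obtain ⟨z0, hz0⟩ := hF.1.1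
    have hex : ∃ z ∈ F, ∀ p q, G.Tw76 p q → p ∈ F → q ∈ F → z ≠ p → z ≠ q → False := by
      rcases h.good hz0 with h1 | h1
      · exact ⟨z0, hz0, h1⟩
      · have h3 : 0 < (F.erase z0).card := by
          rw [card_erase_of_mem hz0, h.t3.c3]; omega
        obtain ⟨z, hz⟩ := card_pos.1 h3
        exact ⟨z, mem_of_mem_erase hz, h1 z (mem_of_mem_erase hz) (ne_of_mem_erase hz)⟩
    obtain ⟨z, hz, hg⟩ := hex
    have hzT : ∃ t ∈ G.N F, t ∈ G.nb z := by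
      obtain ⟨t, ht, -⟩ := h.exT z
      obtain ⟨t', ht', hne⟩ := h.exT t
      rcases h.t3.missT hz (h.nl z hz) hne ht' ht with h1 | h1
      · exact ⟨t', ht', h1⟩
      · exact ⟨t, ht, h1⟩
    obtain ⟨t, ht, hzt⟩ := hzT
    exact h.few hz ht hzt (hno t ht) (fun w hw hl => absurd hl (hno w hw)) hg
  obtain ⟨hw, hl⟩ := hw
  have h1 := fpos36 hw
  by_cases hf : (G.nb w ∩ F).card = 1
  · -- one neighbour
    obtain ⟨z3, hz3⟩ := card_eq_one.1 hf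
    have hm : ∀ v ∈ F, v ∈ G.nb w → v = z3 := by
      intro v hv hvw
      have : v ∈ G.nb w ∩ F := mem_inter.2 ⟨hvw, hv⟩
      rw [hz3, mem_singleton] at this
      exact this
    have hz3m : z3 ∈ G.nb w ∩ F := by rw [hz3]; exact mem_singleton_self _
    rw [mem_inter] at hz3m
    have h3 : 0 < (F.erase z3).card := by
      rw [card_erase_of_mem hz3m.2, h.t3.c3]; omega
    obtain ⟨z1, hz1⟩ := card_pos.1 h3
    have hz1F := mem_of_mem_erase hz1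
    have hz13 := ne_of_mem_erase hz1
    obtain ⟨z2, hz2F, hz21, hz23, -⟩ := h.third hz1F hz3m.2 hz13
    have hw1 : w ∉ G.nb z1 := fun e => hz13 (hm z1 hz1F (G.sym _ _ e))
    have hw2 : w ∉ G.nb z2 := fun e => hz23 (hm z2 hz2F (G.sym _ _ e))
    obtain ⟨t, ht, htw⟩ := h.exT w
    refine h.few hz1F ht (h.mT hz1F htw.symm hw ht hw1) (fun e => htw (hone t ht e)) ?_ ?_
    · intro x hx hxl
      rw [hone x hx hxl]
      exact hw1
    · intro p q hpq hp hq h4 h5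
      exact h.nopair hz1F hpq hp hq h4 h5 hz3m.2 hz13.symm hz2F hz21 hw (G.sym _ _ hz3m.1) hw2
  · -- at least two neighbours
    have hex : ∃ z ∈ F, w ∈ G.nb z ∧
        ∀ p q, G.Tw76 p q → p ∈ F → q ∈ F → z ≠ p → z ≠ q → False := by
      obtain ⟨z, hz, z', hz', hne⟩ := one_lt_card.1 (by omega : 1 < (G.nb w ∩ F).card)
      rw [mem_inter] at hz hz'
      rcases h.good hz.2 with h2 | h2
      · exact ⟨z, hz.2, G.sym _ _ hz.1, h2⟩
      · exact ⟨z', hz'.2, G.sym _ _ hz'.1, h2 z' hz'.2 hne.symm⟩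
    obtain ⟨z, hz, hwz, hg⟩ := hex
    have hdom : ∀ t ∈ G.N F, t ≠ w → t ∈ G.nb z → t ∈ G.nb w := by
      intro t ht htw hzt
      rcases h.cov hz ht hzt with ⟨x, hx, hxl, h1, h2⟩ | ⟨p, q, hpq, hp, hq, h1, h2⟩ |
        ⟨p, q, hpq, hp, hq, h1, h2, h3⟩ | ⟨h1, -⟩ | ⟨b, c, hb, hc, h1, h2, h3, h4, -⟩ |
        ⟨b, hb, hbT, h2, h3, -⟩
      · rw [hone x hx hxl] at h2
        exact G.sym _ _ h2
      · exfalso
        rcases h.covT hz hp hpq with ⟨x, hx, hxl, h3, h4⟩ | ⟨r, s, hrs, hr, hs, -, h3, h4⟩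
        · rw [hone x hx hxl] at h4
          exact htw (h.one hpq hp ht (G.sym _ _ h1) h2 hw h4 (fun e => hpq.symm.not_low (e ▸ hl)))
        · exact hg r s hrs hr hs h3 h4
      · exact absurd (hg p q hpq hp hq h2 h3) not_false
      · exact absurd (hone t ht h1) htw
      · exfalso
        rw [hone b h1 hb, hone c h2 hc] at h3
        exact G.irr _ h3
      · exfalso
        rw [hone b hbT hb] at h3
        obtain ⟨x, hx, x', hx', hne⟩ := one_lt_card.1 (by omega : 1 < (G.nb w ∩ F).card)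
        rw [mem_inter] at hx hx'
        exact hne ((h3 x hx.2 hx.1).trans (h3 x' hx'.2 hx'.1).symm)
    have h2 : (G.N F \ G.nb z).card ≤ 1 := by
      rw [card_le_one]
      intro a ha b hb
      rw [mem_sdiff] at ha hb
      by_contra hab
      exact hb.2 (h.mT hz hab ha.1 hb.1 ha.2)
    have h3 : ((G.N F ∩ G.nb z).erase w) ⊆ G.nb w ∩ G.N F := by
      intro t ht
      rw [mem_erase, mem_inter] at ht
      exact mem_inter.2 ⟨hdom t ht.2.1 ht.1 ht.2.2, ht.2.1⟩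
    have h4 := card_le_card h3
    rw [card_erase_of_mem (mem_inter.2 ⟨hw, hwz⟩)] at h4
    have h5 := card_sdiff_add_card_inter (G.N F) (G.nb z)
    have h6 := hF.1.2.1
    have h7 := G.part36 F w
    have h8 := hpos36 hF.1 hw
    have h9 : (G.nb w).card = 6 := hl
    omega

/-- the case of two low vertices which are missed by different vertices of `F` -/
theorem L0.dif (h : G.L0 F) {w v z x : V} (hw : w ∈ G.N F) (hv : v ∈ G.N F) (hwl : G.Low w)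
    (hvl : G.Low v) (hwv : w ≠ v) (hone : ∀ y ∈ G.N F, G.Low y → y = w ∨ y = v) (hz : z ∈ F)
    (hx : x ∈ F) (hzw : w ∉ G.nb z) (hxv : v ∉ G.nb x) : False := by
  have hF := h.t3.big
  have h9 := big9_36 hF
  have hzv : v ∈ G.nb z := h.mT hz hwv hw hv hzw
  have hxw : w ∈ G.nb x := h.mT hx hwv.symm hv hw hxv
  have hzx : z ≠ x := by rintro rfl; exact hzw hxw
  -- twins next to `v` and to `w`
  have key : ∀ w v z x : V, w ∈ G.N F → v ∈ G.N F → G.Low w → G.Low v → w ≠ v →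
      (∀ y ∈ G.N F, G.Low y → y = w ∨ y = v) → z ∈ F → x ∈ F → w ∉ G.nb z → v ∉ G.nb x →
      v ∈ G.nb z → z ≠ x → ∃ p q, G.Tw76 p q ∧ p ∈ G.N F ∧ q ∈ G.N F ∧ p ∈ G.nb v ∧ v ≠ q := by
    intro w v z x hw hv hwl hvl hwv hone hz hx hzw hxv hzv hzx
    have hno : ∀ y ∈ G.N F, G.Low y → y ≠ v → y ∉ G.nb z := by
      intro y hy hyl hyv
      rcases hone y hy hyl with e | e
      · rw [e]; exact hzw
      · exact absurd e hyv
    rcases h.cov hz hv hzv with ⟨y, hy, hyl, h1, h2⟩ | h1 |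
      ⟨p, q, hpq, hp, hq, h1, h2, h3⟩ | ⟨-, a, b, h1, h2, h3, h4, h5, h6⟩ |
      ⟨b, c, hb, hc, h1, h2, h3, h4, h5, h6, h7, h8⟩ | ⟨b, hb, h1, h2, h3, h4, h5⟩
    · exact absurd h1 (hno y hy hyl (nb_ne76 h2))
    · exact h1
    · exfalso
      obtain ⟨x', h4, h5, h6, h7⟩ := h.pair hz hpq hp hq h2 h3 hx hzx.symm
      apply hxv
      rcases h7 with e | e
      · rw [e]; exact G.sym _ _ h1
      · rw [e]
        exact (hpq.iff (h.t3.ne hp hv) (h.t3.ne hq hv)).1 (G.sym _ _ h1)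
    · exact absurd h5 (hno b h4 h2 h1.tb.symm)
    · exact absurd h4 (hno b h1 hb h8)
    · exact absurd h2 (hno b h1 hb h5)
  obtain ⟨q, q', hq, hqT, hqT', h1, h2⟩ := key w v z x hw hv hwl hvl hwv hone hz hx hzw hxv hzv hzx
  obtain ⟨p, p', hp, hpT, hpT', h3, h4⟩ := key v w x z hv hw hvl hwl hwv.symm
    (fun y hy hyl => (hone y hy hyl).symm) hx hz hxv hzw hxw hzx.symm
  -- the edge `z p`
  have e1 : ∃ r s, G.Tw76 r s ∧ r ∈ F ∧ s ∈ F ∧ r ∈ G.nb p ∧ z ≠ r ∧ z ≠ s := by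
    rcases h.covT hz hpT hp with ⟨y, hy, hyl, h5, h6⟩ | h5
    · exfalso
      rcases hone y hy hyl with e | e
      · exact hzw (e ▸ h5)
      · rw [e] at h6
        exact hwv (h.one hp hpT hw (G.sym _ _ h3) h4 hv h6 (fun e => hp.symm.not_low (e ▸ hvl)))
    · exact h5
  have e2 : ∃ r s, G.Tw76 r s ∧ r ∈ F ∧ s ∈ F ∧ r ∈ G.nb q ∧ x ≠ r ∧ x ≠ s := by
    rcases h.covT hx hqT hq with ⟨y, hy, hyl, h5, h6⟩ | h5
    · exfalso
      rcases hone y hy hyl with e | e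
      · rw [e] at h6
        exact hwv (h.one hq hqT hw h6 (fun e => hq.symm.not_low (e ▸ hwl)) hv (G.sym _ _ h1) h2)
      · exact hxv (e ▸ h5)
    · exact h5
  obtain ⟨r, s, hrs, hr, hs, -, h5, h6⟩ := e1
  obtain ⟨r', s', hrs', hr', hs', -, h5', h6'⟩ := e2
  rcases h.good hz with h7 | h7
  · exact h7 r s hrs hr hs h5 h6
  · exact h7 x hx hzx.symm r' s' hrs' hr' hs' h5' h6'

/-- the case of two low vertices, one of them missed by two vertices of `F`, the other seen by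
all -/
theorem L0.full (h : G.L0 F) {w v z x y : V} (hw : w ∈ G.N F) (hv : v ∈ G.N F)
    (hwl : G.Low w) (hvl : G.Low v) (hwv : w ≠ v)
    (hone : ∀ y ∈ G.N F, G.Low y → y = w ∨ y = v) (hz : z ∈ F) (hx : x ∈ F) (hy : y ∈ F)
    (hzx : z ≠ x) (hyz : y ≠ z) (hzw : w ∉ G.nb z) (hxw : w ∉ G.nb x) (hyw : w ∈ G.nb y)
    (hall : ∀ a ∈ F, v ∈ G.nb a) : False := by
  have hF := h.t3.big
  have h9 := big9_36 hF
  have hno : ∀ y ∈ G.N F, G.Low y → y ≠ v → y ∉ G.nb z := by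
    intro y hy hyl hyv
    rcases hone y hy hyl with e | e
    · rw [e]; exact hzw
    · exact absurd e hyv
  have hgood : ∀ p q, G.Tw76 p q → p ∈ F → q ∈ F → z ≠ p → z ≠ q → False := by
    intro p q hpq hp hq h1 h2
    exact h.nopair hz hpq hp hq h1 h2 hy hyz hx hzx.symm hw hyw hxw
  obtain ⟨q, q', hq, hqT, hqT', h1, h2⟩ : ∃ p q, G.Tw76 p q ∧ p ∈ G.N F ∧ q ∈ G.N F ∧
      p ∈ G.nb v ∧ v ≠ q := by
    rcases h.cov hz hv (hall z hz) with ⟨y, hy, hyl, h1, h2⟩ | h1 |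
      ⟨p, q, hpq, hp, hq, h1, h2, h3⟩ | ⟨-, a, b, h1, h2, h3, h4, h5, h6⟩ |
      ⟨b, c, hb, hc, h1, h2, h3, h4, h5, h6, h7, h8⟩ | ⟨b, hb, h1, h2, h3, h4, h5⟩
    · exact absurd h1 (hno y hy hyl (nb_ne76 h2))
    · exact h1
    · exact absurd (hgood p q hpq hp hq h2 h3) not_false
    · exact absurd h5 (hno b h4 h2 h1.tb.symm)
    · exact absurd h4 (hno b h1 hb h8)
    · exact absurd h2 (hno b h1 hb h5)
  obtain ⟨h3, h4⟩ := g_tw36 hF hq hqT h1 h2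
  have hvT : G.nb v ∩ G.N F = {q, q'} := by
    symm
    apply eq_of_subset_of_card_le
    · intro a ha
      rw [mem_insert, mem_singleton] at ha
      rw [mem_inter]
      rcases ha with e | e
      · exact ⟨e ▸ h1, e ▸ hqT⟩
      · exact ⟨e ▸ h3, e ▸ hqT'⟩
    · rw [card_pair hq.ne]
      have h5 := G.part36 F v
      have h6 := hpos36 hF.1 hv
      have h7 : (G.nb v).card = 6 := hvl
      have h8 : (G.nb v ∩ F).card = 3 := by
        rw [inter_eq_right.2 (fun a ha => G.sym _ _ (hall a ha)), h.t3.c3]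
      omega
  -- another vertex
  have hcard : ((((G.N F).erase w).erase v).erase q).card = 3 := by
    rw [card_erase_of_mem, card_erase_of_mem, card_erase_of_mem hw, hF.1.2.1]
    · exact mem_erase.2 ⟨hwv.symm, hv⟩
    · exact mem_erase.2 ⟨(hq.ne_low hvl).symm, mem_erase.2 ⟨(hq.ne_low hwl).symm, hqT⟩⟩
  have hcard2 : (((((G.N F).erase w).erase v).erase q).erase q').card = 2 := by
    rw [card_erase_of_mem, hcard]
    exact mem_erase.2 ⟨hq.ne.symm, mem_erase.2 ⟨(hq.symm.ne_low hvl).symm,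
      mem_erase.2 ⟨(hq.symm.ne_low hwl).symm, hqT'⟩⟩⟩
  obtain ⟨a, b, hab, hs⟩ := card_eq_two.1 hcard2
  have hmem : ∀ t, t = a ∨ t = b ↔ t ≠ q' ∧ t ≠ q ∧ t ≠ v ∧ t ≠ w ∧ t ∈ G.N F := by
    intro t
    rw [← mem_erase, ← mem_erase, ← mem_erase, ← mem_erase, hs, mem_insert, mem_singleton]
  obtain ⟨a1, a2, a3, a4, a5⟩ := (hmem a).1 (Or.inl rfl)
  have hza : a ∈ G.nb z := h.mT hz a4.symm hw a5 hzw
  have hal : ¬ G.Low a := by
    intro e
    rcases hone a a5 e with e | e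
    · exact a4 e
    · exact a3 e
  rcases h.cov hz a5 hza with ⟨y, hy, hyl, h5, h6⟩ | ⟨r, r', hr, hrT, hrT', h5, h6⟩ |
    ⟨p, q, hpq, hp, hq, h1, h2, h3⟩ | ⟨h5, -⟩ |
    ⟨b, c, hb, hc, h5, h6, h7, h8, -⟩ | ⟨b, hb, h5, h6, h7, -⟩
  · have e : y = v := by
      by_contra e
      exact hno y hy hyl e h5
    rw [e] at h6
    have : a ∈ G.nb v ∩ G.N F := mem_inter.2 ⟨G.sym _ _ h6, a5⟩
    rw [hvT, mem_insert, mem_singleton] at this
    rcases this with e | e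
    · exact a2 e
    · exact a1 e
  · have hvq : v ∈ G.nb q := G.sym _ _ h1
    have hvq' : v ∈ G.nb q' := G.sym _ _ h3
    have r1 : r ≠ q := by
      intro e
      rw [e] at h5
      exact a3 (h.one hq hqT a5 (G.sym _ _ h5) a1 hv hvq h2)
    have r2 : r ≠ q' := by
      intro e
      rw [e] at h5
      exact a3 (h.one hq.symm hqT' a5 (G.sym _ _ h5) a2 hv hvq' (hq.ne_low hvl))
    have s1 : r' ≠ q := by
      intro e
      rw [e] at hr
      exact r2 (mate76 h9 hr.symm hq)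
    have s2 : r' ≠ q' := by
      intro e
      rw [e] at hr
      exact r1 (mate76 h9 hr.symm hq.symm)
    have r3 := (hmem r).2 ⟨r2, r1, (hr.ne_low hvl).symm, (hr.ne_low hwl).symm, hrT⟩
    have s3 := (hmem r').2 ⟨s2, s1, (hr.symm.ne_low hvl).symm, (hr.symm.ne_low hwl).symm, hrT'⟩
    have r4 : r ≠ a := nb_ne76 h5
    rcases r3 with e | e
    · exact r4 e
    · rcases s3 with e' | e'
      · exact h6 e'.symm
      · exact hr.ne (e.trans e'.symm)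
  · exact hgood p q hpq hp hq h2 h3
  · exact hal h5
  · have e : b = v := by
      by_contra e
      exact hno b h5 hb e h8
    rw [e] at h7
    have : c ∈ G.nb v ∩ G.N F := mem_inter.2 ⟨h7, h6⟩
    rw [hvT, mem_insert, mem_singleton] at this
    rcases this with e | e
    · exact hq.not_low (e ▸ hc)
    · exact hq.symm.not_low (e ▸ hc)
  · have e : b = v := by
      by_contra e
      exact hno b h5 hb e h6
    rw [e] at h7
    exact hzx (h7 x hx (G.sym _ _ (hall x hx))).symm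

end CG

end Pool.Agent.Lib.MP_e95c01_co.N
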