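import Pool.Agent.Lib.MP_e95c01_co.N4.Th36e

/-!
# Fragments with three vertices, none of them low: counting
-/

namespace Pool.Agent.Lib.MP_e95c01_co.N

open Finset

variable {V : Type} [Fintype V] [DecidableEq V]

namespace CG

variable {G : CG V} {F : Finset V}

/-- domination inside `N F` -/
theorem L0.dom (h : G.L0 F) {t : V} (ht : t ∈ G.N F) :
    (∃ w ∈ G.N F, G.Low w ∧ w ∈ G.nb t) ∨
    (∃ p q, G.Tw76 p q ∧ p ∈ G.N F ∧ q ∈ G.N F ∧ p ∈ G.nb t ∧ t ≠ q) ∨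
    (G.Low t ∧ ∃ a b, G.HL76 a b t ∧ G.Low b ∧ a ∈ G.N F ∧ b ∈ G.N F) := by
  have hF := h.t3.big
  have h9 := big9_36 hF
  by_contra hcon
  rw [not_or, not_or] at hcon
  obtain ⟨c1, c2, c3⟩ := hcon
  have key : ∀ z ∈ F, t ∈ G.nb z →
      (∃ p q, G.Tw76 p q ∧ p ∈ F ∧ q ∈ F ∧ p ∈ G.nb t ∧ z ≠ p ∧ z ≠ q) ∨
      (∃ b, G.Low b ∧ b ∈ G.N F ∧ b ∈ G.nb z ∧ (∀ v ∈ F, v ∈ G.nb b → v = z) ∧
        b ∉ G.nb t ∧ b ≠ t) := by
    intro z hz hzt
    rcases h.cov hz ht hzt with ⟨w, hw, hl, -, h1⟩ | h1 | h1 | ⟨h1, a, b, h2, h3, h4, h5, -⟩ |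
      ⟨b, c, hb, hc, h1, h2, -, -, -, h3, -⟩ | h1
    · exact absurd ⟨w, hw, hl, h1⟩ c1
    · exact absurd h1 c2
    · exact Or.inl h1
    · exact absurd ⟨h1, a, b, h2, h3, h4, h5⟩ c3
    · exact absurd ⟨c, h2, hc, h3⟩ c1
    · exact Or.inr h1
  obtain ⟨z, hz, hzt⟩ := nbrE36 ht
  have hzt' := G.sym _ _ hzt
  rcases key z hz hzt' with ⟨p, q, hpq, hp, hq, h1, h2, h3⟩ | ⟨b, hb, hbT, h1, h2, h3, h4⟩
  · rcases key p hp (G.sym _ _ h1) with ⟨r, s, hrs, hr, hs, -, h5, h6⟩ | ⟨b, hb, hbT, h4, h5, -⟩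
    · obtain ⟨y, hy1, hy2, hy3, -⟩ := h.pair hp hrs hr hs h5 h6 hq hpq.ne.symm
      exact hy3 (mate76 h9 hpq.symm hy1).symm
    · have h6 : b ∈ G.nb q := (hpq.iff (h.t3.ne hp hbT) (h.t3.ne hq hbT)).1 h4
      exact hpq.ne (h5 q hq (G.sym _ _ h6)).symm
  · by_cases hother : ∃ z' ∈ F, z' ≠ z ∧ t ∈ G.nb z'
    · obtain ⟨z', hz', hne, hzt2⟩ := hother
      obtain ⟨z'', hz'', h5, h6, -⟩ := h.third hz hz' hne.symm
      rcases key z' hz' hzt2 with ⟨r, s, hrs, hr, hs, -, h7, h8⟩ |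
        ⟨b', hb', hbT', h7, h8, h9', h10⟩
      · exact h.nopair hz' hrs hr hs h7 h8 hz hne.symm hz'' h6 hbT h1
          (fun e => h5 (h2 z'' hz'' (G.sym _ _ e)))
      · have hbb : b ≠ b' := by
          rintro rfl
          exact hne (h8 z hz (G.sym _ _ h1)).symm
        rcases h.t3.missT hz'' (h.nl z'' hz'') hbb hbT hbT' with e | e
        · exact h5 (h2 z'' hz'' (G.sym _ _ e))
        · exact h6 (h8 z'' hz'' (G.sym _ _ e))
    · refine priv36 hF.1 (by rw [h.t3.c3]; omega) h4 hbT ht h2 (z := z) ?_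
      intro v hv hvt
      by_contra hvz
      exact hother ⟨v, hv, hvz, G.sym _ _ hvt⟩

/-- two HL triples with the same head -/
theorem hl_two36 (h9 : 9 ≤ Fintype.card V) {a b s b' s' : V} (h : G.HL76 a b s)
    (h' : G.HL76 a b' s') (hb : G.Low b) (hss : s ≠ s') :
    b ∈ G.nb s' ∨ b' ∈ G.nb s := by
  by_contra hcon
  rw [not_or] at hcon
  have e1 : s' = b := by
    rcases (mem_HL36 h s').1 ((mem_HL36 h' s').2 (Or.inl rfl)) with e | e | e
    · exact absurd e.symm hss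
    · exact e
    · exact absurd (G.sym _ _ e.2) hcon.1
  have e2 : s = b' := by
    rcases (mem_HL36 h' s).1 ((mem_HL36 h s).2 (Or.inl rfl)) with e | e | e
    · exact absurd e hss
    · exact e
    · exact absurd (G.sym _ _ e.2) hcon.2
  subst e1
  subst e2
  -- now HL a s' s and HL a s s'
  have ha : ∀ v, v ∈ G.nb a ↔ v = s ∨ v = s' ∨ (v ≠ a ∧ v ∈ G.nb s') := mem_HL36 h
  have ha' : ∀ v, v ∈ G.nb a ↔ v = s' ∨ v = s ∨ (v ≠ a ∧ v ∈ G.nb s) := mem_HL36 h'
  have hsT : s ∉ G.nb s' := h.nt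
  have hsT' : s' ∉ G.nb s := h'.nt
  have hc : ((G.nb s').erase a).card = 5 := by
    have h1 := card_erase_add_one h.ab
    have h2 : (G.nb s').card = 6 := hb
    omega
  have hz : ({a, s, s'} : Finset V).card ≤ 3 := card_le_three
  refine no5_76 (G := G) (Z := {a, s, s'}) (T := (G.nb s').erase a) (insert_nonempty _ _) ?_ ?_
    hc.le (by omega)
  · rw [disjoint_left]
    intro x hx hx'
    rw [mem_erase] at hx'
    rw [mem_insert, mem_insert, mem_singleton] at hx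
    rcases hx with e | e | e
    · exact hx'.1 e
    · exact hsT (e ▸ hx'.2)
    · exact G.irr s' (e ▸ hx'.2)
  · intro x hx v hv
    rw [mem_union, mem_erase, mem_insert, mem_insert, mem_singleton]
    rw [mem_insert, mem_insert, mem_singleton] at hx
    by_cases hva : v = a
    · exact Or.inl (Or.inl hva)
    have h1 : v ∈ G.nb a → (v = a ∨ v = s ∨ v = s') ∨ v ≠ a ∧ v ∈ G.nb s' := by
      intro h2
      rcases (ha v).1 h2 with e | e | e
      · exact Or.inl (Or.inr (Or.inl e))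
      · exact Or.inl (Or.inr (Or.inr e))
      · exact Or.inr e
    rcases hx with e | e | e
    · exact h1 (e ▸ hv)
    · exact h1 ((ha' v).2 (Or.inr (Or.inr ⟨hva, e ▸ hv⟩)))
    · exact Or.inr ⟨hva, e ▸ hv⟩

open Classical in
/-- the number of low neighbours in `N F`, twice, and of twin neighbours, the mate not counted -/
noncomputable def n36 (G : CG V) (F : Finset V) (t : V) : ℤ :=
  2 * ((G.nb t ∩ (G.N F).filter fun w => G.Low w).card : ℤ) +
    ((G.nb t ∩ (G.N F).filter fun w => ∃ s, G.Tw76 w s).card : ℤ) -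
    (if ∃ s, G.Tw76 t s then 1 else 0)

theorem n0_36 (hF : G.Frag F) {t : V} (ht : t ∈ G.N F) : 0 ≤ G.n36 F t := by
  classical
  unfold n36
  split_ifs with h
  · obtain ⟨s, hs⟩ := h
    have h1 : 0 < (G.nb t ∩ (G.N F).filter fun w => ∃ s, G.Tw76 w s).card := by
      apply card_pos.2
      exact ⟨s, mem_inter.2 ⟨hs.adj, mem_filter.2 ⟨twN36 hF hs ht, t, hs.symm⟩⟩⟩
    omega
  · omega

theorem n_low36 (hF : G.Frag F) {t : V} (ht : t ∈ G.N F) (k : ℕ)
    (hk : k ≤ (G.nb t ∩ (G.N F).filter fun w => G.Low w).card) : 2 * (k : ℤ) ≤ G.n36 F t := by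
  classical
  unfold n36
  have h2 : (if ∃ s, G.Tw76 t s then (1 : ℤ) else 0) ≤
      ((G.nb t ∩ (G.N F).filter fun w => ∃ s, G.Tw76 w s).card : ℤ) := by
    split_ifs with h
    · obtain ⟨s, hs⟩ := h
      have h1 : 0 < (G.nb t ∩ (G.N F).filter fun w => ∃ s, G.Tw76 w s).card := by
        apply card_pos.2
        exact ⟨s, mem_inter.2 ⟨hs.adj, mem_filter.2 ⟨twN36 hF hs ht, t, hs.symm⟩⟩⟩
      omega
    · omega
  have h3 : (k : ℤ) ≤ ((G.nb t ∩ (G.N F).filter fun w => G.Low w).card : ℤ) := by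
    exact_mod_cast hk
  linarith

theorem n_low1_36 (hF : G.Frag F) {t w : V} (ht : t ∈ G.N F) (hw : w ∈ G.N F) (hl : G.Low w)
    (hwt : w ∈ G.nb t) : 2 ≤ G.n36 F t := by
  have := n_low36 hF ht 1 (card_pos.2 ⟨w, mem_inter.2 ⟨hwt, mem_filter.2 ⟨hw, hl⟩⟩⟩)
  simpa using this

theorem n_low2_36 (hF : G.Frag F) {t w v : V} (ht : t ∈ G.N F) (hw : w ∈ G.N F)
    (hl : G.Low w) (hwt : w ∈ G.nb t) (hv : v ∈ G.N F) (hvl : G.Low v) (hvt : v ∈ G.nb t)
    (hne : w ≠ v) : 4 ≤ G.n36 F t := by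
  have h1 : ({w, v} : Finset V) ⊆ G.nb t ∩ (G.N F).filter fun w => G.Low w := by
    intro x hx
    rw [mem_insert, mem_singleton] at hx
    rcases hx with e | e
    · rw [e]; exact mem_inter.2 ⟨hwt, mem_filter.2 ⟨hw, hl⟩⟩
    · rw [e]; exact mem_inter.2 ⟨hvt, mem_filter.2 ⟨hv, hvl⟩⟩
  have h2 := card_le_card h1
  rw [card_pair hne] at h2
  have := n_low36 hF ht 2 h2
  simpa using this

theorem n_tw36 (hF : G.Big F) {t p q : V} (_ht : t ∈ G.N F) (hpq : G.Tw76 p q)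
    (hp : p ∈ G.N F) (hpt : p ∈ G.nb t) (htq : t ≠ q) : 2 ≤ G.n36 F t := by
  classical
  have h9 := big9_36 hF
  have hqt := (g_tw36 hF hpq hp hpt htq).1
  have hq := twN36 hF.1 hpq hp
  unfold n36
  have h0 : (0 : ℤ) ≤ ((G.nb t ∩ (G.N F).filter fun w => G.Low w).card : ℤ) := by positivity
  split_ifs with h
  · obtain ⟨s, hs⟩ := h
    have hsN := twN36 hF.1 hs _ht
    have h1 : s ≠ p := by
      rintro rfl
      exact htq (mate76 h9 hs.symm hpq)
    have h2 : s ≠ q := by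
      rintro rfl
      have := mate76 h9 hs.symm hpq.symm
      exact nb_ne76 hpt this.symm
    have h3 : ({s, p, q} : Finset V) ⊆ G.nb t ∩ (G.N F).filter fun w => ∃ s, G.Tw76 w s := by
      intro x hx
      rw [mem_insert, mem_insert, mem_singleton] at hx
      rcases hx with e | e | e
      · rw [e]; exact mem_inter.2 ⟨hs.adj, mem_filter.2 ⟨hsN, t, hs.symm⟩⟩
      · rw [e]; exact mem_inter.2 ⟨hpt, mem_filter.2 ⟨hp, q, hpq⟩⟩
      · rw [e]; exact mem_inter.2 ⟨hqt, mem_filter.2 ⟨hq, p, hpq.symm⟩⟩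
    have h4 := card_le_card h3
    rw [card_insert_of_notMem, card_pair hpq.ne] at h4
    · omega
    · rw [mem_insert, mem_singleton, not_or]
      exact ⟨h1, h2⟩
  · have h3 : ({p, q} : Finset V) ⊆ G.nb t ∩ (G.N F).filter fun w => ∃ s, G.Tw76 w s := by
      intro x hx
      rw [mem_insert, mem_singleton] at hx
      rcases hx with e | e
      · rw [e]; exact mem_inter.2 ⟨hpt, mem_filter.2 ⟨hp, q, hpq⟩⟩
      · rw [e]; exact mem_inter.2 ⟨hqt, mem_filter.2 ⟨hq, p, hpq.symm⟩⟩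
    have h4 := card_le_card h3
    rw [card_pair hpq.ne] at h4
    omega

/-- six adjacencies inside `N F` -/
theorem L0.twelve (h : G.L0 F) : 12 ≤ ∑ t ∈ G.N F, G.n36 F t := by
  classical
  have hF := h.t3.big
  have h9 := big9_36 hF
  set T := G.N F with hT
  set T0 := T.filter (fun t => G.n36 F t < 2) with hT0
  set P : V → V → Prop := fun a s => ∃ b ∈ T, G.HL76 a b s ∧ G.Low b with hP
  have hT0c : ∀ s ∈ T0, G.Low s ∧ ∃ a ∈ T, P a s := by
    intro s hs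
    rw [hT0, mem_filter] at hs
    rcases h.dom hs.1 with ⟨w, hw, hl, h1⟩ | ⟨p, q, hpq, hp, hq, h1, h2⟩ |
      ⟨h1, a, b, h2, h3, h4, h5⟩
    · have := n_low1_36 hF.1 hs.1 hw hl h1
      omega
    · have := n_tw36 hF hs.1 hpq hp h1 h2
      omega
    · exact ⟨h1, a, h4, b, h5, h2, h3⟩
  -- the number of `s` in `T0` with head `t`
  have hm1 : ∀ t ∈ T, (T0.filter fun s => P t s).card ≤ 1 := by
    intro t _
    rw [card_le_one]
    intro s hs s' hs'
    rw [mem_filter] at hs hs'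
    by_contra hne
    obtain ⟨b, hb, hHL, hbl⟩ := hs.2
    obtain ⟨b', hb', hHL', hbl'⟩ := hs'.2
    have q1 := mem_filter.1 hs.1
    have q2 := mem_filter.1 hs'.1
    rcases hl_two36 h9 hHL hHL' hbl hne with e | e
    · have := n_low1_36 hF.1 q2.1 hb hbl e
      omega
    · have := n_low1_36 hF.1 q1.1 hb' hbl' e
      omega
  have hm4 : ∀ t ∈ T, 0 < (T0.filter fun s => P t s).card → 4 ≤ G.n36 F t := by
    intro t ht hpos
    obtain ⟨s, hs⟩ := card_pos.1 hpos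
    rw [mem_filter] at hs
    obtain ⟨b, hb, hHL, hbl⟩ := hs.2
    have q1 := mem_filter.1 hs.1
    have hsl := (hT0c s hs.1).1
    exact n_low2_36 hF.1 ht hb hbl (G.sym _ _ hHL.ab) q1.1 hsl
      ((mem_HL36 hHL s).2 (Or.inl rfl)) hHL.tb.symm
  have hpt : ∀ t ∈ T, (2 : ℤ) + 2 * ((T0.filter fun s => P t s).card : ℤ) -
      2 * (if t ∈ T0 then 1 else 0) ≤ G.n36 F t := by
    intro t ht
    have h1 := hm1 t ht
    have h0 := n0_36 hF.1 ht
    by_cases h2 : 0 < (T0.filter fun s => P t s).card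
    · have h3 := hm4 t ht h2
      split_ifs <;> omega
    · have h3 : (T0.filter fun s => P t s).card = 0 := by omega
      rw [h3]
      by_cases h4 : t ∈ T0
      · rw [if_pos h4]
        push_cast
        omega
      · rw [if_neg h4]
        have h5 : ¬ G.n36 F t < 2 := fun e => h4 (by rw [hT0, mem_filter]; exact ⟨ht, e⟩)
        push_cast
        omega
  have hsum := sum_le_sum hpt
  have e1 : ∑ t ∈ T, (if t ∈ T0 then (1 : ℤ) else 0) = (T0.card : ℤ) := by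
    rw [← sum_filter, sum_const, nsmul_eq_mul, mul_one]
    congr 2
    ext x
    rw [mem_filter, hT0, mem_filter]
    tauto
  have e2 : (T0.card : ℤ) ≤ ∑ t ∈ T, ((T0.filter fun s => P t s).card : ℤ) := by
    have h1 := sum_card_bipartiteAbove_eq_sum_card_bipartiteBelow (s := T) (t := T0)
      (fun a s => P a s)
    have h2 : ∀ s ∈ T0, 1 ≤ (bipartiteBelow (fun a s => P a s) T s).card := by
      intro s hs
      obtain ⟨-, a, ha, hPa⟩ := hT0c s hs
      apply card_pos.2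
      exact ⟨a, by rw [mem_bipartiteBelow]; exact ⟨ha, hPa⟩⟩
    have h3 := sum_le_sum h2
    rw [sum_const, smul_eq_mul, mul_one, ← h1] at h3
    have h4 : ∑ t ∈ T, ((T0.filter fun s => P t s).card : ℤ) =
        ((∑ a ∈ T, (bipartiteAbove (fun a s => P a s) T0 a).card : ℕ) : ℤ) := by
      push_cast
      rfl
    rw [h4]
    exact_mod_cast h3
  rw [sum_sub_distrib, sum_add_distrib, ← mul_sum, ← mul_sum, e1, sum_const, nsmul_eq_mul] at hsum
  have h6 : (T.card : ℤ) = 6 := by rw [hT, hF.1.2.1]; rfl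
  rw [h6] at hsum
  linarith

/-- the contributions by adjacencies -/
theorem L0.sum_ct (h : G.L0 F) : ∑ t ∈ G.N F, G.ct36 F t =
    ∑ w ∈ (G.N F).filter (fun w => G.Low w), (4 * ((G.nb w ∩ F).card : ℤ) - 4) +
      ∑ t ∈ G.N F, G.n36 F t := by
  classical
  have a1 : ∑ t ∈ G.N F, G.ct36 F t =
      ∑ w ∈ (G.N F).filter (fun w => G.Low w),
        (4 * ((G.nb w ∩ F).card : ℤ) + 2 * ((G.nb w ∩ G.N F).card : ℤ) - 4) +
      ∑ w ∈ (G.N F).filter (fun w => ∃ s, G.Tw76 w s),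
        (2 * ((G.nb w ∩ F).card : ℤ) + ((G.nb w ∩ G.N F).card : ℤ) - 7) := by
    rw [sum_filter, sum_filter, ← sum_add_distrib]
    apply sum_congr rfl
    intro t _
    unfold ct36
    congr 1
  have a2 : ∑ t ∈ G.N F, G.n36 F t =
      2 * ∑ t ∈ G.N F, ((G.nb t ∩ (G.N F).filter fun w => G.Low w).card : ℤ) +
      ∑ t ∈ G.N F, ((G.nb t ∩ (G.N F).filter fun w => ∃ s, G.Tw76 w s).card : ℤ) -
      ∑ w ∈ (G.N F).filter (fun w => ∃ s, G.Tw76 w s), (1 : ℤ) := by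
    rw [mul_sum, sum_filter, ← sum_add_distrib, ← sum_sub_distrib]
    apply sum_congr rfl
    intro t _
    unfold n36
    congr 1
  have e1 : ∑ t ∈ G.N F, ((G.nb t ∩ (G.N F).filter fun w => G.Low w).card : ℤ) =
      ∑ w ∈ (G.N F).filter (fun w => G.Low w), ((G.nb w ∩ G.N F).card : ℤ) := by
    have := G.dc_36 (G.N F) ((G.N F).filter fun w => G.Low w)
    exact_mod_cast this
  have e2 : ∑ t ∈ G.N F, ((G.nb t ∩ (G.N F).filter fun w => ∃ s, G.Tw76 w s).card : ℤ) =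
      ∑ w ∈ (G.N F).filter (fun w => ∃ s, G.Tw76 w s), ((G.nb w ∩ G.N F).card : ℤ) := by
    have := G.dc_36 (G.N F) ((G.N F).filter fun w => ∃ s, G.Tw76 w s)
    exact_mod_cast this
  rw [a1, a2, e1, e2]
  have e3 : ∀ w ∈ (G.N F).filter (fun w => ∃ s, G.Tw76 w s),
      (2 * ((G.nb w ∩ F).card : ℤ) + ((G.nb w ∩ G.N F).card : ℤ) - 7) =
      ((G.nb w ∩ G.N F).card : ℤ) - 1 := by
    intro w hw
    obtain ⟨h1, s, hs⟩ := mem_filter.1 hw
    rw [h.ftw hs h1]
    push_cast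
    ring
  have e3' := sum_congr rfl e3
  rw [sum_sub_distrib (f := fun w => ((G.nb w ∩ G.N F).card : ℤ)) (g := fun _ => (1 : ℤ))] at e3'
  have e4 : ∀ w ∈ (G.N F).filter (fun w => G.Low w),
      (4 * ((G.nb w ∩ F).card : ℤ) + 2 * ((G.nb w ∩ G.N F).card : ℤ) - 4) =
      (4 * ((G.nb w ∩ F).card : ℤ) - 4) + 2 * ((G.nb w ∩ G.N F).card : ℤ) := by
    intro w _
    ring
  have e4' := sum_congr rfl e4
  rw [sum_add_distrib (f := fun w => 4 * ((G.nb w ∩ F).card : ℤ) - 4)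
    (g := fun w => 2 * ((G.nb w ∩ G.N F).card : ℤ)), ← mul_sum] at e4'
  rw [e3', e4']
  ring

/-- no low vertex in `F` -/
theorem L0.main (h : G.L0 F) : 24 ≤ ∑ t ∈ G.N F, G.ct36 F t := by
  classical
  have hF := h.t3.big
  rw [h.sum_ct]
  have h1 := h.twelve
  set LT := (G.N F).filter (fun w => G.Low w) with hLT
  have hmem : ∀ w, w ∈ LT ↔ w ∈ G.N F ∧ G.Low w := fun w => by rw [hLT, mem_filter]
  suffices h2 : (12 : ℤ) ≤ ∑ w ∈ LT, (4 * ((G.nb w ∩ F).card : ℤ) - 4) by linarith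
  -- two low vertices
  have h3 : 1 < LT.card := by
    by_contra h3
    have h4 : LT.card ≤ 1 := by omega
    rw [card_le_one] at h4
    by_cases h5 : LT.Nonempty
    · obtain ⟨w, hw⟩ := h5
      exact h.twolow w (fun x hx hl => h4 x ((hmem x).2 ⟨hx, hl⟩) w hw)
    · obtain ⟨w, hw⟩ := hF.1.1
      refine h.twolow w (fun x hx hl => absurd ⟨x, (hmem x).2 ⟨hx, hl⟩⟩ h5)
  -- double counting
  have hdc : ∑ w ∈ LT, (G.nb w ∩ F).card = ∑ z ∈ F, (G.nb z ∩ LT).card := G.dc_36 LT F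
  have hz : ∀ z ∈ F, LT.card ≤ (G.nb z ∩ LT).card + 1 := by
    intro z hz
    have h4 : (LT \ G.nb z).card ≤ 1 := by
      rw [card_le_one]
      intro a ha b hb
      rw [mem_sdiff, hmem] at ha hb
      by_contra hab
      exact hb.2 (h.mT hz hab ha.1.1 hb.1.1 ha.2)
    have h5 := card_sdiff_add_card_inter LT (G.nb z)
    rw [inter_comm] at h5
    omega
  have hsum : 3 * LT.card ≤ ∑ w ∈ LT, (G.nb w ∩ F).card + 3 := by
    rw [hdc]
    have h4 := sum_le_sum hz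
    rw [sum_const, sum_add_distrib, sum_const, h.t3.c3] at h4
    simp only [smul_eq_mul] at h4
    omega
  have hcast : ∑ w ∈ LT, (4 * ((G.nb w ∩ F).card : ℤ) - 4) =
      4 * ((∑ w ∈ LT, (G.nb w ∩ F).card : ℕ) : ℤ) - 4 * (LT.card : ℤ) := by
    rw [sum_sub_distrib, ← mul_sum, sum_const, nsmul_eq_mul]
    push_cast
    ring
  rw [hcast]
  by_cases h4 : 3 ≤ LT.card
  · omega
  have h5 : LT.card = 2 := by omega
  obtain ⟨w, v, hwv, hLe⟩ := card_eq_two.1 h5
  have hw := (hmem w).1 (by rw [hLe]; exact mem_insert_self _ _)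
  have hv := (hmem v).1 (by rw [hLe]; exact mem_insert_of_mem (mem_singleton_self _))
  have hone : ∀ y ∈ G.N F, G.Low y → y = w ∨ y = v := by
    intro y hy hl
    have := (hmem y).2 ⟨hy, hl⟩
    rw [hLe, mem_insert, mem_singleton] at this
    exact this
  by_cases h6 : 5 ≤ ∑ w ∈ LT, (G.nb w ∩ F).card
  · omega
  exfalso
  have hs2 : ∑ w ∈ LT, (G.nb w ∩ F).card = (G.nb w ∩ F).card + (G.nb v ∩ F).card := by
    rw [hLe, sum_pair hwv]
  have hdif : ∀ z ∈ F, ∀ x ∈ F, w ∉ G.nb z → v ∉ G.nb x → False := fun z hz x hx h7 h8 =>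
    h.dif hw.1 hv.1 hw.2 hv.2 hwv hone hz hx h7 h8
  have fullcase : ∀ w v : V, w ≠ v → w ∈ G.N F → v ∈ G.N F → G.Low w → G.Low v →
      (∀ y ∈ G.N F, G.Low y → y = w ∨ y = v) → (∀ a ∈ F, v ∈ G.nb a) →
      (G.nb w ∩ F).card ≤ 1 → False := by
    intro w v hwv hw hv hwl hvl hone hall hf
    have hf1 : (G.nb w ∩ F).card = 1 := by
      have := fpos36 hw
      omega
    obtain ⟨y, hy⟩ := card_eq_one.1 hf1
    have hym : y ∈ G.nb w ∩ F := by rw [hy]; exact mem_singleton_self _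
    rw [mem_inter] at hym
    have h3 : 0 < (F.erase y).card := by
      rw [card_erase_of_mem hym.2, h.t3.c3]; omega
    obtain ⟨z, hz⟩ := card_pos.1 h3
    have hzF := mem_of_mem_erase hz
    have hzy := ne_of_mem_erase hz
    obtain ⟨x, hxF, hxz, hxy, -⟩ := h.third hzF hym.2 hzy
    have hm : ∀ a ∈ F, a ≠ y → w ∉ G.nb a := by
      intro a ha hay e
      have : a ∈ G.nb w ∩ F := mem_inter.2 ⟨G.sym _ _ e, ha⟩
      rw [hy, mem_singleton] at this
      exact hay this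
    exact h.full hw hv hwl hvl hwv hone hzF hxF hym.2 hxz.symm hzy.symm (hm z hzF hzy)
      (hm x hxF hxy) (G.sym _ _ hym.1) hall
  have hf3 : ∀ a : V, (∀ z ∈ F, a ∈ G.nb z) → (G.nb a ∩ F).card = 3 := by
    intro a ha
    rw [inter_eq_right.2 (fun z hz => G.sym _ _ (ha z hz)), h.t3.c3]
  by_cases h7 : ∀ z ∈ F, w ∈ G.nb z
  · by_cases h8 : ∀ z ∈ F, v ∈ G.nb z
    · have := hf3 w h7
      have := hf3 v h8
      omega
    · refine fullcase v w hwv.symm hv.1 hw.1 hv.2 hw.2 (fun y hy hl => (hone y hy hl).symm) h7 ?_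
      have := hf3 w h7
      omega
  · push Not at h7
    obtain ⟨z, hz, hzw⟩ := h7
    have h8 : ∀ x ∈ F, v ∈ G.nb x := by
      intro x hx
      by_contra e
      exact hdif z hz x hx hzw e
    refine fullcase w v hwv hw.1 hv.1 hw.2 hv.2 hone h8 ?_
    have := hf3 v h8
    omega

end CG

end Pool.Agent.Lib.MP_e95c01_co.N
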