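import Pool.Agent.Lib.MP_e95c01_co.N4.Th36d

/-!
# Fragments with three vertices, one of them low: an additional low vertex
-/

namespace Pool.Agent.Lib.MP_e95c01_co.N

open Finset

variable {V : Type} [Fintype V] [DecidableEq V]

namespace CG

variable {G : CG V} {F : Finset V} {u z y s t c p q : V}

theorem sumL_36 {f : V → ℤ} {T : Finset V} {l : List V} (hl : l.Nodup) (h1 : ∀ x ∈ l, x ∈ T)
    (h : ∀ t ∈ T, 0 ≤ f t) : (l.map f).sum ≤ ∑ t ∈ T, f t := by
  rw [← List.sum_toFinset f hl]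
  apply sum_ge36
  · intro x hx
    rw [List.mem_toFinset] at hx
    exact h1 x hx
  · intro t ht _
    exact h t ht

theorem listT36 {T : Finset V} {l : List V} (hl : l.Nodup) (h1 : ∀ x ∈ l, x ∈ T)
    (h2 : T.card = l.length) : ∀ x ∈ T, x ∈ l := by
  have h3 : l.toFinset = T := by
    apply eq_of_subset_of_card_le
    · intro x hx
      rw [List.mem_toFinset] at hx
      exact h1 x hx
    · rw [List.toFinset_card_of_nodup hl, h2]
  intro x hx
  rw [← h3, List.mem_toFinset] at hx
  exact hx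

/-- the additional low vertex: one neighbour in `F`, a twin pair in `N F` -/
structure Ad (G : CG V) (F : Finset V) (c p q : V) : Prop where
  hc : c ∈ G.N F
  cl : G.Low c
  f1 : (G.nb c ∩ F).card = 1
  pq : G.Tw76 p q
  hN : G.nb c ∩ G.N F = {p, q}

theorem Ad.pc (a : G.Ad F c p q) : p ∈ G.nb c ∧ p ∈ G.N F := by
  rw [← mem_inter, a.hN]; exact mem_insert_self _ _

theorem Ad.qc (a : G.Ad F c p q) : q ∈ G.nb c ∧ q ∈ G.N F := by
  rw [← mem_inter, a.hN]; exact mem_insert_of_mem (mem_singleton_self _)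

theorem Ad.two (a : G.Ad F c p q) : (G.nb c ∩ G.N F).card = 2 := by
  rw [a.hN, card_pair a.pq.ne]

theorem Ad.ct (a : G.Ad F c p q) : G.ct36 F c = 4 := by
  rw [ct_low36 a.cl, a.f1, a.two]
  norm_num

theorem Ad.cas (a : G.Ad F c p q) {x : V} (hx : x ∈ G.N F) (h : x ∈ G.nb c) : x = p ∨ x = q := by
  have : x ∈ G.nb c ∩ G.N F := mem_inter.2 ⟨h, hx⟩
  rwa [a.hN, mem_insert, mem_singleton] at this

theorem Ad.cp (a : G.Ad F c p q) : c ≠ p := (nb_ne76 a.pc.1).symm
theorem Ad.cq (a : G.Ad F c p q) : c ≠ q := (nb_ne76 a.qc.1).symm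

/-- the three vertices contribute 6 -/
theorem Ad.base (a : G.Ad F c p q) (h : G.L1 F u z y)
    (hA : ∀ p q, G.Tw76 p q → p ∈ G.N F → p ∈ G.nb u) :
    1 ≤ G.ct36 F p ∧ 1 ≤ G.ct36 F q ∧ (∀ s ∈ G.N F, s ∈ G.nb p → s ≠ q → s = c) ∧
      (∀ s ∈ G.N F, s ∈ G.nb q → s ≠ p → s = c) := by
  obtain ⟨h1, h2, h3, h4, h5, h6⟩ := h.tw1 hA a.pq a.pc.2 a.hc a.pc.1 a.cq
  obtain ⟨-, -, -, -, -, h7⟩ := h.tw1 hA a.pq.symm a.qc.2 a.hc a.qc.1 a.cp
  exact ⟨h1, h2, h6, h7⟩

/-- one more vertex with contribution 6 -/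
theorem Ad.plus (a : G.Ad F c p q) (h : G.L1 F u z y)
    (hA : ∀ p q, G.Tw76 p q → p ∈ G.N F → p ∈ G.nb u) {w : V} (hw : w ∈ G.N F)
    (hl : G.Low w) (hwc : w ≠ c) (h6 : 6 ≤ G.ct36 F w) : 12 ≤ ∑ x ∈ G.N F, G.ct36 F x := by
  obtain ⟨h1, h2, -, -⟩ := a.base h hA
  have h3 := sum4_36 (c := G.ct36 F) a.hc a.pc.2 a.qc.2 hw a.cp a.cq hwc.symm a.pq.ne
    (a.pq.ne_low hl).symm (a.pq.symm.ne_low hl).symm (fun t ht _ _ _ _ => h.nn hA t ht)
  rw [a.ct] at h3
  linarith

/-- `c = s`, seen by `y` only -/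
theorem L2.addS (h : G.L2 F u z y s t) (a : G.Ad F s p q) (hsz : s ∉ G.nb z)
    (hsy : s ∈ G.nb y) : 12 ≤ ∑ x ∈ G.N F, G.ct36 F x := by
  have hF := h.l.t3.big
  have h9 := big9_36 hF
  obtain ⟨c1, c2, c3, c4⟩ := a.base h.l h.hA
  have htz : t ∈ G.nb z := h.zm h.st h.hs h.ht hsz
  have htp : t ≠ p := fun e => h.tu (e ▸ h.hA p q a.pq a.pc.2)
  have htq : t ≠ q := fun e => h.tu (e ▸ h.hA q p a.pq.symm a.qc.2)
  have hst : t ∉ G.nb s := by
    intro e
    rcases a.cas h.ht e with e | e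
    · exact htp e
    · exact htq e
  -- a low vertex at `z`
  have hlow : ∀ w ∈ G.N F, G.Low w → w ≠ t → w ∈ G.nb z → w ≠ s ∧ w ∈ G.nb u ∧ w ∉ G.nb y := by
    intro w hw hl hwt hwz
    have h1 : w ≠ s := fun e => hsz (e ▸ hwz)
    have h2 := h.lowU hw h1 hwt
    exact ⟨h1, h2, fun e => h.lowA hw hl h2 hwz e⟩
  have hlow6 : ∀ w ∈ G.N F, G.Low w → w ≠ t → w ∈ G.nb z → ∀ x ∈ G.N F, x ∈ G.nb w →
      12 ≤ ∑ x ∈ G.N F, G.ct36 F x := by
    intro w hw hl hwt hwz x hx hxw
    obtain ⟨h1, h2, h3⟩ := hlow w hw hl hwt hwz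
    apply a.plus h.l h.hA hw hl h1
    have h4 := g1_36 hx hxw
    rw [ct_low36 hl, h.l.f, if_pos h2, if_pos hwz, if_neg h3]
    push_cast
    omega
  rcases h.sws.cov htz with ⟨w, hw, hl, h1, h2⟩ | ⟨p1, q1, hpq1, hp1, hq1, h1, h2⟩ |
    ⟨hl, a', b, h1, h2, h3, h4, h5, h6⟩ | ⟨hl, h1⟩ |
    ⟨b, c', h1, h2, h3, h4, h5, h6, h7, h8, h9', h10⟩ | ⟨hl, h1, h2, h3⟩
  · exact hlow6 w hw hl (nb_ne76 h2) h1 t h.ht (G.sym _ _ h2)
  · -- a twin pair
    obtain ⟨d1, d2, d3, d4, d5, d6⟩ := h.l.tw1 h.hA hpq1 hp1 h.ht h1 h2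
    obtain ⟨h4, h5⟩ := h.six a.pq a.pc.2 a.pc.1 a.cq hpq1 hp1 h1 h2
    by_cases htl : G.Low t
    · by_cases hty : t ∈ G.nb y
      · apply a.plus h.l h.hA h.ht htl h.st.symm
        rw [ct_low36 htl, h.l.f, if_neg h.tu, if_pos htz, if_pos hty]
        push_cast
        omega
      · -- `t` seen by `z` only
        have h6 := sumL_36 (f := G.ct36 F) h4 h5 (h.l.nn h.hA)
        simp only [List.map_cons, List.map_nil, List.sum_cons, List.sum_nil] at h6
        rw [a.ct, ct_low36 htl, h.l.f, if_neg h.tu, if_pos htz, if_neg hty] at h6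
        push_cast at h6
        omega
    · -- contradiction
      exfalso
      obtain ⟨h4, h5⟩ := h.six a.pq a.pc.2 a.pc.1 a.cq hpq1 hp1 h1 h2
      have hT := listT36 h4 h5 (by rw [hF.1.2.1]; rfl)
      have hlowT : ∀ w ∈ G.N F, G.Low w → w = s := by
        intro w hw hl
        have := hT w hw
        simp only [List.mem_cons, List.not_mem_nil, or_false] at this
        rcases this with e | e | e | e | e | e
        · exact e
        · exact absurd (e ▸ hl) htl
        · exact absurd (e ▸ hl) a.pq.not_low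
        · exact absurd (e ▸ hl) a.pq.symm.not_low
        · exact absurd (e ▸ hl) hpq1.not_low
        · exact absurd (e ▸ hl) hpq1.symm.not_low
      rcases h.l.t3.coverU h.l.muF h.l.lu h.l.low
        (fun w hw hl => by rw [hlowT w hw hl]; exact h.su) a.pc.2 a.pq.not_low
        (h.hA p q a.pq a.pc.2) with ⟨r, r', hr, hrT, -, h6, h7⟩ |
        ⟨r, r', hr, hrF, hrF', h6, h7, h8⟩ | ⟨b, b', h6, h7, h8, h10, -⟩ | ⟨b, hb, h6⟩
      · exact tw_not36 hF hr hrT (by rw [h.l.ftw hr hrT (h.hA r r' hr hrT)]) a.pc.2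
          (G.sym _ _ h6) h7 a.pq
      · have hzy : G.Tw76 z y := by
          rcases h.l.casF hrF with e | e | e
          · exact absurd e.symm h7
          · rcases h.l.casF hrF' with e' | e' | e'
            · exact absurd e'.symm h8
            · exact absurd (e.trans e'.symm) hr.ne
            · rw [← e, ← e']; exact hr
          · rcases h.l.casF hrF' with e' | e' | e'
            · exact absurd e'.symm h8
            · rw [← e, ← e']; exact hr.symm
            · exact absurd (e.trans e'.symm) hr.ne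
        exact hsz ((hzy.iff (h.l.t3.ne h.l.mzF h.hs) (h.l.t3.ne h.l.myF h.hs)).2 hsy)
      · have e1 := hlowT b' h10 h7
        subst e1
        have hb : b = p ∨ b = q := a.cas h8 h6.ab
        have hbz : b ∈ G.nb z := by
          rcases hb with e | e
          · rw [e]; exact h.l.t3.tw h.l.mzF h.l.lz a.pq a.pc.2
          · rw [e]; exact h.l.t3.tw h.l.mzF h.l.lz a.pq.symm a.qc.2
        rcases (mem_HL36 h6 z).1 (G.sym _ _ hbz) with e | e | e
        · exact h.l.uz e.symm
        · exact h.l.t3.ne h.l.mzF h10 e.symm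
        · exact hsz (G.sym _ _ e.2)
      · have hbz : b ∉ G.nb z := fun e => h.l.uz (h6 z h.l.mzF (G.sym _ _ e)).symm
        have hby : b ∉ G.nb y := fun e => h.l.uy (h6 y h.l.myF (G.sym _ _ e)).symm
        have := hT b hb
        simp only [List.mem_cons, List.not_mem_nil, or_false] at this
        rcases this with e | e | e | e | e | e
        · exact hby (e ▸ hsy)
        · exact hbz (e ▸ htz)
        · exact hbz (e ▸ h.l.t3.tw h.l.mzF h.l.lz a.pq a.pc.2)
        · exact hbz (e ▸ h.l.t3.tw h.l.mzF h.l.lz a.pq.symm a.qc.2)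
        · exact hbz (e ▸ h.l.t3.tw h.l.mzF h.l.lz hpq1 hp1)
        · exact hbz (e ▸ h.l.t3.tw h.l.mzF h.l.lz hpq1.symm hq1)
  · exact hlow6 b h4 h2 h1.tb.symm h5 a' h3 h1.ab
  · exfalso
    rcases (mem_HL36 h1 s).1 hsy with e | e | e
    · exact h.st e
    · exact h.l.t3.ne h.l.muF h.hs e
    · exact h.su e.2
  · exfalso
    have e1 : c' = s := by
      by_contra e
      exact h7 (h.zm (fun e' => e e'.symm) h.hs h4 hsz)
    rw [e1] at h8
    exact hst (G.sym _ _ h8)
  · exact absurd h1 hsz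

/-- `c` adjacent to `u` -/
theorem L2.addU (h : G.L2 F u z y s t) (a : G.Ad F c p q) (hcu : c ∈ G.nb u)
    (hcz : c ∉ G.nb z) (hcy : c ∉ G.nb y) : 12 ≤ ∑ x ∈ G.N F, G.ct36 F x := by
  have hF := h.l.t3.big
  obtain ⟨c1, c2, c3, c4⟩ := a.base h.l h.hA
  have hcs : c ≠ s := fun e => h.su (e ▸ hcu)
  have hct : c ≠ t := fun e => h.tu (e ▸ hcu)
  have hsz : s ∈ G.nb z := h.zm hcs a.hc h.hs hcz
  have htz : t ∈ G.nb z := h.zm hct a.hc h.ht hcz
  have hty : t ∈ G.nb y := h.swz.zm hct a.hc h.ht hcy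
  have hsp : s ≠ p := fun e => h.su (e ▸ h.hA p q a.pq a.pc.2)
  have hsq : s ≠ q := fun e => h.su (e ▸ h.hA q p a.pq.symm a.qc.2)
  -- the low vertices at `z`
  have hlow : ∀ w ∈ G.N F, G.Low w → w ≠ s → w ∈ G.nb z → w = t := by
    intro w hw hl hws hwz
    by_contra hwt
    have hwc : w ≠ c := fun e => hcz (e ▸ hwz)
    exact h.lowA hw hl (h.lowU hw hws hwt) hwz (h.swz.zm hwc.symm a.hc hw hcy)
  rcases h.cov hsz with ⟨w, hw, hl, h1, h2⟩ | ⟨p1, q1, hpq1, hp1, hq1, h1, h2⟩ |
    ⟨hl, a', b, h1, h2, h3, h4, h5, h6⟩ | ⟨hl, h1⟩ |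
    ⟨b, c', h1, h2, h3, h4, h5, h6, h7, h8, h9', h10⟩ | ⟨hl, h1, h2, h3⟩
  · have e := hlow w hw hl (nb_ne76 h2) h1
    subst e
    apply a.plus h.l h.hA h.ht hl hct.symm
    have h3 := g1_36 h.hs (G.sym _ _ h2)
    rw [ct_low36 hl, h.l.f, if_neg h.tu, if_pos htz, if_pos hty]
    push_cast
    omega
  · exfalso
    have e1 : p1 ≠ p := by
      rintro rfl
      exact hcs (c3 s h.hs (G.sym _ _ h1) hsq).symm
    have e2 : p1 ≠ q := by
      rintro rfl
      exact hcs (c4 s h.hs (G.sym _ _ h1) hsp).symm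
    have h9 := big9_36 hF
    have e3 : q1 ≠ p := by
      rintro rfl
      exact e2 (mate76 h9 hpq1.symm a.pq)
    have e4 : q1 ≠ q := by
      rintro rfl
      exact e1 (mate76 h9 hpq1.symm a.pq.symm)
    have htp : t ≠ p := fun e => h.tu (e ▸ h.hA p q a.pq a.pc.2)
    have htq : t ≠ q := fun e => h.tu (e ▸ h.hA q p a.pq.symm a.qc.2)
    have htp1 : t ≠ p1 := fun e => h.tu (e ▸ h.hA p1 q1 hpq1 hp1)
    have htq1 : t ≠ q1 := fun e => h.tu (e ▸ h.hA q1 p1 hpq1.symm hq1)
    have hsp1 : s ≠ p1 := fun e => h.su (e ▸ h.hA p1 q1 hpq1 hp1)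
    have hnd : [c, s, t, p, q, p1, q1].Nodup := by
      simp only [List.nodup_cons, List.mem_cons, List.not_mem_nil, or_false, not_or,
        not_false_eq_true, List.nodup_nil, and_true]
      exact ⟨⟨hcs, hct, a.cp, a.cq, hpq1.ne_low a.cl, hpq1.symm.ne_low a.cl⟩,
        ⟨h.st, hsp, hsq, hsp1, h2⟩, ⟨htp, htq, htp1, htq1⟩, ⟨a.pq.ne, e1.symm, e3.symm⟩,
        ⟨e2.symm, e4.symm⟩, hpq1.ne⟩
    have h7 : ([c, s, t, p, q, p1, q1].toFinset).card ≤ (G.N F).card := by
      apply card_le_card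
      intro x hx
      rw [List.mem_toFinset] at hx
      simp only [List.mem_cons, List.not_mem_nil, or_false] at hx
      rcases hx with rfl | rfl | rfl | rfl | rfl | rfl | rfl
      · exact a.hc
      · exact h.hs
      · exact h.ht
      · exact a.pc.2
      · exact a.qc.2
      · exact hp1
      · exact hq1
    rw [List.toFinset_card_of_nodup hnd, hF.1.2.1] at h7
    simp only [List.length_cons, List.length_nil] at h7
    omega
  · exfalso
    have e := hlow b h4 h2 h1.tb.symm h5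
    subst e
    have hau : a' ∉ G.nb u := by
      intro e
      rcases (mem_HL36 h1 u).1 (G.sym _ _ e) with e' | e' | e'
      · exact h.l.t3.ne h.l.muF h.hs e'.symm
      · exact h.l.t3.ne h.l.muF h.ht e'.symm
      · exact h.tu (G.sym _ _ e'.2)
    rcases h.cas a' h3 hau with e | e
    · rw [e] at h1
      exact nb_ne76 ((mem_HL36 h1 s).2 (Or.inl rfl)) rfl
    · exact nb_ne76 h1.ab e
  · exact absurd ((mem_HL36 h1 c).2 (Or.inr (Or.inr ⟨h.l.t3.ne h.l.myF a.hc, hcu⟩))) hcy
  · exfalso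
    have e1 : c' = c := by
      by_contra e
      exact h7 (h.zm (fun e' => e e'.symm) a.hc h4 hcz)
    rw [e1] at h8
    rcases a.cas h.hs (G.sym _ _ h8) with e | e
    · exact hsp e
    · exact hsq e
  · exact absurd hty h2

/-- one low vertex in `F`: the addition -/
theorem L1.add (h : G.L1 F u z y) (a : G.Ad F c p q) : 12 ≤ ∑ x ∈ G.N F, G.ct36 F x := by
  have hF := h.t3.big
  have hfc := a.f1
  rw [h.f] at hfc
  by_cases hA : ∀ p q, G.Tw76 p q → p ∈ G.N F → p ∈ G.nb u
  swap
  · push Not at hA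
    obtain ⟨r, r', hr, hrT, hu⟩ := hA
    have hrT' := twN36 hF.1 hr hrT
    have hcu : c ∈ G.nb u := by
      by_contra e
      have huq : r' ∉ G.nb u := by
        intro h1
        apply hu
        apply G.sym
        rw [hr.iff (h.t3.ne h.muF hrT).symm (h.t3.ne h.muF hrT').symm]
        exact G.sym _ _ h1
      have h4 : ({c, r, r'} : Finset V) ⊆ G.N F \ G.nb u := by
        intro x hx
        rw [mem_insert, mem_insert, mem_singleton] at hx
        rw [mem_sdiff]
        rcases hx with rfl | rfl | rfl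
        · exact ⟨a.hc, e⟩
        · exact ⟨hrT, hu⟩
        · exact ⟨hrT', huq⟩
      have h5 := card_le_card h4
      rw [card_insert_of_notMem, card_pair hr.ne, h.cU] at h5
      · split_ifs at h5 <;> omega
      · rw [mem_insert, mem_singleton, not_or]
        exact ⟨hr.ne_low a.cl, hr.symm.ne_low a.cl⟩
    rw [if_pos hcu] at hfc
    refine (h.caseA hr hrT hu).2 c a.hc ?_ ?_ a.cl (by rw [a.two])
    · intro e
      rw [if_pos e] at hfc
      omega
    · intro e
      rw [if_pos e] at hfc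
      split_ifs at hfc <;> omega
  by_cases hB : ∀ w ∈ G.N F, G.Low w → (G.nb w ∩ F).card ≤ 2
  swap
  · push Not at hB
    obtain ⟨w, hw, hl, h1⟩ := hB
    apply a.plus h hA hw hl
    · rintro rfl
      rw [a.f1] at h1
      omega
    · rw [ct_low36 hl]
      omega
  by_cases hz : z ∈ G.nb u
  · by_cases hy : y ∈ G.nb u
    · have h1 := h.cU
      rw [if_pos hz, if_pos hy] at h1
      obtain ⟨s, t, hst, h2⟩ := card_eq_two.1 h1
      have hs : s ∈ G.N F \ G.nb u := by rw [h2]; exact mem_insert_self _ _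
      have ht : t ∈ G.N F \ G.nb u := by
        rw [h2]; exact mem_insert_of_mem (mem_singleton_self _)
      rw [mem_sdiff] at hs ht
      have hL2 : G.L2 F u z y s t := ⟨h, hA, hB, hz, hy, hst, hs.1, ht.1, hs.2, ht.2, by
        intro x hx hxu
        have : x ∈ G.N F \ G.nb u := mem_sdiff.2 ⟨hx, hxu⟩
        rw [h2, mem_insert, mem_singleton] at this
        exact this⟩
      by_cases hcu : c ∈ G.nb u
      · rw [if_pos hcu] at hfc
        refine hL2.addU a hcu ?_ ?_
        · intro e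
          rw [if_pos e] at hfc
          omega
        · intro e
          rw [if_pos e] at hfc
          split_ifs at hfc <;> omega
      · have key : ∀ s t : V, G.L2 F u z y s t → c = s → 12 ≤ ∑ x ∈ G.N F, G.ct36 F x := by
          intro s t hL2 e
          subst e
          by_cases hcz : c ∈ G.nb z
          · have hcy : c ∉ G.nb y := by
              intro e
              rw [if_pos hcz, if_pos e] at hfc
              split_ifs at hfc <;> omega
            exact hL2.swz.addS a hcy hcz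
          · have hcy : c ∈ G.nb y := by
              rcases h.fpos a.hc with e | e | e
              · exact absurd e hcu
              · exact absurd e hcz
              · exact e
            exact hL2.addS a hcz hcy
        rcases hL2.cas c a.hc hcu with e | e
        · exact key s t hL2 e
        · exact key t s hL2.sws e
    · -- d1
      exfalso
      have key := (h.d1 hA hB hz hy).2
      have hcy : c ∈ G.nb y := h.swap.z_all (fun e => hy (G.sym _ _ e)) a.hc
      have hcu : c ∉ G.nb u := by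
        intro e
        rw [if_pos e, if_pos hcy] at hfc
        split_ifs at hfc <;> omega
      have hcz : c ∉ G.nb z := by
        intro e
        rw [if_pos e, if_pos hcy] at hfc
        split_ifs at hfc <;> omega
      refine key c a.hc a.cl ?_ hcu hcz
      intro w hw hl
      by_contra hwc
      have h1 := hB w hw hl
      have hwy : w ∈ G.nb y := h.swap.z_all (fun e => hy (G.sym _ _ e)) hw
      have hwz : w ∈ G.nb z := h.zm (fun e => hwc e.symm) a.hc hw hcz
      have hwu : w ∈ G.nb u := by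
        by_contra e
        have h5 := h.cU
        rw [if_pos hz, if_neg hy] at h5
        have h6 : (G.N F \ G.nb u).card ≤ 1 := by omega
        rw [card_le_one] at h6
        exact hwc (h6 w (mem_sdiff.2 ⟨hw, e⟩) c (mem_sdiff.2 ⟨a.hc, hcu⟩))
      rw [h.f, if_pos hwu, if_pos hwz, if_pos hwy] at h1
      omega
  · by_cases hy : y ∈ G.nb u
    · exfalso
      have h' := h.swap
      have key := (h'.d1 hA hB hy hz).2
      have hcz : c ∈ G.nb z := h.z_all (fun e => hz (G.sym _ _ e)) a.hc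
      have hcu : c ∉ G.nb u := by
        intro e
        rw [if_pos e, if_pos hcz] at hfc
        split_ifs at hfc <;> omega
      have hcy : c ∉ G.nb y := by
        intro e
        rw [if_pos e, if_pos hcz] at hfc
        split_ifs at hfc <;> omega
      refine key c a.hc a.cl ?_ hcu hcy
      intro w hw hl
      by_contra hwc
      have h1 := hB w hw hl
      have hwz : w ∈ G.nb z := h.z_all (fun e => hz (G.sym _ _ e)) hw
      have hwy : w ∈ G.nb y := h'.zm (fun e => hwc e.symm) a.hc hw hcy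
      have hwu : w ∈ G.nb u := by
        by_contra e
        have h5 := h.cU
        rw [if_neg hz, if_pos hy] at h5
        have h6 : (G.N F \ G.nb u).card ≤ 1 := by omega
        rw [card_le_one] at h6
        exact hwc (h6 w (mem_sdiff.2 ⟨hw, e⟩) c (mem_sdiff.2 ⟨a.hc, hcu⟩))
      rw [h.f, if_pos hwu, if_pos hwz, if_pos hwy] at h1
      omega
    · exact absurd (h.d0 hA hB hz hy) not_false

end CG

end Pool.Agent.Lib.MP_e95c01_co.N
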