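import Pool.Agent.Lib.MP_e95c01_co.N4.Cls76

/-!
# Fragments: edges, twins and HL triples at the neighbourhood of a fragment
-/

namespace Pool.Agent.Lib.MP_e95c01_co.N

open Finset

variable {V : Type} [Fintype V] [DecidableEq V]

namespace CG

variable {G : CG V}

/-- a vertex of `N E` has a neighbour in `E` -/
theorem nbrE36 {E : Finset V} {v : V} (hv : v ∈ G.N E) : ∃ u ∈ E, u ∈ G.nb v := by
  obtain ⟨-, u, hu, h⟩ := mem_N37.1 hv
  exact ⟨u, hu, G.sym _ _ h⟩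

/-- a vertex of `N E` has a neighbour in `Co E` -/
theorem nbrCo36 {E : Finset V} (hE : G.Frag E) {v : V} (hv : v ∈ G.N E) :
    ∃ u ∈ G.Co E, u ∈ G.nb v := by
  rw [← (G.stCo_37 E hE).2.1] at hv
  exact nbrE36 hv

/-- no edge between `E` and `Co E` -/
theorem noed36 {E : Finset V} {u v : V} (hu : u ∈ E) (hv : v ∈ G.Co E) : v ∉ G.nb u := by
  intro h
  have h1 := (mem_Co37.1 hv)
  exact h1.2 (mem_N37.2 ⟨h1.1, u, hu, h⟩)

theorem noed36' {E : Finset V} {u v : V} (hu : u ∈ E) (hv : v ∈ G.Co E) : u ∉ G.nb v :=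
  fun h => noed36 hu hv (G.sym _ _ h)

theorem cas36 (G : CG V) (E : Finset V) (v : V) : v ∈ E ∨ v ∈ G.N E ∨ v ∈ G.Co E := by
  by_cases h : v ∈ E
  · exact Or.inl h
  by_cases h1 : v ∈ G.N E
  · exact Or.inr (Or.inl h1)
  · exact Or.inr (Or.inr (mem_Co37.2 ⟨h, h1⟩))

theorem nE36 {E : Finset V} {v : V} (hv : v ∈ G.N E) : v ∉ E := (mem_N37.1 hv).1

theorem nCo36 {E : Finset V} {v : V} (hv : v ∈ G.N E) : v ∉ G.Co E :=
  fun h => (mem_Co37.1 h).2 hv

theorem coE36 {E : Finset V} {v : V} (hv : v ∈ G.Co E) : v ∉ E := (mem_Co37.1 hv).1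

theorem coN36 {E : Finset V} {v : V} (hv : v ∈ G.Co E) : v ∉ G.N E := (mem_Co37.1 hv).2

theorem mem_HL36 {a b t : V} (h : G.HL76 a b t) (v : V) :
    v ∈ G.nb a ↔ v = t ∨ v = b ∨ (v ≠ a ∧ v ∈ G.nb b) := by
  rw [h.eq, mem_insert, mem_insert, mem_erase]

/-- the mate of a twin in `N E` is in `N E` -/
theorem twN36 {E : Finset V} (hE : G.Frag E) {p q : V} (h : G.Tw76 p q) (hp : p ∈ G.N E) :
    q ∈ G.N E := by
  rcases G.cas36 E q with hq | hq | hq
  · obtain ⟨v, hv, hvp⟩ := nbrCo36 hE hp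
    have h1 : v ≠ q := by rintro rfl; exact coE36 hv hq
    exact absurd ((h.iff (nb_ne76 hvp) h1).1 hvp) (noed36 hq hv)
  · exact hq
  · obtain ⟨v, hv, hvp⟩ := nbrE36 hp
    have h1 : v ≠ q := by rintro rfl; exact coE36 hq hv
    exact absurd ((h.iff (nb_ne76 hvp) h1).1 hvp) (noed36' hv hq)

theorem twE36 {E : Finset V} (hE : G.Frag E) {p q : V} (h : G.Tw76 p q) (hp : p ∈ E) :
    q ∈ E := by
  rcases G.cas36 E q with hq | hq | hq
  · exact hq
  · exact absurd hp (nE36 (twN36 hE h.symm hq))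
  · exact absurd h.adj (noed36 hp hq)

/-- the head of an HL triple with `b` in `N E` is in `N E` -/
theorem hlN36 {E : Finset V} (hE : G.Frag E) {a b t : V} (h : G.HL76 a b t) (hb : b ∈ G.N E) :
    a ∈ G.N E := by
  rcases G.cas36 E a with ha | ha | ha
  · obtain ⟨v, hv, hvb⟩ := nbrCo36 hE hb
    have hva : v ≠ a := by rintro rfl; exact coE36 hv ha
    exact absurd ((mem_HL36 h v).2 (Or.inr (Or.inr ⟨hva, hvb⟩))) (noed36 ha hv)
  · exact ha
  · obtain ⟨v, hv, hvb⟩ := nbrE36 hb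
    have hva : v ≠ a := by rintro rfl; exact coE36 ha hv
    exact absurd ((mem_HL36 h v).2 (Or.inr (Or.inr ⟨hva, hvb⟩))) (noed36' hv ha)

/-- two vertices of `N E` with the same single neighbour in `E` -/
theorem priv36 {E : Finset V} (hE : G.Frag E) (h2 : 2 ≤ E.card) {s t z : V} (hst : s ≠ t)
    (hs : s ∈ G.N E) (ht : t ∈ G.N E) (h3 : ∀ v ∈ E, v ∈ G.nb s → v = z)
    (h4 : ∀ v ∈ E, v ∈ G.nb t → v = z) : False := by
  have hz : z ∈ E := by
    obtain ⟨v, hv, hvs⟩ := nbrE36 hs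
    rw [← h3 v hv hvs]
    exact hv
  have hne : (E.erase z).Nonempty := by
    rw [← card_pos, card_erase_of_mem hz]
    omega
  have hsub : G.N (E.erase z) ⊆ insert z (((G.N E).erase s).erase t) := by
    intro v hv
    obtain ⟨h5, u, hu, hvu⟩ := mem_N37.1 hv
    rw [mem_erase] at hu
    rw [mem_insert]
    by_cases hvz : v = z
    · exact Or.inl hvz
    right
    have hvE : v ∉ E := fun h => h5 (mem_erase.2 ⟨hvz, h⟩)
    rw [mem_erase, mem_erase]
    refine ⟨?_, ?_, mem_N37.2 ⟨hvE, u, hu.2, hvu⟩⟩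
    · rintro rfl
      exact hu.1 (h4 u hu.2 (G.sym _ _ hvu))
    · rintro rfl
      exact hu.1 (h3 u hu.2 (G.sym _ _ hvu))
  have h5 : (G.N (E.erase z)).card ≤ 5 := by
    have h6 := card_le_card hsub
    have h7 := card_insert_le z (((G.N E).erase s).erase t)
    have h8 : t ∈ (G.N E).erase s := mem_erase.2 ⟨hst.symm, ht⟩
    have h9 := card_erase_add_one h8
    have h10 := card_erase_add_one hs
    have h11 := hE.2.1
    omega
  have h6 := G.stN6_37 (E.erase z) hne (hE.2.2.mono (Co_anti37 (erase_subset _ _)))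
  omega

/-- a vertex of `E` has all its neighbours in `E` and `N E` -/
theorem nbF36 {E : Finset V} {u v : V} (hu : u ∈ E) (hv : v ∈ G.nb u) : v ∈ E ∨ v ∈ G.N E := by
  rcases G.cas36 E v with h | h | h
  · exact Or.inl h
  · exact Or.inr h
  · exact absurd hv (noed36 hu h)

/-- a twin is no private neighbour in an LL pair -/
theorem twLL36 {p q b c : V} (h : G.Tw76 p q) (hb : G.Low b) (hc : G.Low c) (hpc : p ∈ G.nb c)
    (hpb : p ∉ G.nb b) (h1 : ∀ z ∈ G.nb c, z ≠ b → z ≠ p → z ∈ G.nb b) : False := by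
  have hqc : q ∈ G.nb c := by
    apply G.sym
    rw [← h.iff (h.ne_low hc) (h.ne_low' hc)]
    exact G.sym _ _ hpc
  have hqb := h1 q hqc (h.ne_low' hb).symm h.ne.symm
  apply hpb
  apply G.sym
  rw [h.iff (h.ne_low hb) (h.ne_low' hb)]
  exact G.sym _ _ hqb

/-- degrees -/
theorem part36 (F : Finset V) (v : V) :
    (G.nb v ∩ F).card + (G.nb v ∩ G.N F).card + (G.nb v ∩ G.Co F).card = (G.nb v).card := by
  have hd1 : Disjoint (G.nb v ∩ F) (G.nb v ∩ G.N F) := by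
    rw [disjoint_left]
    intro x h1 h2
    exact nE36 (mem_inter.1 h2).2 (mem_inter.1 h1).2
  have hd2 : Disjoint ((G.nb v ∩ F) ∪ (G.nb v ∩ G.N F)) (G.nb v ∩ G.Co F) := by
    rw [disjoint_left]
    intro x h1 h2
    have := mem_Co37.1 (mem_inter.1 h2).2
    rcases mem_union.1 h1 with h | h
    · exact this.1 (mem_inter.1 h).2
    · exact this.2 (mem_inter.1 h).2
  rw [← card_union_of_disjoint hd1, ← card_union_of_disjoint hd2]
  congr 1
  ext x
  rw [mem_union, mem_union, mem_inter, mem_inter, mem_inter]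
  have := G.cas36 F x
  tauto

theorem fpos36 {E : Finset V} {v : V} (hv : v ∈ G.N E) : 0 < (G.nb v ∩ E).card := by
  obtain ⟨u, hu, h⟩ := nbrE36 hv
  exact card_pos.2 ⟨u, mem_inter.2 ⟨h, hu⟩⟩

theorem hpos36 {E : Finset V} (hE : G.Frag E) {v : V} (hv : v ∈ G.N E) :
    0 < (G.nb v ∩ G.Co E).card := by
  obtain ⟨u, hu, h⟩ := nbrCo36 hE hv
  exact card_pos.2 ⟨u, mem_inter.2 ⟨h, hu⟩⟩

/-- twins in `N E` have the same neighbours in `E` -/
theorem twI36 {S : Finset V} {p q : V} (h : G.Tw76 p q) (hp : p ∉ S) (hq : q ∉ S) :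
    G.nb p ∩ S = G.nb q ∩ S := by
  ext x
  rw [mem_inter, mem_inter]
  constructor
  · rintro ⟨h1, h2⟩
    exact ⟨(h.iff (nb_ne76 h1) (fun h3 => hq (h3 ▸ h2))).1 h1, h2⟩
  · rintro ⟨h1, h2⟩
    exact ⟨(h.iff (fun h3 => hp (h3 ▸ h2)) (nb_ne76 h1)).2 h1, h2⟩

theorem twf36 {E : Finset V} (hE : G.Frag E) (h2 : 2 ≤ E.card) {p q : V} (h : G.Tw76 p q)
    (hp : p ∈ G.N E) : 2 ≤ (G.nb p ∩ E).card := by
  by_contra hlt
  have h0 := fpos36 hp
  obtain ⟨z, hz⟩ := card_eq_one.1 (by omega : (G.nb p ∩ E).card = 1)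
  have hq := twN36 hE h hp
  have h3 := twI36 h (nE36 hp) (nE36 hq)
  refine priv36 hE h2 h.ne hp hq (z := z) ?_ ?_
  · intro v hv hvp
    have : v ∈ G.nb p ∩ E := mem_inter.2 ⟨hvp, hv⟩
    rw [hz, mem_singleton] at this
    exact this
  · intro v hv hvq
    have : v ∈ G.nb q ∩ E := mem_inter.2 ⟨hvq, hv⟩
    rw [← h3, hz, mem_singleton] at this
    exact this

theorem twh36 {E : Finset V} (hE : G.Frag E) (h2 : 2 ≤ (G.Co E).card) {p q : V}
    (h : G.Tw76 p q) (hp : p ∈ G.N E) : 2 ≤ (G.nb p ∩ G.Co E).card := by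
  obtain ⟨h3, h4, h5⟩ := G.stCo_37 E hE
  exact twf36 h3 h2 h (by rw [h4]; exact hp)

/-- counting neighbours among three vertices -/
theorem three36 {a b c : V} (hab : a ≠ b) (hac : a ≠ c) (hbc : b ≠ c) (S : Finset V) :
    (S ∩ {a, b, c}).card = (if a ∈ S then 1 else 0) + (if b ∈ S then 1 else 0) +
      (if c ∈ S then 1 else 0) := by
  have h1 : S ∩ {a, b, c} = ({a, b, c} : Finset V).filter (fun x => x ∈ S) := by
    ext x
    rw [mem_inter, mem_filter, and_comm]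
  rw [h1, card_filter, sum_insert, sum_insert, sum_singleton, ← add_assoc]
  · rw [mem_singleton]; exact hbc
  · rw [mem_insert, mem_singleton, not_or]; exact ⟨hab, hac⟩

end CG

end Pool.Agent.Lib.MP_e95c01_co.N
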